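import Mathlib

/-!
# Monomial valuations of polynomial rings over a field with the trivial valuation
-/

set_option autoImplicit false
set_option linter.unusedSectionVars false
set_option linter.unusedVariables false

namespace Pool.Agent.Q13.MA

open MvPolynomial

section

variable {k : Type*} [Field k] {n : ℕ}

/-- the value of a monomial -/
noncomputable def mu (r : Fin n → NNReal) (α : Fin n →₀ ℕ) : NNReal := ∏ i, r i ^ α i

lemma mu_add (r : Fin n → NNReal) (α β : Fin n →₀ ℕ) : mu r (α + β) = mu r α * mu r β := by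
  unfold mu
  rw [← Finset.prod_mul_distrib]
  refine Finset.prod_congr rfl fun i _ => ?_
  rw [Finsupp.add_apply, pow_add]

lemma mu_zero (r : Fin n → NNReal) : mu r 0 = 1 := by
  unfold mu
  simp

lemma mu_pos {r : Fin n → NNReal} (hr : ∀ i, 0 < r i) (α : Fin n →₀ ℕ) : 0 < mu r α :=
  Finset.prod_pos fun i _ => pow_pos (hr i) _

lemma mu_single (r : Fin n → NNReal) (i : Fin n) : mu r (Finsupp.single i 1) = r i := by
  classical
  unfold mu
  rw [Finset.prod_eq_single i]
  · simp
  · intro j _ hj
    rw [Finsupp.single_eq_of_ne hj, pow_zero]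
  · intro h
    exact absurd (Finset.mem_univ i) h

/-- the value of a polynomial -/
noncomputable def mw (r : Fin n → NNReal) (P : MvPolynomial (Fin n) k) : NNReal :=
  P.support.sup (mu r)

lemma mu_le_mw (r : Fin n → NNReal) (P : MvPolynomial (Fin n) k) {α : Fin n →₀ ℕ}
    (h : coeff α P ≠ 0) : mu r α ≤ mw r P :=
  Finset.le_sup (f := mu r) (mem_support_iff.2 h)

lemma mw_le_iff (r : Fin n → NNReal) (P : MvPolynomial (Fin n) k) (ρ : NNReal) :
    mw r P ≤ ρ ↔ ∀ α, coeff α P ≠ 0 → mu r α ≤ ρ := by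
  unfold mw
  rw [Finset.sup_le_iff]
  exact ⟨fun h α hα => h α (mem_support_iff.2 hα), fun h α hα => h α (mem_support_iff.1 hα)⟩

lemma mw_zero (r : Fin n → NNReal) : mw r (0 : MvPolynomial (Fin n) k) = 0 := by
  apply le_antisymm _ bot_le
  rw [mw_le_iff]
  intro α h
  exact absurd (coeff_zero α) h

lemma mw_monomial (r : Fin n → NNReal) (α : Fin n →₀ ℕ) {c : k} (hc : c ≠ 0) :
    mw r (monomial α c) = mu r α := by
  classical
  apply le_antisymm
  · rw [mw_le_iff]
    intro β h
    rw [coeff_monomial] at h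
    split_ifs at h with h1
    · rw [h1]
    · exact absurd rfl h
  · refine mu_le_mw r _ ?_
    rw [coeff_monomial, if_pos rfl]
    exact hc

lemma mw_C (r : Fin n → NNReal) {c : k} (hc : c ≠ 0) :
    mw r (C c : MvPolynomial (Fin n) k) = 1 := by
  have h := mw_monomial r (0 : Fin n →₀ ℕ) hc
  rw [mu_zero] at h
  exact h

lemma mw_X (r : Fin n → NNReal) (i : Fin n) : mw r (X i : MvPolynomial (Fin n) k) = r i := by
  have h := mw_monomial r (Finsupp.single i 1) (one_ne_zero (α := k))
  rw [mu_single] at h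
  exact h

lemma mw_eq_zero {r : Fin n → NNReal} (hr : ∀ i, 0 < r i) (P : MvPolynomial (Fin n) k) :
    mw r P = 0 ↔ P = 0 := by
  constructor
  · intro h
    by_contra hP
    obtain ⟨α, hα⟩ := MvPolynomial.ne_zero_iff.1 hP
    have h1 := mu_le_mw r P hα
    rw [h] at h1
    exact absurd h1 (not_le.2 (mu_pos hr α))
  · intro h
    rw [h, mw_zero]

lemma mw_add (r : Fin n → NNReal) (P Q : MvPolynomial (Fin n) k) :
    mw r (P + Q) ≤ max (mw r P) (mw r Q) := by
  rw [mw_le_iff]
  intro α h
  rw [coeff_add] at h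
  by_cases h1 : coeff α P = 0
  · rw [h1, zero_add] at h
    exact le_max_of_le_right (mu_le_mw r Q h)
  · exact le_max_of_le_left (mu_le_mw r P h1)

lemma exists_mw (r : Fin n → NNReal) {P : MvPolynomial (Fin n) k} (hP : P ≠ 0) :
    ∃ α, coeff α P ≠ 0 ∧ mu r α = mw r P := by
  obtain ⟨β, hβ⟩ := MvPolynomial.ne_zero_iff.1 hP
  obtain ⟨α, hα, h⟩ := Finset.exists_mem_eq_sup P.support ⟨β, mem_support_iff.2 hβ⟩ (mu r)
  exact ⟨α, mem_support_iff.1 hα, h.symm⟩

/-- the initial part -/
noncomputable def ini (r : Fin n → NNReal) (P : MvPolynomial (Fin n) k) :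
    MvPolynomial (Fin n) k :=
  ∑ α ∈ P.support.filter (fun α => mu r α = mw r P), monomial α (coeff α P)

lemma coeff_ini (r : Fin n → NNReal) (P : MvPolynomial (Fin n) k) (β : Fin n →₀ ℕ)
    [Decidable (mu r β = mw r P)] :
    coeff β (ini r P) = if mu r β = mw r P then coeff β P else 0 := by
  classical
  unfold ini
  rw [coeff_sum]
  simp only [coeff_monomial]
  rw [Finset.sum_ite_eq']
  by_cases h : mu r β = mw r P
  · rw [if_pos h]
    by_cases h0 : coeff β P = 0
    · rw [h0]
      split_ifs <;> rfl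
    · rw [if_pos]
      exact Finset.mem_filter.2 ⟨mem_support_iff.2 h0, h⟩
  · rw [if_neg h, if_neg]
    intro h1
    exact h (Finset.mem_filter.1 h1).2

lemma mw_mul {r : Fin n → NNReal} (hr : ∀ i, 0 < r i) (P Q : MvPolynomial (Fin n) k) :
    mw r (P * Q) = mw r P * mw r Q := by
  classical
  by_cases hP : P = 0
  · rw [hP, zero_mul, mw_zero, zero_mul]
  by_cases hQ : Q = 0
  · rw [hQ, mul_zero, mw_zero, mul_zero]
  apply le_antisymm
  · rw [mw_le_iff]
    intro γ h
    rw [coeff_mul] at h
    obtain ⟨⟨α, β⟩, hm, h1⟩ := Finset.exists_ne_zero_of_sum_ne_zero h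
    rw [← Finset.HasAntidiagonal.mem_antidiagonal.1 hm, mu_add]
    exact mul_le_mul' (mu_le_mw r P (left_ne_zero_of_mul h1)) (mu_le_mw r Q (right_ne_zero_of_mul h1))
  · obtain ⟨α0, hα0, hα0'⟩ := exists_mw r hP
    obtain ⟨β0, hβ0, hβ0'⟩ := exists_mw r hQ
    have hP0 : ini r P ≠ 0 := by
      rw [MvPolynomial.ne_zero_iff]
      exact ⟨α0, by rw [coeff_ini, if_pos hα0']; exact hα0⟩
    have hQ0 : ini r Q ≠ 0 := by
      rw [MvPolynomial.ne_zero_iff]
      exact ⟨β0, by rw [coeff_ini, if_pos hβ0']; exact hβ0⟩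
    obtain ⟨γ, hγ⟩ := MvPolynomial.ne_zero_iff.1 (mul_ne_zero hP0 hQ0)
    have hγ' := hγ
    rw [coeff_mul] at hγ'
    obtain ⟨⟨α, β⟩, hm, h1⟩ := Finset.exists_ne_zero_of_sum_ne_zero hγ'
    have h2 := left_ne_zero_of_mul h1
    have h3 := right_ne_zero_of_mul h1
    rw [coeff_ini] at h2 h3
    have h4 : mu r α = mw r P := by
      by_contra h
      rw [if_neg h] at h2
      exact h2 rfl
    have h5 : mu r β = mw r Q := by
      by_contra h
      rw [if_neg h] at h3
      exact h3 rfl
    have hγm : mu r γ = mw r P * mw r Q := by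
      rw [← Finset.HasAntidiagonal.mem_antidiagonal.1 hm, mu_add, h4, h5]
    rw [← hγm]
    refine mu_le_mw r _ ?_
    have h6 : coeff γ (P * Q) = coeff γ (ini r P * ini r Q) := by
      rw [coeff_mul, coeff_mul]
      refine Finset.sum_congr rfl fun x hx => ?_
      rw [coeff_ini, coeff_ini]
      by_cases hc : coeff x.1 P * coeff x.2 Q = 0
      · rw [hc]
        symm
        split_ifs
        · exact hc
        · rw [mul_zero]
        · rw [zero_mul]
        · rw [mul_zero]
      · have e1 := mu_le_mw r P (left_ne_zero_of_mul hc)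
        have e2 := mu_le_mw r Q (right_ne_zero_of_mul hc)
        have e3 : mu r x.1 * mu r x.2 = mw r P * mw r Q := by
          rw [← mu_add, Finset.HasAntidiagonal.mem_antidiagonal.1 hx, hγm]
        have e4 : mu r x.1 = mw r P := by
          by_contra h
          have h7 : mu r x.1 < mw r P := lt_of_le_of_ne e1 h
          have h8 : mu r x.1 * mu r x.2 < mw r P * mw r Q := by
            calc mu r x.1 * mu r x.2 < mw r P * mu r x.2 :=
                  mul_lt_mul_of_pos_right h7 (mu_pos hr _)
              _ ≤ _ := mul_le_mul_right e2 _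
          exact absurd e3 h8.ne
        have e5 : mu r x.2 = mw r Q := by
          rw [e4] at e3
          have h9 : 0 < mw r P := by rw [← e4]; exact mu_pos hr _
          exact mul_left_cancel₀ h9.ne' e3
        rw [if_pos e4, if_pos e5]
    rw [h6]
    exact hγ

/-- the monomial valuation -/
noncomputable def mval (k : Type*) [Field k] {n : ℕ} (r : Fin n → NNReal) (hr : ∀ i, 0 < r i) :
    Valuation (MvPolynomial (Fin n) k) NNReal where
  toFun := mw r
  map_zero' := mw_zero r
  map_one' := by
    have h := mw_C r (one_ne_zero (α := k))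
    rwa [C_1] at h
  map_mul' := mw_mul hr
  map_add_le_max' := mw_add r

lemma mval_apply (r : Fin n → NNReal) (hr : ∀ i, 0 < r i) (P : MvPolynomial (Fin n) k) :
    mval k r hr P = mw r P := rfl

/-- the derivatives -/
lemma mw_pderiv {r : Fin n → NNReal} (hr : ∀ i, 0 < r i) (P : MvPolynomial (Fin n) k)
    (i : Fin n) : mw r (pderiv i P) * r i ≤ mw r P := by
  classical
  rw [← mw_X (k := k) r i, ← mw_mul hr, mw_le_iff]
  intro α hα
  rw [coeff_mul_X'] at hα
  split_ifs at hα with h
  · refine mu_le_mw r P ?_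
    intro h0
    apply hα
    rw [coeff_pderiv]
    have h1 : α - Finsupp.single i 1 + Finsupp.single i 1 = α := by
      ext j
      by_cases hj : j = i
      · subst hj
        have : α j ≠ 0 := Finsupp.mem_support_iff.1 h
        simp
        omega
      · simp [Finsupp.single_eq_of_ne hj]
    rw [h1, h0]
    simp
  · exact absurd rfl hα

end

end Pool.Agent.Q13.MA
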