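import Mathlib
import Pool.Agent.Q13.MA.Mono

/-!
# The log discrepancy of a monomial valuation in linear coordinates
-/

set_option autoImplicit false
set_option linter.unusedSectionVars false
set_option linter.unusedVariables false

namespace Pool.Agent.Q13.MA

open MvPolynomial

section

variable {n : ℕ}

/-- the linear form with the coefficients `a` -/
noncomputable def lf (a : Fin n → ℤ) : MvPolynomial (Fin n) ℤ := ∑ i, C (a i) * X i

/-- the coordinates change: `X i = ∑ j, B i j Y j` -/
noncomputable def psi (B : Matrix (Fin n) (Fin n) ℚ) :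
    MvPolynomial (Fin n) ℤ →+* MvPolynomial (Fin n) ℚ :=
  eval₂Hom ((C : ℚ →+* MvPolynomial (Fin n) ℚ).comp (Int.castRingHom ℚ))
    fun i => ∑ j, C (B i j) * X j

lemma psi_C (B : Matrix (Fin n) (Fin n) ℚ) (c : ℤ) : psi B (C c) = C (c : ℚ) := by
  simp [psi]

lemma psi_X (B : Matrix (Fin n) (Fin n) ℚ) (i : Fin n) : psi B (X i) = ∑ j, C (B i j) * X j := by
  simp [psi]

lemma psi_lf (B : Matrix (Fin n) (Fin n) ℚ) (a : Fin n → ℤ) :
    psi B (lf a) = ∑ j, C (∑ i, (a i : ℚ) * B i j) * X j := by
  unfold lf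
  rw [map_sum]
  have h1 : ∀ i, psi B (C (a i) * X i) = ∑ j, C ((a i : ℚ) * B i j) * X j := by
    intro i
    rw [map_mul, psi_C, psi_X, Finset.mul_sum]
    refine Finset.sum_congr rfl fun j _ => ?_
    rw [C_mul, mul_assoc]
  rw [Finset.sum_congr rfl fun i _ => h1 i, Finset.sum_comm]
  refine Finset.sum_congr rfl fun j _ => ?_
  rw [map_sum, Finset.sum_mul]

variable (A : Matrix (Fin n) (Fin n) ℤ) (B : Matrix (Fin n) (Fin n) ℚ)

/-- the matrix over the rational numbers -/
def AQ (A : Matrix (Fin n) (Fin n) ℤ) : Matrix (Fin n) (Fin n) ℚ := A.map (Int.cast : ℤ → ℚ)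

lemma psi_row (hAB : AQ A * B = 1) (j : Fin n) : psi B (lf (A j)) = X j := by
  classical
  rw [psi_lf, Finset.sum_eq_single j]
  · have h1 := congrFun (congrFun hAB j) j
    rw [Matrix.mul_apply, Matrix.one_apply_eq] at h1
    have h2 : ∑ i, (A j i : ℚ) * B i j = 1 := h1
    rw [h2, C_1, one_mul]
  · intro k _ hk
    have h1 := congrFun (congrFun hAB j) k
    rw [Matrix.mul_apply, Matrix.one_apply_ne (Ne.symm hk)] at h1
    have h2 : ∑ i, (A j i : ℚ) * B i k = 0 := h1
    rw [h2, C_0, zero_mul]
  · intro h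
    exact absurd (Finset.mem_univ j) h

lemma psi_injective (hAB : AQ A * B = 1) : Function.Injective (psi B) := by
  classical
  have hBA : B * AQ A = 1 := mul_eq_one_comm.1 hAB
  let η : MvPolynomial (Fin n) ℚ →+* MvPolynomial (Fin n) ℚ :=
    eval₂Hom (C : ℚ →+* MvPolynomial (Fin n) ℚ) fun j => ∑ i, C ((A j i : ℚ)) * X i
  have h1 : η.comp (psi B) = map (Int.castRingHom ℚ) := by
    apply MvPolynomial.ringHom_ext
    · intro c
      simp [η, psi]
    · intro i
      rw [RingHom.comp_apply, psi_X, map_sum, map_X]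
      have h2 : ∀ j, η (C (B i j) * X j) = ∑ k, C (B i j * (A j k : ℚ)) * X k := by
        intro j
        rw [map_mul]
        have e1 : η (C (B i j)) = C (B i j) := by simp [η]
        have e2 : η (X j) = ∑ k, C ((A j k : ℚ)) * X k := by simp [η]
        rw [e1, e2, Finset.mul_sum]
        refine Finset.sum_congr rfl fun k _ => ?_
        rw [C_mul, mul_assoc]
      rw [Finset.sum_congr rfl fun j _ => h2 j, Finset.sum_comm, Finset.sum_eq_single i]
      · rw [← Finset.sum_mul, ← map_sum]
        have h3 := congrFun (congrFun hBA i) i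
        rw [Matrix.mul_apply, Matrix.one_apply_eq] at h3
        have h4 : ∑ j, B i j * (A j i : ℚ) = 1 := h3
        rw [h4, C_1, one_mul]
      · intro k _ hk
        rw [← Finset.sum_mul, ← map_sum]
        have h3 := congrFun (congrFun hBA i) k
        rw [Matrix.mul_apply, Matrix.one_apply_ne (Ne.symm hk)] at h3
        have h4 : ∑ j, B i j * (A j k : ℚ) = 0 := h3
        rw [h4, C_0, zero_mul]
      · intro h
        exact absurd (Finset.mem_univ i) h
  have h2 : Function.Injective (η.comp (psi B)) := by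
    rw [h1]
    exact map_injective _ Int.cast_injective
  rw [RingHom.coe_comp] at h2
  exact Function.Injective.of_comp h2

/-- the chain rule -/
lemma psi_pderiv (hAB : AQ A * B = 1) (i : Fin n) (P : MvPolynomial (Fin n) ℤ) :
    psi B (pderiv i P) = ∑ j, C ((A j i : ℚ)) * pderiv j (psi B P) := by
  classical
  have hBA : B * AQ A = 1 := mul_eq_one_comm.1 hAB
  induction P using MvPolynomial.induction_on with
  | C c => simp
  | add p q hp hq =>
    rw [map_add, map_add, map_add, hp, hq, ← Finset.sum_add_distrib]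
    refine Finset.sum_congr rfl fun j _ => ?_
    rw [map_add, mul_add]
  | mul_X p k hp =>
    have hX : ∑ j, C ((A j i : ℚ)) * pderiv j (psi B (X k)) = psi B (pderiv i (X k)) := by
      have h1 : ∀ j, pderiv j (psi B (X k)) = C (B k j) := by
        intro j
        rw [psi_X, map_sum, Finset.sum_eq_single j]
        · rw [pderiv_C_mul, pderiv_X_self, mul_one]
        · intro l _ hl
          rw [pderiv_C_mul, pderiv_X_of_ne hl, mul_zero]
        · intro h
          exact absurd (Finset.mem_univ j) h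
      rw [Finset.sum_congr rfl fun j _ => by rw [h1 j, ← C_mul, mul_comm], ← map_sum]
      have h3 := congrFun (congrFun hBA k) i
      rw [Matrix.mul_apply] at h3
      have h4 : ∑ j, B k j * (A j i : ℚ) = (1 : Matrix (Fin n) (Fin n) ℚ) k i := h3
      rw [h4]
      by_cases hki : k = i
      · subst hki
        rw [Matrix.one_apply_eq, pderiv_X_self, C_1, map_one]
      · rw [Matrix.one_apply_ne hki, pderiv_X_of_ne hki, C_0, map_zero]
    rw [pderiv_mul, map_add, map_mul, map_mul, hp, map_mul, ← hX, Finset.sum_mul, Finset.mul_sum,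
      ← Finset.sum_add_distrib]
    refine Finset.sum_congr rfl fun j _ => ?_
    rw [pderiv_mul]
    ring

/-- the monomial valuation in the coordinates given by the rows of `A` -/
noncomputable def lval (r : Fin n → NNReal) (hr : ∀ i, 0 < r i) :
    Valuation (MvPolynomial (Fin n) ℤ) NNReal :=
  (mval ℚ r hr).comap (psi B)

lemma lval_apply (r : Fin n → NNReal) (hr : ∀ i, 0 < r i) (P : MvPolynomial (Fin n) ℤ) :
    lval B r hr P = mw r (psi B P) := rfl

/-- determinants -/
lemma val_det {F : Type*} [Field F] (W : Valuation F NNReal) (M : Matrix (Fin n) (Fin n) F)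
    (ρ : Fin n → NNReal) (h : ∀ i j, W (M i j) ≤ ρ i) : W M.det ≤ ∏ i, ρ i := by
  rw [Matrix.det_apply]
  refine W.map_sum_le fun σ _ => ?_
  have h1 : W (Equiv.Perm.sign σ • ∏ i, M (σ i) i) = ∏ i, W (M (σ i) i) := by
    rcases Int.units_eq_one_or (Equiv.Perm.sign σ) with h2 | h2
    · rw [h2, one_smul, map_prod]
    · rw [h2, Units.neg_smul, one_smul, Valuation.map_neg, map_prod]
  rw [h1, ← Equiv.prod_comp σ ρ]
  exact Finset.prod_le_prod' fun i _ => h _ _

/-- **the log discrepancy** -/
theorem disc (hAB : AQ A * B = 1) (r : Fin n → NNReal) (hr : ∀ i, 0 < r i) (r' : NNReal)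
    (T : ℕ) (q : MvPolynomial (Fin n) ℤ) (h : Fin T → MvPolynomial (Fin n) ℤ)
    (p : Fin T → Fin n → MvPolynomial (Fin n) ℤ) (hq : lval B r hr q ≠ 0)
    (hh : ∀ k, lval B r hr (h k) ≤ r' * lval B r hr q) (hp : ∀ k i, lval B r hr (p k i) ≠ 0)
    (hid : ∑ k, algebraMap _ (FractionRing (MvPolynomial (Fin n) ℤ)) (h k) /
      algebraMap _ (FractionRing (MvPolynomial (Fin n) ℤ)) q *
      (Matrix.of fun i j => algebraMap _ (FractionRing (MvPolynomial (Fin n) ℤ))
        (pderiv i (p k j)) / algebraMap _ (FractionRing (MvPolynomial (Fin n) ℤ)) (p k j)).det = 1) :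
    ∏ i, r i ≤ r' := by
  classical
  let F' := FractionRing (MvPolynomial (Fin n) ℚ)
  let a' := algebraMap (MvPolynomial (Fin n) ℚ) F'
  let ψ' : MvPolynomial (Fin n) ℤ →+* F' := a'.comp (psi B)
  have hψ' : Function.Injective ψ' :=
    (IsFractionRing.injective (MvPolynomial (Fin n) ℚ) F').comp (psi_injective A B hAB)
  let Ψ : FractionRing (MvPolynomial (Fin n) ℤ) →+* F' := IsFractionRing.lift hψ'
  have hΨ : ∀ P, Ψ (algebraMap _ (FractionRing (MvPolynomial (Fin n) ℤ)) P) = a' (psi B P) :=
    fun P => IsFractionRing.lift_algebraMap hψ' P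
  have hsupp : nonZeroDivisors (MvPolynomial (Fin n) ℚ) ≤ (mval ℚ r hr).supp.primeCompl := by
    intro P hP h0
    have h1 : mw r P = 0 := h0
    rw [mw_eq_zero hr] at h1
    exact nonZeroDivisors.ne_zero hP h1
  let W : Valuation F' NNReal := (mval ℚ r hr).extendToLocalization hsupp F'
  have hW : ∀ P, W (a' P) = mw r P := fun P => by
    exact (mval ℚ r hr).extendToLocalization_apply_map_apply hsupp F' P
  have hAdet : (AQ A).det ≠ 0 := by
    intro h0
    have h1 := congrArg Matrix.det hAB
    rw [Matrix.det_mul, h0, zero_mul, Matrix.det_one] at h1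
    exact zero_ne_one h1
  have hdet : ∀ k, W (Ψ ((Matrix.of fun i j => algebraMap _
      (FractionRing (MvPolynomial (Fin n) ℤ)) (pderiv i (p k j)) /
        algebraMap _ (FractionRing (MvPolynomial (Fin n) ℤ)) (p k j)).det)) ≤ ∏ i, (r i)⁻¹ := by
    intro k
    rw [RingHom.map_det]
    have h1 : Ψ.mapMatrix (Matrix.of fun i j => algebraMap _
      (FractionRing (MvPolynomial (Fin n) ℤ)) (pderiv i (p k j)) /
        algebraMap _ (FractionRing (MvPolynomial (Fin n) ℤ)) (p k j)) =
        ((AQ A).transpose.map fun c => a' (C c)) *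
          Matrix.of fun l j => a' (pderiv l (psi B (p k j))) / a' (psi B (p k j)) := by
      ext i j
      rw [RingHom.mapMatrix_apply, Matrix.map_apply, Matrix.of_apply, map_div₀, hΨ, hΨ,
        psi_pderiv A B hAB, Matrix.mul_apply, map_sum, Finset.sum_div]
      refine Finset.sum_congr rfl fun l _ => ?_
      rw [map_mul, mul_div_assoc]
      rfl
    rw [h1, Matrix.det_mul, map_mul]
    have h2 : W (((AQ A).transpose.map fun c => a' (C c)).det) = 1 := by
      have h3 : ((AQ A).transpose.map fun c => a' (C c)) =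
          (a'.comp (C : ℚ →+* MvPolynomial (Fin n) ℚ)).mapMatrix (AQ A).transpose := rfl
      rw [h3, ← RingHom.map_det, Matrix.det_transpose, RingHom.comp_apply, hW, mw_C r hAdet]
    rw [h2, one_mul]
    refine val_det W _ _ fun l j => ?_
    rw [Matrix.of_apply, map_div₀, hW, hW]
    have h3 : mw r (psi B (p k j)) ≠ 0 := hp k j
    have h4 := mw_pderiv hr (psi B (p k j)) l
    rw [div_le_iff₀ (pos_iff_ne_zero.2 h3), inv_mul_eq_div, le_div_iff₀ (hr l)]
    exact h4
  have hsum := congrArg (fun y => W (Ψ y)) hid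
  simp only [map_sum, map_mul, map_one] at hsum
  have hle : (1 : NNReal) ≤ r' * ∏ i, (r i)⁻¹ := by
    rw [← hsum]
    refine W.map_sum_le fun k _ => ?_
    rw [map_mul]
    refine mul_le_mul' ?_ (hdet k)
    rw [map_div₀, map_div₀, hΨ, hΨ, hW, hW]
    have h3 : mw r (psi B q) ≠ 0 := hq
    rw [div_le_iff₀ (pos_iff_ne_zero.2 h3)]
    exact hh k
  rw [Finset.prod_inv_distrib] at hle
  have hpos : 0 < ∏ i, r i := Finset.prod_pos fun i _ => hr i
  rw [← div_eq_mul_inv, le_div_iff₀ hpos, one_mul] at hle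
  exact hle

end

end Pool.Agent.Q13.MA
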