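import Mathlib

/-!
# Arrangements of hyperplanes: bases adapted to weights and to flags
-/

set_option autoImplicit false
set_option linter.unusedSectionVars false
set_option linter.unusedVariables false

namespace Pool.Agent.Q13.MA

open Module

section

variable {K E ι : Type*} [Field K] [AddCommGroup E] [Module K E]

/-- the greedy algorithm -/
lemma greedy (v : ι → E) (c : ι → ℝ) (s : Finset ι) :
    ∃ B : Finset ι, B ⊆ s ∧ LinearIndepOn K v (B : Set ι) ∧
      ∀ i ∈ s, v i ∈ Submodule.span K (v '' {j | j ∈ B ∧ c i ≤ c j}) := by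
  classical
  induction s using Finset.induction_on_min_value c with
  | empty => exact ⟨∅, Finset.Subset.refl _, by simp, fun i hi => absurd hi (Finset.notMem_empty i)⟩
  | insert a s ha hmin ih =>
    obtain ⟨B, hB, hli, hsp⟩ := ih
    by_cases h : v a ∈ Submodule.span K (v '' (B : Set ι))
    · refine ⟨B, hB.trans (Finset.subset_insert a s), hli, fun i hi => ?_⟩
      rcases Finset.mem_insert.1 hi with rfl | hi
      · refine Submodule.span_mono (Set.image_mono ?_) h
        intro j hj
        exact ⟨hj, hmin j (hB hj)⟩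
      · exact hsp i hi
    · refine ⟨insert a B, Finset.insert_subset_insert a hB, ?_, fun i hi => ?_⟩
      · rw [Finset.coe_insert]
        exact hli.insert h
      · rcases Finset.mem_insert.1 hi with rfl | hi
        · exact Submodule.subset_span ⟨i, ⟨Finset.mem_insert_self _ _, le_refl _⟩, rfl⟩
        · refine Submodule.span_mono (Set.image_mono ?_) (hsp i hi)
          intro j hj
          exact ⟨Finset.mem_insert_of_mem hj.1, hj.2⟩

/-- a basis chosen greedily from a spanning family -/
lemma greedy_basis [FiniteDimensional K E] [Fintype ι] (v : ι → E) (c : ι → ℝ)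
    (hv : Submodule.span K (Set.range v) = ⊤) :
    ∃ J : Fin (finrank K E) → ι, LinearIndependent K (fun j => v (J j)) ∧
      ∀ i, v i ∈ Submodule.span K ((fun j => v (J j)) '' {j | c i ≤ c (J j)}) := by
  classical
  obtain ⟨B, _, hli, hsp⟩ := greedy (K := K) v c Finset.univ
  have htop : Submodule.span K (v '' (B : Set ι)) = ⊤ := by
    rw [eq_top_iff, ← hv, Submodule.span_le]
    rintro _ ⟨i, rfl⟩
    refine Submodule.span_mono (Set.image_mono ?_) (hsp i (Finset.mem_univ i))
    intro j hj
    exact hj.1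
  have hcard : B.card = finrank K E := by
    have hli' : LinearIndependent K (fun b : (B : Set ι) => v b) := hli
    have h1 : Submodule.span K (Set.range fun b : (B : Set ι) => v b) = ⊤ := by
      rw [← htop]
      congr 1
      ext e
      simp
    have h2 := finrank_span_eq_card hli'
    rw [h1, finrank_top] at h2
    rw [h2]
    simp
  let e : Fin (finrank K E) ≃ B := (finCongr hcard.symm).trans B.equivFin.symm
  refine ⟨fun j => (e j : ι), ?_, fun i => ?_⟩
  · have hli' : LinearIndependent K (fun b : (B : Set ι) => v b) := hli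
    exact hli'.comp (fun j => (⟨(e j : ι), (e j).2⟩ : (B : Set ι))) (fun j k h => by
      apply e.injective
      exact Subtype.ext (congrArg (fun b : (B : Set ι) => (b : ι)) h))
  · refine Submodule.span_mono ?_ (hsp i (Finset.mem_univ i))
    rintro _ ⟨j, ⟨hj, hc⟩, rfl⟩
    refine ⟨e.symm ⟨j, hj⟩, ?_, ?_⟩
    · simp only [Set.mem_ofPred_eq, Equiv.apply_symm_apply]
      exact hc
    · simp only [Equiv.apply_symm_apply]

/-- a basis of `D 0` modulo `D (M + 1)`, adapted to a flag -/
lemma flag_basis [FiniteDimensional K E] (D : ℕ → Submodule K E) (hD : Antitone D) (M m : ℕ)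
    (hm : finrank K (D 0) = finrank K (D (M + 1)) + m) :
    ∃ (g : Fin m → E) (κ : Fin m → ℕ), (∀ i, κ i ≤ M ∧ g i ∈ D (κ i)) ∧
      (∀ c : Fin m → K, ∑ i, c i • g i ∈ D (M + 1) → ∀ i, c i = 0) ∧
      (∀ e ∈ D 0, ∃ c : Fin m → K, e - ∑ i, c i • g i ∈ D (M + 1)) ∧
      ∑ k ∈ Finset.Icc 1 M, finrank K (D k) ≤ M * finrank K (D (M + 1)) + ∑ i, κ i := by
  classical
  let ι : Type := (k : Fin (M + 2)) × Fin (finrank K (D k))
  let v : ι → E := fun x => (finBasis K (D x.1) x.2 : E)
  let lv : ι → ℕ := fun x => x.1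
  obtain ⟨B, _, hli, hsp⟩ := greedy (K := K) v (fun x => (lv x : ℝ)) Finset.univ
  have hlvM : ∀ x, lv x ≤ M + 1 := fun x => Nat.lt_succ_iff.1 x.1.2
  have hmem : ∀ x, v x ∈ D (lv x) := fun x => (finBasis K (D x.1) x.2).2
  -- the spans
  have hspan : ∀ k ≤ M + 1, Submodule.span K (v '' {j | j ∈ B ∧ k ≤ lv j}) = D k := by
    intro k hk
    apply le_antisymm
    · rw [Submodule.span_le]
      rintro _ ⟨j, ⟨_, hj⟩, rfl⟩
      exact hD hj (hmem j)
    · intro e he
      have h1 := (finBasis K (D k)).sum_repr ⟨e, he⟩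
      have h2 := congrArg (Submodule.subtype (D k)) h1
      rw [map_sum] at h2
      simp only [map_smul, Submodule.subtype_apply] at h2
      rw [← h2]
      refine Submodule.sum_mem _ fun i _ => Submodule.smul_mem _ _ ?_
      have h3 := hsp (⟨⟨k, by omega⟩, i⟩ : ι) (Finset.mem_univ _)
      refine Submodule.span_mono (Set.image_mono ?_) h3
      rintro j ⟨hj, hj2⟩
      refine ⟨hj, ?_⟩
      have h4 : ((k : ℕ) : ℝ) ≤ (lv j : ℝ) := hj2
      exact_mod_cast h4
  have hcard : ∀ k ≤ M + 1, (B.filter fun j => k ≤ lv j).card = finrank K (D k) := by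
    intro k hk
    have hli' : LinearIndependent K
        (fun b : ((B.filter fun j => k ≤ lv j : Finset ι) : Set ι) => v b) :=
      LinearIndepOn.mono hli (by
        intro j hj
        exact (Finset.mem_filter.1 hj).1)
    have h2 := finrank_span_eq_card hli'
    have h3 : Set.range (fun b : ((B.filter fun j => k ≤ lv j : Finset ι) : Set ι) => v b) =
        v '' {j | j ∈ B ∧ k ≤ lv j} := by
      ext e
      simp
    rw [h3, hspan k hk] at h2
    rw [h2]
    simp
  set B0 := B.filter fun j => lv j ≤ M with hB0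
  have hsplit : B0.card = m := by
    have h1 := hcard 0 (Nat.zero_le _)
    have h2 := hcard (M + 1) le_rfl
    have h3 : (B.filter fun j => 0 ≤ lv j) = B := Finset.filter_true_of_mem fun j _ => Nat.zero_le _
    rw [h3] at h1
    have h4 := Finset.card_filter_add_card_filter_not (s := B) (fun j => M + 1 ≤ lv j)
    have h5 : (B.filter fun j => ¬ M + 1 ≤ lv j) = B0 := by
      rw [hB0]
      refine Finset.filter_congr fun j _ => ?_
      omega
    rw [h5, h1, h2] at h4
    omega
  let e : Fin m ≃ B0 := (finCongr hsplit.symm).trans B0.equivFin.symm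
  have heB : ∀ i, (e i : ι) ∈ B := fun i => (Finset.mem_filter.1 (e i).2).1
  have heM : ∀ i, lv (e i) ≤ M := fun i => (Finset.mem_filter.1 (e i).2).2
  refine ⟨fun i => v (e i), fun i => lv (e i), fun i => ⟨heM i, hmem _⟩, ?_, ?_, ?_⟩
  · intro c hc i
    rw [← hspan (M + 1) le_rfl] at hc
    have h1 : ∑ i, c i • v (e i) ∈ Submodule.span K (v '' (B0 : Set ι)) := by
      refine Submodule.sum_mem _ fun i _ => Submodule.smul_mem _ _ ?_
      exact Submodule.subset_span ⟨_, (e i).2, rfl⟩
    have hdis : Disjoint (Submodule.span K (v '' (B0 : Set ι)))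
        (Submodule.span K (v '' {j | j ∈ B ∧ M + 1 ≤ lv j})) := by
      have h2 : LinearIndependent K (fun b : (B : Set ι) => v b) := hli
      have h3 := h2.disjoint_span_image (s := {b : (B : Set ι) | lv b ≤ M})
        (t := {b : (B : Set ι) | M + 1 ≤ lv b}) (by
          rw [Set.disjoint_left]
          intro b hb hb'
          simp only [Set.mem_ofPred_eq] at hb hb'
          omega)
      refine h3.mono (Submodule.span_mono ?_) (Submodule.span_mono ?_)
      · rintro _ ⟨j, hj, rfl⟩
        have hj' := Finset.mem_filter.1 (Finset.mem_coe.1 hj)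
        exact ⟨⟨j, hj'.1⟩, hj'.2, rfl⟩
      · rintro _ ⟨j, hj, rfl⟩
        exact ⟨⟨j, hj.1⟩, hj.2, rfl⟩
    have h2 : ∑ i, c i • v (e i) = 0 := Submodule.disjoint_def.1 hdis _ h1 hc
    have h3 : LinearIndependent K (fun i => v (e i)) := by
      have hli' : LinearIndependent K (fun b : (B : Set ι) => v b) := hli
      exact hli'.comp (fun i => (⟨(e i : ι), heB i⟩ : (B : Set ι))) (fun j k h => by
        apply e.injective
        exact Subtype.ext (congrArg (fun b : (B : Set ι) => (b : ι)) h))
    exact Fintype.linearIndependent_iff.1 h3 c h2 i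
  · intro x hx
    rw [← hspan 0 (Nat.zero_le _)] at hx
    have h1 : (v '' {j | j ∈ B ∧ 0 ≤ lv j}) ⊆
        (v '' (B0 : Set ι)) ∪ (v '' {j | j ∈ B ∧ M + 1 ≤ lv j}) := by
      rintro _ ⟨j, ⟨hj, _⟩, rfl⟩
      by_cases h : lv j ≤ M
      · exact Or.inl ⟨j, Finset.mem_coe.2 (Finset.mem_filter.2 ⟨hj, h⟩), rfl⟩
      · exact Or.inr ⟨j, ⟨hj, by omega⟩, rfl⟩
    have h2 := Submodule.span_mono h1 hx
    rw [Submodule.span_union, Submodule.mem_sup] at h2
    obtain ⟨y, hy, z, hz, hyz⟩ := h2
    have h3 : v '' (B0 : Set ι) = Set.range (fun i => v (e i)) := by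
      ext w
      constructor
      · rintro ⟨j, hj, rfl⟩
        exact ⟨e.symm ⟨j, hj⟩, by simp⟩
      · rintro ⟨i, rfl⟩
        exact ⟨_, (e i).2, rfl⟩
    rw [h3] at hy
    obtain ⟨c, hc⟩ := (Submodule.mem_span_range_iff_exists_fun K).1 hy
    refine ⟨c, ?_⟩
    rw [hc, ← hyz, add_sub_cancel_left, ← hspan (M + 1) le_rfl]
    exact hz
  · have h1 : ∀ k ∈ Finset.Icc 1 M, finrank K (D k) ≤ finrank K (D (M + 1)) +
        (Finset.univ.filter fun i => k ≤ lv (e i)).card := by
      intro k hk
      have hk' := Finset.mem_Icc.1 hk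
      rw [← hcard k (by omega), ← hcard (M + 1) le_rfl]
      have h2 := Finset.card_filter_add_card_filter_not
        (s := B.filter fun j => k ≤ lv j) (fun j => M + 1 ≤ lv j)
      have h3 : ((B.filter fun j => k ≤ lv j).filter fun j => M + 1 ≤ lv j) =
          B.filter fun j => M + 1 ≤ lv j := by
        rw [Finset.filter_filter]
        refine Finset.filter_congr fun j _ => ?_
        omega
      have h4 : ((B.filter fun j => k ≤ lv j).filter fun j => ¬ M + 1 ≤ lv j).card =
          (Finset.univ.filter fun i => k ≤ lv (e i)).card := by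
        symm
        refine Finset.card_bij (fun i _ => (e i : ι)) ?_ ?_ ?_
        · intro i hi
          refine Finset.mem_filter.2 ⟨Finset.mem_filter.2 ⟨heB i, (Finset.mem_filter.1 hi).2⟩, ?_⟩
          have := heM i
          omega
        · intro i _ j _ h
          exact e.injective (Subtype.ext h)
        · intro j hj
          obtain ⟨h5, h6⟩ := Finset.mem_filter.1 hj
          obtain ⟨h7, h8⟩ := Finset.mem_filter.1 h5
          refine ⟨e.symm ⟨j, Finset.mem_filter.2 ⟨h7, by omega⟩⟩,
            Finset.mem_filter.2 ⟨Finset.mem_univ _, ?_⟩, by simp⟩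
          simpa using h8
      rw [h3, h4] at h2
      omega
    have h2 : ∀ i, lv (e i) = ∑ k ∈ Finset.Icc 1 M, if k ≤ lv (e i) then 1 else 0 := by
      intro i
      rw [← Finset.sum_filter, Finset.sum_const, smul_eq_mul, mul_one]
      have h3 : (Finset.Icc 1 M).filter (fun k => k ≤ lv (e i)) = Finset.Icc 1 (lv (e i)) := by
        ext k
        simp only [Finset.mem_filter, Finset.mem_Icc]
        have := heM i
        omega
      rw [h3, Nat.card_Icc]
      omega
    calc ∑ k ∈ Finset.Icc 1 M, finrank K (D k) ≤ ∑ k ∈ Finset.Icc 1 M,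
          (finrank K (D (M + 1)) + (Finset.univ.filter fun i => k ≤ lv (e i)).card) :=
          Finset.sum_le_sum h1
      _ = M * finrank K (D (M + 1)) + ∑ k ∈ Finset.Icc 1 M,
          (Finset.univ.filter fun i => k ≤ lv (e i)).card := by
          rw [Finset.sum_add_distrib, Finset.sum_const, Nat.card_Icc, smul_eq_mul]
          simp
      _ = M * finrank K (D (M + 1)) + ∑ i, lv (e i) := by
          congr 1
          rw [Finset.sum_congr rfl fun i _ => h2 i, Finset.sum_comm]
          refine Finset.sum_congr rfl fun k _ => ?_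
          rw [Finset.card_filter]
      _ ≤ _ := le_rfl

end

end Pool.Agent.Q13.MA
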