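import Mathlib

/-!
# Arrangements of hyperplanes: the potential and the finite set of exceptional subspaces
-/

set_option autoImplicit false
set_option linter.unusedSectionVars false
set_option linter.unusedVariables false

namespace Pool.Agent.Q13.MA

open Module

section

variable {n q : ℕ}

/-- the common zeros of the functionals in `T` -/
noncomputable def AA (Λ : Fin q → Dual ℚ (Fin n → ℚ)) (T : Finset (Fin q)) :
    Submodule ℚ (Fin n → ℚ) :=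
  (Submodule.span ℚ (Λ '' (T : Set (Fin q)))).dualCoannihilator

/-- the rank of the restrictions of the functionals in `T` to `U` -/
noncomputable def rk (Λ : Fin q → Dual ℚ (Fin n → ℚ)) (T : Finset (Fin q))
    (U : Submodule ℚ (Fin n → ℚ)) : ℝ :=
  (finrank ℚ U : ℝ) - finrank ℚ (U ⊓ AA Λ T : Submodule ℚ (Fin n → ℚ))

/-- the potential -/
noncomputable def pot (Λ : Fin q → Dual ℚ (Fin n → ℚ)) (a : Finset (Fin q) → ℝ)
    (U : Submodule ℚ (Fin n → ℚ)) : ℝ :=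
  ∑ T, a T * rk Λ T U - finrank ℚ U

lemma rk_submod (Λ : Fin q → Dual ℚ (Fin n → ℚ)) (T : Finset (Fin q))
    (U W : Submodule ℚ (Fin n → ℚ)) : rk Λ T (U ⊔ W) + rk Λ T (U ⊓ W) ≤ rk Λ T U + rk Λ T W := by
  have h1 := Submodule.finrank_sup_add_finrank_inf_eq U W
  have h2 := Submodule.finrank_sup_add_finrank_inf_eq (U ⊓ AA Λ T) (W ⊓ AA Λ T)
  have h3 : (U ⊓ AA Λ T) ⊔ (W ⊓ AA Λ T) ≤ (U ⊔ W) ⊓ AA Λ T :=
    sup_le (inf_le_inf_right _ le_sup_left) (inf_le_inf_right _ le_sup_right)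
  have h4 : (U ⊓ AA Λ T) ⊓ (W ⊓ AA Λ T) = (U ⊓ W) ⊓ AA Λ T := by
    rw [inf_inf_inf_comm, inf_idem]
  have h5 := Submodule.finrank_mono h3
  rw [h4] at h2
  unfold rk
  have h1' : ((finrank ℚ (U ⊔ W : Submodule ℚ (Fin n → ℚ)) : ℕ) : ℝ) +
      (finrank ℚ (U ⊓ W : Submodule ℚ (Fin n → ℚ)) : ℕ) =
      (finrank ℚ U : ℕ) + (finrank ℚ W : ℕ) := by exact_mod_cast h1
  have h2' : ((finrank ℚ ((U ⊓ AA Λ T) ⊔ (W ⊓ AA Λ T) : Submodule ℚ (Fin n → ℚ)) : ℕ) : ℝ) +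
      (finrank ℚ ((U ⊓ W) ⊓ AA Λ T : Submodule ℚ (Fin n → ℚ)) : ℕ) =
      (finrank ℚ (U ⊓ AA Λ T : Submodule ℚ (Fin n → ℚ)) : ℕ) +
        (finrank ℚ (W ⊓ AA Λ T : Submodule ℚ (Fin n → ℚ)) : ℕ) := by exact_mod_cast h2
  have h5' : ((finrank ℚ ((U ⊓ AA Λ T) ⊔ (W ⊓ AA Λ T) : Submodule ℚ (Fin n → ℚ)) : ℕ) : ℝ) ≤
      (finrank ℚ ((U ⊔ W) ⊓ AA Λ T : Submodule ℚ (Fin n → ℚ)) : ℕ) := by exact_mod_cast h5
  linarith

lemma pot_submod (Λ : Fin q → Dual ℚ (Fin n → ℚ)) (a : Finset (Fin q) → ℝ) (ha : ∀ T, 0 ≤ a T)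
    (U W : Submodule ℚ (Fin n → ℚ)) :
    pot Λ a (U ⊔ W) + pot Λ a (U ⊓ W) ≤ pot Λ a U + pot Λ a W := by
  have h1 := Submodule.finrank_sup_add_finrank_inf_eq U W
  have h1' : ((finrank ℚ (U ⊔ W : Submodule ℚ (Fin n → ℚ)) : ℕ) : ℝ) +
      (finrank ℚ (U ⊓ W : Submodule ℚ (Fin n → ℚ)) : ℕ) =
      (finrank ℚ U : ℕ) + (finrank ℚ W : ℕ) := by exact_mod_cast h1
  have h2 : ∑ T, a T * rk Λ T (U ⊔ W) + ∑ T, a T * rk Λ T (U ⊓ W) ≤
      ∑ T, a T * rk Λ T U + ∑ T, a T * rk Λ T W := by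
    rw [← Finset.sum_add_distrib, ← Finset.sum_add_distrib]
    refine Finset.sum_le_sum fun T _ => ?_
    rw [← mul_add, ← mul_add]
    exact mul_le_mul_of_nonneg_left (rk_submod Λ T U W) (ha T)
  unfold pot
  linarith

/-- `W` is the largest subspace with the smallest potential -/
def IsTop (Λ : Fin q → Dual ℚ (Fin n → ℚ)) (a : Finset (Fin q) → ℝ)
    (W : Submodule ℚ (Fin n → ℚ)) : Prop :=
  (∀ U, pot Λ a W ≤ pot Λ a U) ∧ ∀ U, (∀ U', pot Λ a U ≤ pot Λ a U') → U ≤ W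

/-- the dimensions -/
noncomputable def dims (Λ : Fin q → Dual ℚ (Fin n → ℚ)) (U : Submodule ℚ (Fin n → ℚ)) :
    Fin (n + 1) × (Finset (Fin q) → Fin (n + 1)) :=
  (⟨finrank ℚ U, by
    have := Submodule.finrank_le U
    rw [finrank_fin_fun] at this
    omega⟩, fun T => ⟨finrank ℚ (U ⊓ AA Λ T : Submodule ℚ (Fin n → ℚ)), by
    have := Submodule.finrank_le (U ⊓ AA Λ T : Submodule ℚ (Fin n → ℚ))
    rw [finrank_fin_fun] at this
    omega⟩)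

lemma pot_eq_of_dims (Λ : Fin q → Dual ℚ (Fin n → ℚ)) (a : Finset (Fin q) → ℝ)
    {U W : Submodule ℚ (Fin n → ℚ)} (h : dims Λ U = dims Λ W) : pot Λ a U = pot Λ a W := by
  have h1 : finrank ℚ U = finrank ℚ W := by
    have := congrArg (fun y => (y.1 : ℕ)) h
    exact this
  have h2 : ∀ T, finrank ℚ (U ⊓ AA Λ T : Submodule ℚ (Fin n → ℚ)) =
      finrank ℚ (W ⊓ AA Λ T : Submodule ℚ (Fin n → ℚ)) := by
    intro T
    have := congrArg (fun y => (y.2 T : ℕ)) h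
    exact this
  unfold pot rk
  rw [h1]
  congr 1
  refine Finset.sum_congr rfl fun T _ => ?_
  rw [h2]

lemma exists_min (Λ : Fin q → Dual ℚ (Fin n → ℚ)) (a : Finset (Fin q) → ℝ) :
    ∃ W, ∀ U, pot Λ a W ≤ pot Λ a U := by
  classical
  obtain ⟨y, hy⟩ := Finite.exists_min
    (fun y : Set.range (dims Λ) => pot Λ a y.2.choose)
  refine ⟨y.2.choose, fun U => ?_⟩
  refine (hy ⟨dims Λ U, ⟨U, rfl⟩⟩).trans (le_of_eq ?_)
  refine pot_eq_of_dims Λ a ?_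
  exact (⟨dims Λ U, ⟨U, rfl⟩⟩ : Set.range (dims Λ)).2.choose_spec

lemma exists_top (Λ : Fin q → Dual ℚ (Fin n → ℚ)) (a : Finset (Fin q) → ℝ)
    (ha : ∀ T, 0 ≤ a T) : ∃ W, IsTop Λ a W := by
  obtain ⟨W0, hW0⟩ := exists_min Λ a
  obtain ⟨W, hW, hmax⟩ := (wellFounded_gt (α := Submodule ℚ (Fin n → ℚ))).has_min
    {W | ∀ U, pot Λ a W ≤ pot Λ a U} ⟨W0, hW0⟩
  refine ⟨W, hW, fun U hU => ?_⟩
  have h1 : (U ⊔ W) ∈ {W | ∀ U, pot Λ a W ≤ pot Λ a U} := by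
    intro U'
    have h2 := pot_submod Λ a ha U W
    have h3 := hU (U ⊓ W)
    have h4 := hW U'
    linarith
  have h2 := hmax _ h1
  by_contra hcon
  exact h2 (lt_of_le_of_ne le_sup_right fun h => hcon (by rw [h]; exact le_sup_left))

/-- a subspace which has the smallest potential among its subspaces is in the top -/
lemma le_top_of_sub (Λ : Fin q → Dual ℚ (Fin n → ℚ)) (a : Finset (Fin q) → ℝ)
    (ha : ∀ T, 0 ≤ a T) {U W : Submodule ℚ (Fin n → ℚ)} (hW : IsTop Λ a W)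
    (hU : ∀ U' ≤ U, pot Λ a U ≤ pot Λ a U') : U ≤ W := by
  have h2 := pot_submod Λ a ha U W
  have h3 := hU (U ⊓ W) inf_le_left
  refine le_sup_left.trans (hW.2 (U ⊔ W) fun U' => ?_)
  have h4 := hW.1 U'
  linarith

/-- the exceptional subspaces -/
def exc (Λ : Fin q → Dual ℚ (Fin n → ℚ)) : Set (Submodule ℚ (Fin n → ℚ)) :=
  {W | W ≠ ⊤ ∧ ∃ a : Finset (Fin q) → ℝ, (∀ T, 0 ≤ a T) ∧ IsTop Λ a W}

lemma exc_finite (Λ : Fin q → Dual ℚ (Fin n → ℚ)) : (exc Λ).Finite := by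
  refine Set.Finite.of_finite_image (f := dims Λ) (Set.toFinite _) ?_
  rintro W ⟨_, a, ha, hW⟩ W' ⟨_, a', ha', hW'⟩ h
  apply le_antisymm
  · refine hW'.2 W fun U' => ?_
    rw [pot_eq_of_dims Λ a' h]
    exact hW'.1 U'
  · refine hW.2 W' fun U' => ?_
    rw [pot_eq_of_dims Λ a h.symm]
    exact hW.1 U'

lemma pot_bot (Λ : Fin q → Dual ℚ (Fin n → ℚ)) (a : Finset (Fin q) → ℝ) : pot Λ a ⊥ = 0 := by
  unfold pot rk
  have h : ∀ T, finrank ℚ ((⊥ : Submodule ℚ (Fin n → ℚ)) ⊓ AA Λ T :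
      Submodule ℚ (Fin n → ℚ)) = 0 := by
    intro T
    have h1 : ((⊥ : Submodule ℚ (Fin n → ℚ)) ⊓ AA Λ T) = ⊥ := bot_inf_eq _
    rw [h1, finrank_bot]
  rw [finrank_bot, Finset.sum_eq_zero fun T _ => by rw [h]; simp]
  simp

end

end Pool.Agent.Q13.MA
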