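import Mathlib
import Pool.Agent.Y724.Vj.Fix2
import Pool.Agent.Q13.MA.Greedy
import Pool.Agent.Q13.MA.Pot

/-!
# Arrangements of hyperplanes: the refined subspace theorem for sequences of points
-/

set_option autoImplicit false
set_option linter.unusedSectionVars false
set_option linter.unusedVariables false

namespace Pool.Agent.Q13.MA

open Module Filter Topology Pool.Agent.TH932.Germs Pool.Agent.TH551.SU Pool.Agent.Y724.Vj

section

variable {n q s : ℕ} {b : Fin s → ℕ} {L : ℕ → ℝ}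

/-- the points of a sequence as vectors -/
def xv (x : Fin n → ℕ → ℤ) (t : ℕ) : Fin n → ℚ := fun j => (x j t : ℚ)

/-- the germ of the values of a functional -/
noncomputable def ge (x : Fin n → ℕ → ℤ) (g : Dual ℚ (Fin n → ℚ)) : GG := gm fun t => g (xv x t)

lemma ge_add (x : Fin n → ℕ → ℤ) (g h : Dual ℚ (Fin n → ℚ)) :
    ge x (g + h) = ge x g + ge x h := rfl

lemma ge_smul (x : Fin n → ℕ → ℤ) (c : ℚ) (g : Dual ℚ (Fin n → ℚ)) :
    ge x (c • g) = gm (fun _ => c) * ge x g := rfl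

lemma ge_zero (x : Fin n → ℕ → ℤ) : ge x 0 = 0 := rfl

lemma ge_sum {ι : Type*} (x : Fin n → ℕ → ℤ) (S : Finset ι) (c : ι → ℚ)
    (g : ι → Dual ℚ (Fin n → ℚ)) :
    ge x (∑ i ∈ S, c i • g i) = ∑ i ∈ S, gm (fun _ => c i) * ge x (g i) := by
  classical
  induction S using Finset.induction_on with
  | empty => simp [ge_zero]
  | insert a S ha ih => rw [Finset.sum_insert ha, Finset.sum_insert ha, ge_add, ge_smul, ih]

lemma gm_int (c : ℤ) : gm (fun _ => (c : ℚ)) = (c : GG) := rfl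

lemma ge_zsum {ι : Type*} (x : Fin n → ℕ → ℤ) (S : Finset ι) (c : ι → ℤ)
    (g : ι → Dual ℚ (Fin n → ℚ)) :
    ge x (∑ i ∈ S, (c i : ℚ) • g i) = ∑ i ∈ S, (c i : GG) * ge x (g i) := by
  rw [ge_sum]
  rfl

lemma gm_rat_mem (hL : Tendsto L atTop atTop) (c : ℚ) : gm (fun _ => c) ∈ KK L hL := by
  have h1 : gm (fun _ => c) = gm (fun _ => (c.num : ℚ)) / gm (fun _ => (c.den : ℚ)) := by
    rw [gm_div]
    congr 1
    funext t
    exact (Rat.num_div_den c).symm
  rw [h1]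
  refine div_mem ?_ ?_
  · exact intCast_mem (KK L hL) c.num
  · exact natCast_mem (KK L hL) c.den

lemma SS_gm_mul (hL : Tendsto L atTop atTop) (hb : ∀ v, (b v).Prime) (v : Option (Fin s)) (c : ℚ)
    {g : GG} {t : ℝ} (hg : g ∈ SS L (Rw (wv b hb v)) t) :
    gm (fun _ => c) * g ∈ SS L (Rw (wv b hb v)) t := by
  have h1 := (filt_w hL b hb v).alg_mem ⟨_, gm_rat_mem hL c⟩
  have h2 := (filt_w hL b hb v).mul_mem h1 hg
  rw [zero_add] at h2
  exact h2

lemma SS_sum (hL : Tendsto L atTop atTop) (hb : ∀ v, (b v).Prime) (v : Option (Fin s))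
    {ι : Type*} (S : Finset ι) (g : ι → GG) {t : ℝ}
    (hg : ∀ i ∈ S, g i ∈ SS L (Rw (wv b hb v)) t) :
    ∑ i ∈ S, g i ∈ SS L (Rw (wv b hb v)) t :=
  Finset.sum_induction g (fun g => g ∈ SS L (Rw (wv b hb v)) t)
    (fun _ _ => (filt_w hL b hb v).add_mem) ((filt_w hL b hb v).zero_mem t) hg

/-- functionals in a span -/
lemma ge_mem_span (hL : Tendsto L atTop atTop) (hb : ∀ v, (b v).Prime) (v : Option (Fin s))
    (x : Fin n → ℕ → ℤ) (T : Set (Dual ℚ (Fin n → ℚ))) {t : ℝ}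
    (hT : ∀ g ∈ T, ge x g ∈ SS L (Rw (wv b hb v)) t) (g : Dual ℚ (Fin n → ℚ))
    (hg : g ∈ Submodule.span ℚ T) : ge x g ∈ SS L (Rw (wv b hb v)) t := by
  induction hg using Submodule.span_induction with
  | mem g hg => exact hT g hg
  | zero => rw [ge_zero]; exact (filt_w hL b hb v).zero_mem t
  | add g h _ _ h1 h2 => rw [ge_add]; exact (filt_w hL b hb v).add_mem h1 h2
  | smul c g _ h1 => rw [ge_smul]; exact SS_gm_mul hL hb v c h1

lemma dual_eq_sum (g : Dual ℚ (Fin n → ℚ)) :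
    g = ∑ j, g (Pi.single j 1) • (LinearMap.proj j : Dual ℚ (Fin n → ℚ)) := by
  apply LinearMap.ext
  intro y
  rw [LinearMap.sum_apply]
  conv_lhs => rw [← Finset.univ_sum_single y, map_sum]
  refine Finset.sum_congr rfl fun j _ => ?_
  rw [LinearMap.smul_apply, LinearMap.proj_apply, smul_eq_mul]
  have h1 : (Pi.single j (y j) : Fin n → ℚ) = y j • Pi.single j 1 := by
    rw [← Pi.single_smul, smul_eq_mul, mul_one]
  rw [h1, map_smul, smul_eq_mul, mul_comm]

lemma sg_ge (hL : Tendsto L atTop atTop) {β : ℕ} (x : Fin n → ℕ → ℤ)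
    (g : Dual ℚ (Fin n → ℚ)) : Sg L β (ge x g) := by
  rw [dual_eq_sum g, ge_sum]
  refine Sg.sum hL _ _ fun j _ => Sg.mul (Sg.KK hL (gm_rat_mem hL _)) ?_
  exact Sg.int hL _

/-- the smallest subspace which contains almost all points -/
lemma exists_least (x : Fin n → ℕ → ℤ) : ∃ U : Submodule ℚ (Fin n → ℚ),
    (∀ᶠ t in (UU : Filter ℕ), xv x t ∈ U) ∧
      ∀ W : Submodule ℚ (Fin n → ℚ), (∀ᶠ t in (UU : Filter ℕ), xv x t ∈ W) → U ≤ W := by
  obtain ⟨U, hU, hmin⟩ := (wellFounded_lt (α := Submodule ℚ (Fin n → ℚ))).has_min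
    {W | ∀ᶠ t in (UU : Filter ℕ), xv x t ∈ W} ⟨⊤, Eventually.of_forall fun t => trivial⟩
  refine ⟨U, hU, fun W hW => ?_⟩
  have h1 : (U ⊓ W) ∈ {W : Submodule ℚ (Fin n → ℚ) | ∀ᶠ t in (UU : Filter ℕ), xv x t ∈ W} := by
    filter_upwards [hU, hW] with t h1 h2
    exact ⟨h1, h2⟩
  have h2 := hmin _ h1
  by_contra hcon
  exact h2 (lt_of_le_of_ne inf_le_left fun h => hcon (by rw [← h]; exact inf_le_right))

/-- `1` at the real place -/
def sg : Option (Fin s) → ℝ
  | none => 1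
  | some _ => 0

lemma sum_sg : ∑ v : Option (Fin s), sg v = 1 := by
  rw [Fintype.sum_option]
  simp [sg]

/-- **the inequality for the smallest subspace** -/
theorem main_ineq (hb : ∀ v, (b v).Prime) (hbi : Function.Injective b)
    (hL : Tendsto L atTop atTop) (x : Fin n → ℕ → ℤ) (U : Submodule ℚ (Fin n → ℚ))
    (hU : ∀ᶠ t in (UU : Filter ℕ), xv x t ∈ U)
    (hmin : ∀ W : Submodule ℚ (Fin n → ℚ), (∀ᶠ t in (UU : Filter ℕ), xv x t ∈ W) → U ≤ W)
    (N : ℕ) (δ : ℝ) (hδ : 0 < δ)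
    (F : Option (Fin s) → ℕ → Submodule ℚ (Dual ℚ (Fin n → ℚ))) (hF : ∀ v, Antitone (F v))
    (hF0 : ∀ v, F v 0 = ⊤) (hF1 : ∀ v, F v (N + 1) = ⊥)
    (hFs : ∀ v, ∀ k ≤ N, ∀ g ∈ F v k, ge x g ∈ SS L (Rw (wv b hb v)) (k * δ - sg v))
    (U' : Submodule ℚ (Fin n → ℚ)) (hU' : U' ≤ U) :
    ∑ v, ∑ k ∈ Finset.Icc 1 N, δ *
      (((finrank ℚ U : ℝ) - finrank ℚ (U ⊓ (F v k).dualCoannihilator : Submodule ℚ (Fin n → ℚ))) -
        ((finrank ℚ U' : ℝ) -
          finrank ℚ (U' ⊓ (F v k).dualCoannihilator : Submodule ℚ (Fin n → ℚ)))) ≤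
      (finrank ℚ U : ℝ) - finrank ℚ U' := by
  classical
  have hUle : finrank ℚ U ≤ n := by
    have := Submodule.finrank_le U
    rwa [finrank_fin_fun] at this
  have hU'le : finrank ℚ U' ≤ finrank ℚ U := Submodule.finrank_mono hU'
  obtain ⟨m, hm⟩ : ∃ m, finrank ℚ U = finrank ℚ U' + m := ⟨_, (Nat.add_sub_cancel' hU'le).symm⟩
  have hann : ∀ W : Submodule ℚ (Fin n → ℚ), finrank ℚ W + finrank ℚ W.dualAnnihilator = n := by
    intro W
    have := Subspace.finrank_add_finrank_dualAnnihilator_eq W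
    rwa [finrank_fin_fun] at this
  let D : Option (Fin s) → ℕ → Submodule ℚ (Dual ℚ (Fin n → ℚ)) := fun v k =>
    U'.dualAnnihilator ⊓ (U.dualAnnihilator ⊔ F v k)
  have hD : ∀ v, Antitone (D v) := fun v j k h =>
    inf_le_inf_left _ (sup_le_sup_left (hF v h) _)
  have hD0 : ∀ v, D v 0 = U'.dualAnnihilator := by
    intro v
    show U'.dualAnnihilator ⊓ (U.dualAnnihilator ⊔ F v 0) = _
    rw [hF0, sup_top_eq, inf_top_eq]
  have hD1 : ∀ v, D v (N + 1) = U.dualAnnihilator := by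
    intro v
    show U'.dualAnnihilator ⊓ (U.dualAnnihilator ⊔ F v (N + 1)) = _
    rw [hF1, sup_bot_eq]
    exact inf_eq_right.2 (Submodule.dualAnnihilator_anti hU')
  have hDk : ∀ v k, D v k = (U' ⊔ (U ⊓ (F v k).dualCoannihilator)).dualAnnihilator := by
    intro v k
    rw [Submodule.dualAnnihilator_sup_eq, Subspace.dualAnnihilator_inf_eq,
      Subspace.dualCoannihilator_dualAnnihilator_eq]
  have hflag := fun v => flag_basis (D v) (hD v) N m (by
    rw [hD0, hD1]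
    have h1 := hann U
    have h2 := hann U'
    omega)
  choose g κ hκ hind hsp hsum using hflag
  -- the subspace theorem
  have key : ∑ v, ∑ i, ((κ v i : ℝ) * δ - sg v) ≤ 0 := by
    refine fixS b hb hbi L hL (Fin m) inferInstance (fun v i => ge x (g v i)) _ ?_ ?_ ?_ ?_
    · intro v c hc i
      have h1 : ge x (∑ i, (c i : ℚ) • g v i) = 0 := by
        rw [ge_zsum]
        exact hc
      have h2 : ∀ᶠ t in (UU : Filter ℕ), xv x t ∈
          LinearMap.ker (∑ i, (c i : ℚ) • g v i : Dual ℚ (Fin n → ℚ)) := by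
        rw [← gm_zero] at h1
        exact gm_eq.1 h1
      have h3 := hmin _ h2
      have h4 := hind v (fun i => (c i : ℚ)) (by
        rw [hD1, Submodule.mem_dualAnnihilator]
        intro w hw
        exact h3 hw) i
      exact_mod_cast h4
    · intro v i
      have h1 : g v i ∈ D none 0 := by
        rw [hD0, ← hD0 v]
        exact hD v (Nat.zero_le _) (hκ v i).2
      obtain ⟨c, hc⟩ := hsp none _ h1
      rw [hD1, Submodule.mem_dualAnnihilator] at hc
      have h2 : ge x (g v i) = ∑ j, gm (fun _ => c j) * ge x (g none j) := by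
        rw [← ge_sum]
        unfold ge
        rw [gm_eq]
        filter_upwards [hU] with t ht
        have h3 := hc _ ht
        rw [LinearMap.sub_apply, sub_eq_zero] at h3
        exact h3
      refine ⟨((∏ j, (c j).den : ℕ) : ℤ), ?_, fun j => (c j).num *
        ((∏ k ∈ Finset.univ.erase j, (c k).den : ℕ) : ℤ), ?_⟩
      · have : (∏ j, (c j).den) ≠ 0 := Finset.prod_ne_zero_iff.2 fun j _ => (c j).den_nz
        exact_mod_cast this
      · rw [h2, Finset.mul_sum]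
        refine Finset.sum_congr rfl fun j _ => ?_
        rw [← mul_assoc, ← gm_int, ← gm_int, gm_mul]
        congr 2
        funext t
        rw [← Finset.mul_prod_erase _ _ (Finset.mem_univ j)]
        push_cast
        have h5 := Rat.num_div_den (c j)
        have h6 : ((c j).den : ℚ) ≠ 0 := by exact_mod_cast (c j).den_nz
        rw [div_eq_iff h6] at h5
        rw [h5]
        ring
    · intro v i
      obtain ⟨h1, h2⟩ := hκ v i
      obtain ⟨g0, hg0, g1, hg1, hg⟩ := Submodule.mem_sup.1 h2.2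
      have h3 : ge x (g v i) = ge x g1 := by
        unfold ge
        rw [gm_eq]
        filter_upwards [hU] with t ht
        rw [← hg, LinearMap.add_apply, (Submodule.mem_dualAnnihilator _).1 hg0 _ ht, zero_add]
      rw [h3]
      exact hFs v _ h1 _ hg1
    · intro i
      exact sg_ge hL x _
  -- the dimensions
  have hdim : ∀ v k, (finrank ℚ (D v k) : ℝ) = n - finrank ℚ U' -
      finrank ℚ (U ⊓ (F v k).dualCoannihilator : Submodule ℚ (Fin n → ℚ)) +
      finrank ℚ (U' ⊓ (F v k).dualCoannihilator : Submodule ℚ (Fin n → ℚ)) := by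
    intro v k
    have h1 := hann (U' ⊔ (U ⊓ (F v k).dualCoannihilator))
    rw [← hDk] at h1
    have h2 := Submodule.finrank_sup_add_finrank_inf_eq U' (U ⊓ (F v k).dualCoannihilator)
    have h3 : U' ⊓ (U ⊓ (F v k).dualCoannihilator) = U' ⊓ (F v k).dualCoannihilator := by
      rw [← inf_assoc, inf_eq_left.2 hU']
    rw [h3] at h2
    have h1' : ((finrank ℚ (U' ⊔ (U ⊓ (F v k).dualCoannihilator) :
      Submodule ℚ (Fin n → ℚ)) : ℕ) : ℝ) + (finrank ℚ (D v k) : ℕ) = n := by exact_mod_cast h1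
    have h2' : ((finrank ℚ (U' ⊔ (U ⊓ (F v k).dualCoannihilator) :
      Submodule ℚ (Fin n → ℚ)) : ℕ) : ℝ) +
        (finrank ℚ (U' ⊓ (F v k).dualCoannihilator : Submodule ℚ (Fin n → ℚ)) : ℕ) =
      (finrank ℚ U' : ℕ) +
        (finrank ℚ (U ⊓ (F v k).dualCoannihilator : Submodule ℚ (Fin n → ℚ)) : ℕ) := by
      exact_mod_cast h2
    linarith
  have hdim1 : ∀ v, (finrank ℚ (D v (N + 1)) : ℝ) = n - finrank ℚ U := by
    intro v
    have h1 := hann U
    rw [hD1]
    have h1' : ((finrank ℚ U : ℕ) : ℝ) + (finrank ℚ U.dualAnnihilator : ℕ) = n := by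
      exact_mod_cast h1
    linarith
  have hS : ∀ v, ∑ k ∈ Finset.Icc 1 N,
      (((finrank ℚ U : ℝ) - finrank ℚ (U ⊓ (F v k).dualCoannihilator : Submodule ℚ (Fin n → ℚ))) -
        ((finrank ℚ U' : ℝ) -
          finrank ℚ (U' ⊓ (F v k).dualCoannihilator : Submodule ℚ (Fin n → ℚ)))) ≤
      ∑ i, (κ v i : ℝ) := by
    intro v
    have h1 : ((∑ k ∈ Finset.Icc 1 N, finrank ℚ (D v k) : ℕ) : ℝ) ≤
        ((N * finrank ℚ (D v (N + 1)) + ∑ i, κ v i : ℕ) : ℝ) := by exact_mod_cast hsum v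
    push_cast at h1
    rw [hdim1] at h1
    have h2 : ∑ k ∈ Finset.Icc 1 N, (finrank ℚ (D v k) : ℝ) - N * ((n : ℝ) - finrank ℚ U) =
        ∑ k ∈ Finset.Icc 1 N, ((finrank ℚ (D v k) : ℝ) - ((n : ℝ) - finrank ℚ U)) := by
      rw [Finset.sum_sub_distrib, Finset.sum_const, Nat.card_Icc, nsmul_eq_mul]
      simp
    have h3 : ∑ k ∈ Finset.Icc 1 N, ((finrank ℚ (D v k) : ℝ) - ((n : ℝ) - finrank ℚ U)) =
      ∑ k ∈ Finset.Icc 1 N,
      (((finrank ℚ U : ℝ) - finrank ℚ (U ⊓ (F v k).dualCoannihilator : Submodule ℚ (Fin n → ℚ))) -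
        ((finrank ℚ U' : ℝ) -
          finrank ℚ (U' ⊓ (F v k).dualCoannihilator : Submodule ℚ (Fin n → ℚ)))) := by
      refine Finset.sum_congr rfl fun k _ => ?_
      rw [hdim]
      ring
    rw [← h3, ← h2]
    linarith
  have hm' : (finrank ℚ U : ℝ) - finrank ℚ U' = m := by
    have : (finrank ℚ U : ℝ) = finrank ℚ U' + m := by exact_mod_cast hm
    linarith
  rw [hm']
  have hkey2 : ∑ v, ∑ i, ((κ v i : ℝ) * δ - sg v) = δ * ∑ v, ∑ i, (κ v i : ℝ) - m := by
    have h1 : ∀ v : Option (Fin s), ∑ i, ((κ v i : ℝ) * δ - sg v) =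
        δ * ∑ i, (κ v i : ℝ) - m * sg v := by
      intro v
      rw [Finset.sum_sub_distrib, Finset.sum_const, Finset.card_univ, Fintype.card_fin,
        nsmul_eq_mul, Finset.mul_sum]
      congr 1
      exact Finset.sum_congr rfl fun i _ => mul_comm _ _
    rw [Finset.sum_congr rfl fun v _ => h1 v, Finset.sum_sub_distrib, ← Finset.mul_sum,
      ← Finset.mul_sum, sum_sg, mul_one]
  rw [hkey2] at key
  have h1 : ∑ v, ∑ k ∈ Finset.Icc 1 N, δ *
      (((finrank ℚ U : ℝ) - finrank ℚ (U ⊓ (F v k).dualCoannihilator : Submodule ℚ (Fin n → ℚ))) -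
        ((finrank ℚ U' : ℝ) -
          finrank ℚ (U' ⊓ (F v k).dualCoannihilator : Submodule ℚ (Fin n → ℚ)))) ≤
      δ * ∑ v, ∑ i, (κ v i : ℝ) := by
    rw [Finset.mul_sum]
    refine Finset.sum_le_sum fun v _ => ?_
    rw [← Finset.mul_sum]
    exact mul_le_mul_of_nonneg_left (hS v) hδ.le
  linarith

end

end Pool.Agent.Q13.MA
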