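import Mathlib
import Pool.Agent.Q13.MA.Ineq

/-!
# Arrangements of hyperplanes: the refined subspace theorem for sequences of points
-/

set_option autoImplicit false
set_option linter.unusedSectionVars false
set_option linter.unusedVariables false

namespace Pool.Agent.Q13.MA

open Module Filter Topology Pool.Agent.TH932.Germs Pool.Agent.TH551.SU Pool.Agent.Y724.Vj

section

variable {n q s : ℕ} {b : Fin s → ℕ} {L : ℕ → ℝ}

/-- the functionals of weight at least `k δ` -/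
noncomputable def Tv (c : Fin q → ℝ) (δ : ℝ) (k : ℕ) : Finset (Fin q) :=
  Finset.univ.filter fun i => (k : ℝ) * δ ≤ c i

/-- the flag -/
noncomputable def Fl (Λ : Fin q → Dual ℚ (Fin n → ℚ)) (c : Fin q → ℝ) (δ : ℝ) (N k : ℕ) :
    Submodule ℚ (Dual ℚ (Fin n → ℚ)) :=
  if k = 0 then ⊤ else if k ≤ N then Submodule.span ℚ (Λ '' (Tv c δ k : Set (Fin q))) else ⊥

lemma fl_anti (Λ : Fin q → Dual ℚ (Fin n → ℚ)) (c : Fin q → ℝ) {δ : ℝ} (hδ : 0 < δ) (N : ℕ) :
    Antitone (Fl Λ c δ N) := by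
  intro j k hjk
  unfold Fl
  by_cases h0 : k = 0
  · have : j = 0 := by omega
    rw [if_pos h0, if_pos this]
  · rw [if_neg h0]
    by_cases h1 : j = 0
    · rw [if_pos h1]
      exact le_top
    · rw [if_neg h1]
      by_cases h2 : k ≤ N
      · rw [if_pos h2, if_pos (hjk.trans h2)]
        refine Submodule.span_mono (Set.image_mono ?_)
        intro i hi
        have hi' := (Finset.mem_filter.1 (Finset.mem_coe.1 hi)).2
        refine Finset.mem_coe.2 (Finset.mem_filter.2 ⟨Finset.mem_univ _, ?_⟩)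
        have h3 : (j : ℝ) ≤ k := by exact_mod_cast hjk
        nlinarith
      · rw [if_neg h2]
        exact bot_le

/-- the coefficients of the potential -/
noncomputable def coef (c : Option (Fin s) → Fin q → ℝ) (δ : ℝ) (N : ℕ) (T : Finset (Fin q)) : ℝ :=
  ∑ v, ∑ k ∈ Finset.Icc 1 N, if Tv (c v) δ k = T then δ else 0

lemma pot_coef (Λ : Fin q → Dual ℚ (Fin n → ℚ)) (c : Option (Fin s) → Fin q → ℝ) (δ : ℝ) (N : ℕ)
    (U : Submodule ℚ (Fin n → ℚ)) :
    pot Λ (coef c δ N) U = ∑ v, ∑ k ∈ Finset.Icc 1 N, δ * rk Λ (Tv (c v) δ k) U - finrank ℚ U := by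
  classical
  unfold pot coef
  congr 1
  have h1 : ∀ T : Finset (Fin q), (∑ v, ∑ k ∈ Finset.Icc 1 N,
      if Tv (c v) δ k = T then δ else 0) * rk Λ T U =
      ∑ v, ∑ k ∈ Finset.Icc 1 N, if Tv (c v) δ k = T then δ * rk Λ (Tv (c v) δ k) U else 0 := by
    intro T
    rw [Finset.sum_mul]
    refine Finset.sum_congr rfl fun v _ => ?_
    rw [Finset.sum_mul]
    refine Finset.sum_congr rfl fun k _ => ?_
    split_ifs with h
    · rw [h]
    · rw [zero_mul]
  rw [Finset.sum_congr rfl fun T _ => h1 T, Finset.sum_comm]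
  refine Finset.sum_congr rfl fun v _ => ?_
  rw [Finset.sum_comm]
  refine Finset.sum_congr rfl fun k _ => ?_
  rw [Finset.sum_ite_eq]
  simp

/-- **the refined subspace theorem for sequences, discrete weights** -/
theorem ref_disc (hb : ∀ v, (b v).Prime) (hbi : Function.Injective b)
    (hL : Tendsto L atTop atTop) (x : Fin n → ℕ → ℤ) (Λ : Fin q → Dual ℚ (Fin n → ℚ))
    (hexc : ∀ W ∈ exc Λ, ¬ ∀ᶠ t in (UU : Filter ℕ), xv x t ∈ W)
    (c : Option (Fin s) → Fin q → ℝ)
    (hx0 : ∀ v g, ge x g ∈ SS L (Rw (wv b hb v)) (0 - sg v))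
    (hc : ∀ v i, ge x (Λ i) ∈ SS L (Rw (wv b hb v)) (c v i - sg v))
    (δ : ℝ) (hδ : 0 < δ) (N : ℕ) :
    ∑ v, ∑ k ∈ Finset.Icc 1 N, δ * rk Λ (Tv (c v) δ k) ⊤ ≤ n := by
  classical
  by_contra hcon
  push Not at hcon
  obtain ⟨U, hU, hmin⟩ := exists_least x
  have ha : ∀ T, 0 ≤ coef c δ N T := by
    intro T
    unfold coef
    refine Finset.sum_nonneg fun v _ => Finset.sum_nonneg fun k _ => ?_
    split_ifs
    · exact hδ.le
    · exact le_rfl
  obtain ⟨W, hW⟩ := exists_top Λ (coef c δ N) ha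
  have hFk : ∀ v, ∀ k ∈ Finset.Icc 1 N, (Fl Λ (c v) δ N k).dualCoannihilator =
      AA Λ (Tv (c v) δ k) := by
    intro v k hk
    have hk' := Finset.mem_Icc.1 hk
    unfold Fl AA
    rw [if_neg (by omega), if_pos hk'.2]
  have hUW : U ≤ W := by
    refine le_top_of_sub Λ _ ha hW fun U' hU' => ?_
    have h1 := main_ineq hb hbi hL x U hU hmin N δ hδ (fun v => Fl Λ (c v) δ N)
      (fun v => fl_anti Λ (c v) hδ N) (fun v => by unfold Fl; rw [if_pos rfl])
      (fun v => by unfold Fl; rw [if_neg (by omega), if_neg (by omega)]) (by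
        intro v k hk g hg
        unfold Fl at hg
        by_cases h0 : k = 0
        · rw [h0, Nat.cast_zero, zero_mul]
          exact hx0 v g
        · rw [if_neg h0, if_pos hk] at hg
          refine ge_mem_span hL hb v x _ ?_ g hg
          rintro _ ⟨i, hi, rfl⟩
          have hi' := (Finset.mem_filter.1 (Finset.mem_coe.1 hi)).2
          exact (filt_w hL b hb v).anti (by linarith) (hc v i)) U' hU'
    have h2 : ∑ v, ∑ k ∈ Finset.Icc 1 N, δ * (rk Λ (Tv (c v) δ k) U - rk Λ (Tv (c v) δ k) U') ≤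
        (finrank ℚ U : ℝ) - finrank ℚ U' := by
      refine le_trans (le_of_eq ?_) h1
      refine Finset.sum_congr rfl fun v _ => Finset.sum_congr rfl fun k hk => ?_
      unfold rk
      rw [hFk v k hk]
    rw [pot_coef, pot_coef]
    have h3 : ∑ v, ∑ k ∈ Finset.Icc 1 N, δ * (rk Λ (Tv (c v) δ k) U - rk Λ (Tv (c v) δ k) U') =
        ∑ v, ∑ k ∈ Finset.Icc 1 N, δ * rk Λ (Tv (c v) δ k) U -
          ∑ v, ∑ k ∈ Finset.Icc 1 N, δ * rk Λ (Tv (c v) δ k) U' := by
      rw [← Finset.sum_sub_distrib]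
      refine Finset.sum_congr rfl fun v _ => ?_
      rw [← Finset.sum_sub_distrib]
      exact Finset.sum_congr rfl fun k _ => mul_sub _ _ _
    rw [h3] at h2
    linarith
  have hWt : W ≠ ⊤ := by
    intro h
    have h1 := hW.1 ⊥
    rw [h, pot_bot, pot_coef, finrank_top, finrank_fin_fun] at h1
    linarith
  refine hexc W ⟨hWt, _, ha, hW⟩ ?_
  filter_upwards [hU] with t ht
  exact hUW ht

/-- independent functionals in a span -/
lemma card_le_rk (Λ : Fin q → Dual ℚ (Fin n → ℚ)) (T : Finset (Fin q)) (J : Fin n → Fin q)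
    (hJ : LinearIndependent ℚ fun j => Λ (J j)) :
    ((Finset.univ.filter fun j => J j ∈ T).card : ℝ) ≤ rk Λ T ⊤ := by
  classical
  have h1 : (Finset.univ.filter fun j => J j ∈ T).card ≤
      finrank ℚ (Submodule.span ℚ (Λ '' (T : Set (Fin q)))) := by
    have h2 : LinearIndependent ℚ (fun j : (Finset.univ.filter fun j => J j ∈ T) => Λ (J j)) :=
      hJ.comp (fun j : (Finset.univ.filter fun j => J j ∈ T) => (j : Fin n))
        Subtype.val_injective
    have h3 := finrank_span_eq_card h2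
    rw [Fintype.card_coe] at h3
    rw [← h3]
    refine Submodule.finrank_mono (Submodule.span_mono ?_)
    rintro _ ⟨j, rfl⟩
    exact ⟨J j, (Finset.mem_filter.1 j.2).2, rfl⟩
  have h2 := Subspace.finrank_add_finrank_dualAnnihilator_eq (AA Λ T)
  have h3 : (AA Λ T).dualAnnihilator = Submodule.span ℚ (Λ '' (T : Set (Fin q))) := by
    unfold AA
    rw [Subspace.dualCoannihilator_dualAnnihilator_eq]
  rw [h3, finrank_fin_fun] at h2
  unfold rk
  rw [top_inf_eq, finrank_top, finrank_fin_fun]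
  have h1' : ((Finset.univ.filter fun j => J j ∈ T).card : ℝ) ≤
      (finrank ℚ (Submodule.span ℚ (Λ '' (T : Set (Fin q)))) : ℕ) := by exact_mod_cast h1
  have h2' : ((finrank ℚ (AA Λ T) : ℕ) : ℝ) +
      (finrank ℚ (Submodule.span ℚ (Λ '' (T : Set (Fin q)))) : ℕ) = n := by exact_mod_cast h2
  linarith

/-- **the refined subspace theorem for sequences** -/
theorem ref_seq (hb : ∀ v, (b v).Prime) (hbi : Function.Injective b)
    (hL : Tendsto L atTop atTop) (x : Fin n → ℕ → ℤ) (Λ : Fin q → Dual ℚ (Fin n → ℚ))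
    (hexc : ∀ W ∈ exc Λ, ¬ ∀ᶠ t in (UU : Filter ℕ), xv x t ∈ W)
    (c : Option (Fin s) → Fin q → ℝ) (hc0 : ∀ v i, 0 ≤ c v i)
    (hx0 : ∀ v j, ge x (LinearMap.proj j) ∈ SS L (Rw (wv b hb v)) (0 - sg v))
    (hc : ∀ v i, ge x (Λ i) ∈ SS L (Rw (wv b hb v)) (c v i - sg v))
    (J : Option (Fin s) → Fin n → Fin q)
    (hJ : ∀ v, LinearIndependent ℚ fun j => Λ (J v j)) :
    ∑ v, ∑ j, c v (J v j) ≤ n := by
  classical
  have hx0' : ∀ v g, ge x g ∈ SS L (Rw (wv b hb v)) (0 - sg v) := by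
    intro v g
    rw [dual_eq_sum g, ge_sum]
    exact SS_sum hL hb v _ _ fun j _ => SS_gm_mul hL hb v _ (hx0 v j)
  obtain ⟨B, hB0, hB⟩ : ∃ B : ℝ, 0 ≤ B ∧ ∀ v i, c v i ≤ B := by
    refine ⟨∑ v, ∑ i, c v i, Finset.sum_nonneg fun v _ => Finset.sum_nonneg fun i _ => hc0 v i,
      fun v i => ?_⟩
    have h1 : c v i ≤ ∑ i, c v i :=
      Finset.single_le_sum (f := fun i => c v i) (fun i _ => hc0 v i) (Finset.mem_univ i)
    have h2 : ∑ i, c v i ≤ ∑ v, ∑ i, c v i :=
      Finset.single_le_sum (f := fun v => ∑ i, c v i)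
        (fun v _ => Finset.sum_nonneg fun i _ => hc0 v i) (Finset.mem_univ v)
    linarith
  have hmain : ∀ δ : ℝ, 0 < δ → ∑ v, ∑ j, c v (J v j) ≤ n + δ * ((s + 1) * n) := by
    intro δ hδ
    obtain ⟨N, hN⟩ := exists_nat_ge (B / δ)
    have h1 := ref_disc hb hbi hL x Λ hexc c hx0' hc δ hδ N
    have h2 : ∀ v j, c v (J v j) - δ ≤ ∑ k ∈ Finset.Icc 1 N,
        if J v j ∈ Tv (c v) δ k then δ else 0 := by
      intro v j
      set y := c v (J v j) with hy
      have hy0 : 0 ≤ y := hc0 v _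
      have hyB : y ≤ B := hB v _
      have h3 : (Finset.Icc 1 N).filter (fun k => J v j ∈ Tv (c v) δ k) =
          Finset.Icc 1 ⌊y / δ⌋₊ := by
        ext k
        simp only [Finset.mem_filter, Finset.mem_Icc, Tv, Finset.mem_univ, true_and]
        rw [Nat.le_floor_iff (div_nonneg hy0 hδ.le), le_div_iff₀ hδ]
        constructor
        · rintro ⟨⟨h4, _⟩, h5⟩
          exact ⟨h4, h5⟩
        · rintro ⟨h4, h5⟩
          refine ⟨⟨h4, ?_⟩, h5⟩
          have h6 : (k : ℝ) ≤ N := by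
            refine le_trans ?_ hN
            rw [le_div_iff₀ hδ]
            linarith
          exact_mod_cast h6
      rw [← Finset.sum_filter, h3, Finset.sum_const, Nat.card_Icc, nsmul_eq_mul]
      have h4 := Nat.lt_floor_add_one (y / δ)
      rw [div_lt_iff₀ hδ] at h4
      have h5 : ((⌊y / δ⌋₊ + 1 - 1 : ℕ) : ℝ) = ⌊y / δ⌋₊ := by simp
      rw [h5]
      linarith
    have h3 : ∀ v, ∑ j, c v (J v j) - n * δ ≤
        ∑ k ∈ Finset.Icc 1 N, δ * rk Λ (Tv (c v) δ k) ⊤ := by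
      intro v
      have h4 : ∑ j : Fin n, (c v (J v j) - δ) ≤ ∑ j, ∑ k ∈ Finset.Icc 1 N,
        if J v j ∈ Tv (c v) δ k then δ else 0 := Finset.sum_le_sum fun j _ => h2 v j
      rw [Finset.sum_sub_distrib, Finset.sum_const, Finset.card_univ, Fintype.card_fin,
        nsmul_eq_mul, Finset.sum_comm] at h4
      refine h4.trans (Finset.sum_le_sum fun k _ => ?_)
      rw [← Finset.sum_filter, Finset.sum_const, nsmul_eq_mul, mul_comm]
      exact mul_le_mul_of_nonneg_left (card_le_rk Λ _ (J v) (hJ v)) hδ.le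
    have h4 : ∑ v, (∑ j, c v (J v j) - n * δ) ≤
        ∑ v, ∑ k ∈ Finset.Icc 1 N, δ * rk Λ (Tv (c v) δ k) ⊤ := Finset.sum_le_sum fun v _ => h3 v
    rw [Finset.sum_sub_distrib, Finset.sum_const, Finset.card_univ, Fintype.card_option,
      Fintype.card_fin, nsmul_eq_mul] at h4
    push_cast at h4
    linarith
  by_contra hcon
  push Not at hcon
  set T := ∑ v, ∑ j, c v (J v j) with hT
  have hp : (0 : ℝ) < (s + 1) * n + 1 := by positivity
  have h1 := hmain ((T - n) / ((s + 1) * n + 1)) (div_pos (by linarith) hp)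
  have h2 : (T - n) / ((s + 1) * n + 1) * ((s + 1) * n) < T - n := by
    rw [div_mul_eq_mul_div, div_lt_iff₀ hp]
    have : 0 < T - n := by linarith
    nlinarith
  linarith

end

end Pool.Agent.Q13.MA
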