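import Mathlib
import Pool.Agent.Y731.MI.Main
import Pool.Agent.Q13.MA.Ref
import Pool.Agent.Q13.MA.Disc

/-!
# Arrangements of hyperplanes: the valuations defined by a sequence of points
-/

set_option autoImplicit false
set_option linter.unusedSectionVars false
set_option linter.unusedVariables false

namespace Pool.Agent.Q13.MA

open Module Filter Topology Pool.Agent.TH932.Germs Pool.Agent.TH551.SU MvPolynomial
open Pool.Agent.TH551.HA Pool.Agent.Y731.MI Pool.Agent.Y724.Vj

section

variable {s : ℕ} {b : Fin s → ℕ} {L : ℕ → ℝ}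

lemma wv_eq_av (hb : ∀ v, (b v).Prime) (v : Option (Fin s)) (z : ℚ) :
    wv b hb v z = av b v z := by
  cases v with
  | none =>
    change Rat.AbsoluteValue.real z = _
    rw [Rat.AbsoluteValue.real_eq_abs]
    simp only [av]
    push_cast
    rfl
  | some v =>
    have := Fact.mk (hb v)
    change Rat.AbsoluteValue.padic (b v) z = _
    rw [Rat.AbsoluteValue.padic_eq_padicNorm]
    rfl

lemma md_const (hb : ∀ v, (b v).Prime) (hL : Tendsto L atTop atTop) (v : Option (Fin s)) (c : ℚ) :
    Md b v L fun _ => c := by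
  have h1 : ∀ᶠ t in (UU : Filter ℕ), 1 ≤ L t := ev_of_atTop (hL.eventually_ge_atTop 1)
  refine ⟨Real.log (max 1 (av b v c)), ?_⟩
  filter_upwards [h1] with t h2
  have h3 : 1 ≤ max 1 (av b v c) := le_max_left _ _
  have h4 : Real.log (max 1 (av b v c)) ≤ Real.log (max 1 (av b v c)) * L t :=
    le_mul_of_one_le_right (Real.log_nonneg h3) h2
  calc av b v c ≤ max 1 (av b v c) := le_max_right _ _
    _ = Real.exp (Real.log (max 1 (av b v c))) := (Real.exp_log (by linarith)).symm
    _ ≤ _ := Real.exp_le_exp.2 h4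

lemma md_add (hb : ∀ v, (b v).Prime) (hL : Tendsto L atTop atTop) {v : Option (Fin s)}
    {p q : ℕ → ℚ} (hp : Md b v L p) (hq : Md b v L q) : Md b v L fun t => p t + q t := by
  have h1 : ∀ᶠ t in (UU : Filter ℕ), 1 ≤ L t := ev_of_atTop (hL.eventually_ge_atTop 1)
  obtain ⟨K, hK⟩ := hp
  obtain ⟨K', hK'⟩ := hq
  refine ⟨max K K' + 1, ?_⟩
  filter_upwards [h1, hK, hK'] with t h2 h3 h4
  have h5 : Real.exp (K * L t) ≤ Real.exp (max K K' * L t) :=
    Real.exp_le_exp.2 (mul_le_mul_of_nonneg_right (le_max_left _ _) (by linarith))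
  have h6 : Real.exp (K' * L t) ≤ Real.exp (max K K' * L t) :=
    Real.exp_le_exp.2 (mul_le_mul_of_nonneg_right (le_max_right _ _) (by linarith))
  have h7 : (2 : ℝ) ≤ Real.exp (L t) := by
    have := Real.add_one_le_exp (L t)
    linarith
  calc av b v (p t + q t) ≤ av b v (p t) + av b v (q t) := av_add hb _ _ _
    _ ≤ 2 * Real.exp (max K K' * L t) := by linarith
    _ ≤ Real.exp (L t) * Real.exp (max K K' * L t) :=
        mul_le_mul_of_nonneg_right h7 (Real.exp_pos _).le
    _ = _ := by
        rw [← Real.exp_add]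
        congr 1
        ring

lemma md_mul (hb : ∀ v, (b v).Prime) {v : Option (Fin s)}
    {p q : ℕ → ℚ} (hp : Md b v L p) (hq : Md b v L q) : Md b v L fun t => p t * q t := by
  obtain ⟨K, hK⟩ := hp
  obtain ⟨K', hK'⟩ := hq
  refine ⟨K + K', ?_⟩
  filter_upwards [hK, hK'] with t h3 h4
  rw [av_mul hb, add_mul, Real.exp_add]
  exact mul_le_mul h3 h4 (av_nonneg hb _ _) (Real.exp_pos _).le

variable {n : ℕ}

/-- evaluation of polynomials in given sequences -/
noncomputable def phiY (y : Fin n → ℕ → ℚ) : MvPolynomial (Fin n) ℚ →+* (ℕ → ℚ) :=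
  RingHom.pi fun t => ((aeval fun j => y j t) : MvPolynomial (Fin n) ℚ →ₐ[ℚ] ℚ).toRingHom

lemma phiY_apply (y : Fin n → ℕ → ℚ) (P : MvPolynomial (Fin n) ℚ) (t : ℕ) :
    phiY y P t = aeval (fun j => y j t) P := rfl

lemma md_phiY (hb : ∀ v, (b v).Prime) (hL : Tendsto L atTop atTop) (v : Option (Fin s))
    (y : Fin n → ℕ → ℚ) (hy : ∀ j, Md b v L (y j)) (P : MvPolynomial (Fin n) ℚ) :
    Md b v L (phiY y P) := by
  induction P using MvPolynomial.induction_on with
  | C c =>
    have h : phiY y (C c) = fun _ => c := by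
      funext t
      rw [phiY_apply, aeval_C]
      rfl
    rw [h]
    exact md_const hb hL v c
  | add p q hp hq =>
    rw [map_add]
    exact md_add hb hL hp hq
  | mul_X p i hp =>
    rw [map_mul]
    have h : phiY y (X i) = y i := by
      funext t
      rw [phiY_apply, aeval_X]
    rw [h]
    exact md_mul hb hp (hy i)

/-- the valuation of the sequence is at most the monomial valuation -/
lemma gval_le_mw (hb : ∀ v, (b v).Prime) (hL : Tendsto L atTop atTop) (v : Option (Fin s))
    (y : Fin n → ℕ → ℚ) (hy : ∀ j, Md b v L (y j)) (r : Fin n → NNReal)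
    (hr : ∀ j, lmv b v L (y j) ≤ r j) (P : MvPolynomial (Fin n) ℚ) :
    gval hb hL v (phiY y) (md_phiY hb hL v y hy) P ≤ mw r P := by
  classical
  set G := gval hb hL v (phiY y) (md_phiY hb hL v y hy) with hG
  have hX : ∀ j, G (X j) ≤ r j := by
    intro j
    rw [← NNReal.coe_le_coe, hG, gval_coe]
    have h : phiY y (X j) = y j := by
      funext t
      rw [phiY_apply, aeval_X]
    rw [h]
    exact hr j
  have hC : ∀ c : ℚ, c ≠ 0 → G (C c) = 1 := by
    intro c hc
    apply NNReal.coe_injective
    rw [hG, gval_coe]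
    have h : phiY y (C c) = fun _ => c := by
      funext t
      rw [phiY_apply, aeval_C]
      rfl
    rw [h, lmv_const hb hL hc]
    rfl
  conv_lhs => rw [← P.support_sum_monomial_coeff]
  refine G.map_sum_le fun α hα => ?_
  refine le_trans ?_ (mu_le_mw r P (mem_support_iff.1 hα))
  rw [monomial_eq, map_mul, hC _ (mem_support_iff.1 hα), one_mul, Finsupp.prod_fintype]
  · rw [map_prod]
    unfold mu
    refine Finset.prod_le_prod' fun i _ => ?_
    rw [map_pow]
    exact pow_le_pow_left₀ bot_le (hX i) _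
  · intro i
    rw [pow_zero]

/-- the sequence in the coordinates given by the rows of `A` -/
lemma phiY_psi (A : Matrix (Fin n) (Fin n) ℤ) (B : Matrix (Fin n) (Fin n) ℚ)
    (hAB : AQ A * B = 1) (x : Fin n → ℕ → ℤ) (a : Fin n) (P : MvPolynomial (Fin n) ℤ) :
    phiY (fun j => phi x a (lf (A j))) (psi B P) = phi x a P := by
  classical
  have hBA : B * AQ A = 1 := mul_eq_one_comm.1 hAB
  have h : (phiY (fun j => phi x a (lf (A j)))).comp (psi B) = phi x a := by
    apply MvPolynomial.ringHom_ext
    · intro c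
      rw [RingHom.comp_apply, psi_C]
      funext t
      rw [phiY_apply, aeval_C, phi_apply, aeval_C]
      simp
    · intro i
      rw [RingHom.comp_apply, psi_X]
      funext t
      rw [phiY_apply, phi_apply, aeval_X, map_sum]
      have h1 : ∀ j, (aeval fun j => phi x a (lf (A j)) t) (C (B i j) * X j) =
          ∑ k, (B i j * (A j k : ℚ)) * ((x k t : ℚ) / (x a t : ℚ)) := by
        intro j
        rw [map_mul, aeval_C, aeval_X, phi_apply]
        unfold lf
        rw [map_sum, Finset.mul_sum]
        refine Finset.sum_congr rfl fun k _ => ?_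
        rw [map_mul, aeval_C, aeval_X]
        simp
        ring
      rw [Finset.sum_congr rfl fun j _ => h1 j, Finset.sum_comm, Finset.sum_eq_single i]
      · rw [← Finset.sum_mul]
        have h3 := congrFun (congrFun hBA i) i
        rw [Matrix.mul_apply, Matrix.one_apply_eq] at h3
        have h4 : ∑ j, B i j * (A j i : ℚ) = 1 := h3
        rw [h4, one_mul]
      · intro k _ hk
        rw [← Finset.sum_mul]
        have h3 := congrFun (congrFun hBA i) k
        rw [Matrix.mul_apply, Matrix.one_apply_ne (Ne.symm hk)] at h3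
        have h4 : ∑ j, B i j * (A j k : ℚ) = 0 := h3
        rw [h4, zero_mul]
      · intro h
        exact absurd (Finset.mem_univ i) h
  exact congrArg (fun f : MvPolynomial (Fin n) ℤ →+* (ℕ → ℚ) => f P) h

/-- a functional with integral coefficients -/
noncomputable def fun' (a : Fin n → ℤ) : Dual ℚ (Fin n → ℚ) :=
  ∑ j, (a j : ℚ) • (LinearMap.proj j : Dual ℚ (Fin n → ℚ))

lemma fun'_apply (a : Fin n → ℤ) (y : Fin n → ℚ) : fun' a y = ∑ j, (a j : ℚ) * y j := by
  unfold fun'
  rw [LinearMap.sum_apply]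
  rfl

/-- the linear form of a functional in the coordinates given by `B` -/
noncomputable def om (B : Matrix (Fin n) (Fin n) ℚ) (g : Dual ℚ (Fin n → ℚ)) :
    MvPolynomial (Fin n) ℚ := ∑ j, C (∑ i, g (Pi.single i 1) * B i j) * X j

lemma om_fun' (B : Matrix (Fin n) (Fin n) ℚ) (a : Fin n → ℤ) : om B (fun' a) = psi B (lf a) := by
  classical
  rw [psi_lf]
  unfold om
  refine Finset.sum_congr rfl fun j _ => ?_
  congr 2
  refine Finset.sum_congr rfl fun i _ => ?_
  rw [fun'_apply, Finset.sum_eq_single i]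
  · rw [Pi.single_eq_same, mul_one]
  · intro k _ hk
    rw [Pi.single_eq_of_ne hk, mul_zero]
  · intro h
    exact absurd (Finset.mem_univ i) h

lemma mw_om_span (B : Matrix (Fin n) (Fin n) ℚ) (r : Fin n → NNReal) (hr : ∀ i, 0 < r i)
    (ρ : NNReal) (T : Set (Dual ℚ (Fin n → ℚ))) (hT : ∀ g ∈ T, mw r (om B g) ≤ ρ)
    (g : Dual ℚ (Fin n → ℚ)) (hg : g ∈ Submodule.span ℚ T) : mw r (om B g) ≤ ρ := by
  induction hg using Submodule.span_induction with
  | mem g hg => exact hT g hg
  | zero =>
    have h : om B (0 : Dual ℚ (Fin n → ℚ)) = 0 := by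
      unfold om
      simp
    rw [h, mw_zero]
    exact bot_le
  | add g h _ _ h1 h2 =>
    have h3 : om B (g + h) = om B g + om B h := by
      unfold om
      rw [← Finset.sum_add_distrib]
      refine Finset.sum_congr rfl fun j _ => ?_
      rw [← add_mul, ← C_add, ← Finset.sum_add_distrib]
      congr 2
      refine Finset.sum_congr rfl fun i _ => ?_
      rw [LinearMap.add_apply, add_mul]
    rw [h3]
    exact (mw_add r _ _).trans (max_le h1 h2)
  | smul c g _ h1 =>
    have h3 : om B (c • g) = C c * om B g := by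
      unfold om
      rw [Finset.mul_sum]
      refine Finset.sum_congr rfl fun j _ => ?_
      rw [← mul_assoc, ← C_mul, Finset.mul_sum]
      congr 2
      refine Finset.sum_congr rfl fun i _ => ?_
      rw [LinearMap.smul_apply, smul_eq_mul, mul_assoc]
    by_cases hc : c = 0
    · rw [h3, hc, C_0, zero_mul, mw_zero]
      exact bot_le
    · rw [h3, mw_mul hr, mw_C r hc, one_mul]
      exact h1

end

end Pool.Agent.Q13.MA
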