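import Mathlib
import Pool.Agent.Q13.MA.Pts

/-!
# Arrangements of hyperplanes: the comparison of the valuation of a sequence with a monomial one
-/

set_option autoImplicit false
set_option linter.unusedSectionVars false
set_option linter.unusedVariables false

namespace Pool.Agent.Q13.MA

open Module Filter Topology Pool.Agent.TH932.Germs Pool.Agent.TH551.SU MvPolynomial
open Pool.Agent.TH551.HA Pool.Agent.Y731.MI Pool.Agent.Y724.Vj

section

variable {n : ℕ}

/-- real valuations of the function field -/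
def IsPl (w : Valuation (MvPolynomial (Fin n) ℤ) NNReal) : Prop :=
  (∀ c : ℤ, c ≠ 0 → w (C c) = 1) ∧ (∀ i, w (X i) ≤ 1) ∧ (∃ i, w (X i) = 1) ∧
    ∀ (P : MvPolynomial (Fin n) ℤ) (e : ℕ), P.IsHomogeneous e → (w P = 0 ↔ P = 0)

/-- the standard form in terms of logarithmic forms -/
def LogB (w : Valuation (MvPolynomial (Fin n) ℤ) NNReal) (r : NNReal) : Prop :=
  ∃ (T e : ℕ) (q : MvPolynomial (Fin n) ℤ) (h : Fin T → MvPolynomial (Fin n) ℤ)
    (p : Fin T → Fin n → MvPolynomial (Fin n) ℤ),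
    q.IsHomogeneous e ∧ w q ≠ 0 ∧ (∀ k, (h k).IsHomogeneous (e + n) ∧ w (h k) ≤ r * w q) ∧
    (∀ k i, (∃ d, (p k i).IsHomogeneous d) ∧ w (p k i) ≠ 0) ∧
    ∑ k, algebraMap _ (FractionRing (MvPolynomial (Fin n) ℤ)) (h k) /
      algebraMap _ (FractionRing (MvPolynomial (Fin n) ℤ)) q *
      (Matrix.of fun i j => algebraMap _ (FractionRing (MvPolynomial (Fin n) ℤ))
        (pderiv i (p k j)) / algebraMap _ (FractionRing (MvPolynomial (Fin n) ℤ)) (p k j)).det = 1

/-- the log discrepancy -/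
def LogD (w : Valuation (MvPolynomial (Fin n) ℤ) NNReal) (r : NNReal) : Prop :=
  ∀ r' : NNReal, r < r' → LogB w r'

/-- the multiplier ideal -/
def InMul {a : ℕ} (f : Fin a → MvPolynomial (Fin n) ℤ) (u : MvPolynomial (Fin n) ℤ) : Prop :=
  ∀ w : Valuation (MvPolynomial (Fin n) ℤ) NNReal, IsPl w →
    ∃ r : NNReal, LogD w r ∧ w u * r ≤ ⨆ j, w (f j)

lemma lf_hom (a : Fin n → ℤ) : (lf a).IsHomogeneous 1 := by
  unfold lf
  refine IsHomogeneous.sum _ _ _ fun i _ => ?_
  have h := (isHomogeneous_C (Fin n) (a i)).mul (isHomogeneous_X ℤ i)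
  rwa [zero_add] at h

lemma lf_single (j : Fin n) : lf (Pi.single j (1 : ℤ)) = X j := by
  classical
  unfold lf
  rw [Finset.sum_eq_single j]
  · rw [Pi.single_eq_same, C_1, one_mul]
  · intro k _ hk
    rw [Pi.single_eq_of_ne hk, C_0, zero_mul]
  · intro h
    exact absurd (Finset.mem_univ j) h

variable {s q : ℕ} {b : Fin s → ℕ} {L : ℕ → ℝ}

theorem exists_mono (hb : ∀ v, (b v).Prime) (hL : Tendsto L atTop atTop) (v : Option (Fin s))
    (x : Fin n → ℕ → ℤ) (a : Fin n)
    (ha : ∀ᶠ t in (UU : Filter ℕ), ∀ c, av b v (x c t : ℚ) ≤ av b v (x a t : ℚ))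
    (ha0 : ∀ᶠ t in (UU : Filter ℕ), x a t ≠ 0)
    (Λ : Fin q → Fin n → ℤ) (γ : Fin q → NNReal)
    (hγ : ∀ i, (γ i : ℝ) = lmv b v L (phi x a (lf (Λ i)))) (hγ0 : ∀ i, 0 < γ i)
    (J : Fin n → Fin q) (hJ : LinearIndependent ℚ fun j => fun' (Λ (J j)))
    (hgr : ∀ i, fun' (Λ i) ∈
      Submodule.span ℚ ((fun j => fun' (Λ (J j))) '' {j | γ (J j) ≤ γ i})) :
    ∃ w : Valuation (MvPolynomial (Fin n) ℤ) NNReal, IsPl w ∧ (∀ i, w (lf (Λ i)) = γ i) ∧
      (∀ P, gval hb hL v (phi x a) (md_phi hb hL x a v ha) P ≤ w P) ∧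
      ∀ ρ, LogD w ρ → ∏ j, γ (J j) ≤ ρ := by
  classical
  -- the matrices
  let A : Matrix (Fin n) (Fin n) ℤ := fun j => Λ (J j)
  have hrow : LinearIndependent ℚ (AQ A).row := by
    rw [Fintype.linearIndependent_iff]
    intro c hc
    refine Fintype.linearIndependent_iff.1 hJ c ?_
    apply LinearMap.ext
    intro y
    rw [LinearMap.sum_apply, LinearMap.zero_apply]
    have h1 : ∀ i, (c i • fun' (Λ (J i))) y = ∑ j, (c i * (Λ (J i) j : ℚ)) * y j := by
      intro i
      rw [LinearMap.smul_apply, fun'_apply, smul_eq_mul, Finset.mul_sum]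
      refine Finset.sum_congr rfl fun j _ => by ring
    rw [Finset.sum_congr rfl fun i _ => h1 i, Finset.sum_comm]
    refine Finset.sum_eq_zero fun j _ => ?_
    rw [← Finset.sum_mul]
    have h2 := congrFun hc j
    rw [Finset.sum_apply, Pi.zero_apply] at h2
    have h3 : ∑ i, c i * (Λ (J i) j : ℚ) = 0 := h2
    rw [h3, zero_mul]
  have hunit : IsUnit (AQ A) := Matrix.linearIndependent_rows_iff_isUnit.1 hrow
  obtain ⟨B, hAB⟩ : ∃ B, AQ A * B = 1 := ⟨(AQ A)⁻¹, Matrix.mul_nonsing_inv _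
    ((Matrix.isUnit_iff_isUnit_det _).1 hunit)⟩
  let r : Fin n → NNReal := fun j => γ (J j)
  have hr : ∀ j, 0 < r j := fun j => hγ0 _
  let w := lval B r hr
  -- the comparison
  have hy : ∀ j, Md b v L (phi x a (lf (A j))) := fun j => md_phi hb hL x a v ha _
  have hcmp : ∀ P, gval hb hL v (phi x a) (md_phi hb hL x a v ha) P ≤ w P := by
    intro P
    have h1 := gval_le_mw hb hL v (fun j => phi x a (lf (A j))) hy r
      (fun j => (hγ (J j)).ge) (psi B P)
    refine le_trans (le_of_eq ?_) h1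
    apply NNReal.coe_injective
    rw [gval_coe, gval_coe, phiY_psi A B hAB]
  have hγw : ∀ i, w (lf (Λ i)) = γ i := by
    intro i
    apply le_antisymm
    · have h1 := mw_om_span B r hr (γ i) _ (by
        rintro _ ⟨j, hj, rfl⟩
        show mw r (om B (fun' (Λ (J j)))) ≤ γ i
        rw [om_fun', show lf (Λ (J j)) = lf (A j) from rfl, psi_row A B hAB, mw_X]
        exact hj) _ (hgr i)
      rw [om_fun'] at h1
      exact h1
    · refine le_trans (le_of_eq ?_) (hcmp (lf (Λ i)))
      apply NNReal.coe_injective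
      rw [gval_coe, hγ]
  have hC : ∀ c : ℤ, c ≠ 0 → w (C c) = 1 := by
    intro c hc
    show mw r (psi B (C c)) = 1
    rw [psi_C]
    exact mw_C r (by exact_mod_cast hc)
  -- bounds for the coordinates
  have hgX : ∀ c, gval hb hL v (phi x a) (md_phi hb hL x a v ha) (X c) ≤ 1 := by
    intro c
    rw [← NNReal.coe_le_coe, gval_coe, NNReal.coe_one, ← Real.exp_zero]
    refine lmv_le hb hL ?_
    filter_upwards [ha] with t ht
    rw [zero_mul, Real.exp_zero, phi_apply, aeval_X, div_eq_mul_inv, av_mul hb, av_inv hb,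
      ← div_eq_mul_inv]
    exact div_le_one_of_le₀ (ht c) (av_nonneg hb _ _)
  have hgC : ∀ c : ℤ, c ≠ 0 →
      gval hb hL v (phi x a) (md_phi hb hL x a v ha) (C c) = 1 := by
    intro c hc
    apply NNReal.coe_injective
    rw [gval_coe]
    have h : phi x a (C c) = fun _ => (c : ℚ) := by
      funext t
      rw [phi_apply, aeval_C]
      simp
    rw [h, lmv_const hb hL (by exact_mod_cast hc)]
    rfl
  have hγ1 : ∀ i, γ i ≤ 1 := by
    intro i
    have h1 : γ i = gval hb hL v (phi x a) (md_phi hb hL x a v ha) (lf (Λ i)) := by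
      apply NNReal.coe_injective
      rw [gval_coe, hγ]
    rw [h1]
    unfold lf
    refine Valuation.map_sum_le _ fun c _ => ?_
    rw [map_mul]
    by_cases h0 : Λ i c = 0
    · rw [h0, C_0, map_zero, zero_mul]
      exact bot_le
    · rw [hgC _ h0, one_mul]
      exact hgX c
  have hwX : ∀ c, w (X c) ≤ 1 := by
    intro c
    show mw r (psi B (X c)) ≤ 1
    rw [psi_X, mw_le_iff]
    intro α hα
    obtain ⟨j, hj⟩ : ∃ j, α = Finsupp.single j 1 := by
      by_contra hno
      push Not at hno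
      apply hα
      rw [coeff_sum]
      refine Finset.sum_eq_zero fun j _ => ?_
      rw [coeff_C_mul, coeff_X, if_neg (fun h => hno j h.symm), mul_zero]
    rw [hj, mu_single]
    exact hγ1 _
  refine ⟨w, ⟨hC, hwX, ⟨a, le_antisymm (hwX a) ?_⟩, ?_⟩, hγw, hcmp, ?_⟩
  · refine le_trans (le_of_eq ?_) (hcmp (X a))
    symm
    apply NNReal.coe_injective
    rw [gval_coe]
    have h : lmv b v L (phi x a (X a)) = lmv b v L (fun _ => (1 : ℚ)) := by
      refine lmv_congr ?_
      filter_upwards [ha0] with t ht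
      rw [phi_apply, aeval_X]
      exact div_self (by exact_mod_cast ht)
    rw [h, lmv_const hb hL one_ne_zero]
    rfl
  · intro P e _
    show mw r (psi B P) = 0 ↔ P = 0
    rw [mw_eq_zero hr]
    constructor
    · intro h
      exact psi_injective A B hAB (by rw [h, map_zero])
    · intro h
      rw [h, map_zero]
  · intro ρ hρ
    refine le_of_forall_gt_imp_ge_of_dense fun ρ' hρ' => ?_
    obtain ⟨T, e, q', h, p, _, hq', hh, hp, hid⟩ := hρ ρ' hρ'
    exact disc A B hAB r hr ρ' T q' h p hq' (fun k => (hh k).2) (fun k i => (hp k i).2) hid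

end

end Pool.Agent.Q13.MA
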