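import Mathlib
import Pool.Agent.Q13.MA.Weil

/-!
# Arrangements of hyperplanes: Vojta's inequality with multiplier ideals
-/

set_option autoImplicit false
set_option linter.unusedSectionVars false
set_option linter.unusedVariables false

namespace Pool.Agent.Q13.MA

open Module Filter Topology Pool.Agent.TH932.Germs Pool.Agent.TH551.SU MvPolynomial
open Pool.Agent.TH551.HA Pool.Agent.Y731.MI Pool.Agent.Y724.Vj Pool.Agent.Y731.GV
open Pool.Agent.TH551.SU.Ht Pool.Agent.TH551.SU.CRV

section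

variable {n q : ℕ}

/-- the generators of the ideal: products of the linear forms, with integral factors -/
noncomputable def gen {a : ℕ} (Λ : Fin q → Fin n → ℤ) (m : Fin a → ℤ) (e : Fin a → Fin q → ℕ)
    (j : Fin a) : MvPolynomial (Fin n) ℤ := C (m j) * ∏ i, lf (Λ i) ^ e j i

lemma gen_hom {a : ℕ} (Λ : Fin q → Fin n → ℤ) (m : Fin a → ℤ) (e : Fin a → Fin q → ℕ)
    (j : Fin a) : (gen Λ m e j).IsHomogeneous (∑ i, e j i) := by
  unfold gen
  have h1 := (isHomogeneous_C (Fin n) (m j)).mul (IsHomogeneous.prod Finset.univ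
    (fun i => lf (Λ i) ^ e j i) (fun i => 1 * e j i) fun i _ => (lf_hom (Λ i)).pow _)
  simpa using h1

/-- the forms and the coordinates -/
def ext (Λ : Fin q → Fin n → ℤ) : Fin (q + n) → Fin n → ℤ :=
  Fin.append Λ fun j => Pi.single j 1

lemma ext_left (Λ : Fin q → Fin n → ℤ) (i : Fin q) : ext Λ (Fin.castAdd n i) = Λ i :=
  Fin.append_left _ _ _

lemma ext_right (Λ : Fin q → Fin n → ℤ) (j : Fin n) : ext Λ (Fin.natAdd q j) = Pi.single j 1 :=
  Fin.append_right _ _ _

/-- the exceptional subspaces -/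
noncomputable def ZZ (Λ : Fin q → Fin n → ℤ) : Set (Submodule ℚ (Fin n → ℚ)) :=
  exc (fun i => fun' (ext Λ i)) ∪ Set.range (fun i => LinearMap.ker (fun' (ext Λ i)))

lemma ZZ_finite (Λ : Fin q → Fin n → ℤ) : (ZZ Λ).Finite :=
  (exc_finite _).union (Set.finite_range _)

lemma fun'_ne_zero {a : Fin n → ℤ} (ha : a ≠ 0) : fun' a ≠ 0 := by
  classical
  intro h
  apply ha
  funext i
  have h1 := LinearMap.congr_fun h (Pi.single i 1)
  rw [fun'_apply, Finset.sum_eq_single i, Pi.single_eq_same, mul_one, LinearMap.zero_apply] at h1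
  · exact_mod_cast h1
  · intro k _ hk
    rw [Pi.single_eq_of_ne hk, mul_zero]
  · intro h
    exact absurd (Finset.mem_univ i) h

lemma ZZ_ne_top (Λ : Fin q → Fin n → ℤ) (hΛ : ∀ i, Λ i ≠ 0) : ∀ W ∈ ZZ Λ, W ≠ ⊤ := by
  rintro W (hW | ⟨i, rfl⟩)
  · exact hW.1
  · intro h
    have h1 : fun' (ext Λ i) = 0 := LinearMap.ker_eq_top.1 h
    refine fun'_ne_zero ?_ h1
    refine Fin.addCases (fun j => ?_) (fun j => ?_) i
    · rw [ext_left]; exact hΛ j
    · rw [ext_right]
      intro h2
      have := congrFun h2 j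
      rw [Pi.single_eq_same] at this
      exact one_ne_zero this

lemma fun'_int (a : Fin n → ℤ) (x : Fin n → ℤ) :
    fun' a (fun j => (x j : ℚ)) = ((eval x (lf a) : ℤ) : ℚ) := by
  rw [fun'_apply]
  unfold lf
  rw [map_sum]
  push_cast
  refine Finset.sum_congr rfl fun j _ => ?_
  rw [map_mul, eval_C, eval_X]
  push_cast
  rfl

lemma fun'_single (j : Fin n) : fun' (Pi.single j (1 : ℤ)) = (LinearMap.proj j :
    Dual ℚ (Fin n → ℚ)) := by
  classical
  apply LinearMap.ext
  intro y
  rw [fun'_apply, Finset.sum_eq_single j]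
  · rw [Pi.single_eq_same]
    simp
  · intro k _ hk
    rw [Pi.single_eq_of_ne hk]
    simp
  · intro h
    exact absurd (Finset.mem_univ j) h

/-- **Vojta's inequality with multiplier ideals for arrangements of hyperplanes** -/
theorem maMain (Λ : Fin q → Fin n → ℤ) (hΛ : ∀ i, Λ i ≠ 0) (a r : ℕ) (m : Fin (a + 1) → ℤ)
    (hm : ∀ j, m j ≠ 0) (e : Fin (a + 1) → Fin q → ℕ)
    (u : Fin r → MvPolynomial (Fin n) ℤ) (du : Fin r → ℕ) (hu : ∀ j, (u j).IsHomogeneous (du j))
    (hmult : ∀ j, InMul (gen Λ m e) (u j)) (S : Finset ℕ) (hS : ∀ p ∈ S, p.Prime) (ε : ℝ)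
    (hε : 0 < ε) :
    ∃ C : ℝ, ∀ x : Fin n → ℤ, Finset.univ.gcd x = 1 →
      (∀ W ∈ ZZ Λ, (fun j => (x j : ℚ)) ∉ W) → (∃ j, eval x (u j) ≠ 0) →
      prox (gen Λ m e) (fun j => ∑ i, e j i) S x - prox u du S x ≤
        (n + ε) * Real.log (htv x) + C := by
  classical
  set f := gen Λ m e with hfdef
  set df : Fin (a + 1) → ℕ := fun j => ∑ i, e j i with hdf
  have hf : ∀ j, (f j).IsHomogeneous (df j) := gen_hom Λ m e
  obtain ⟨cu, hcu0, hcu⟩ := le_prox u du hu
  by_contra hcon
  push Not at hcon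
  choose x hgcd hZ huz hlt using fun t : ℕ => hcon (t : ℝ)
  choose kk hkk using huz
  -- the heights
  have hle : ∀ t c, |(x t c : ℝ)| ≤ (htv (x t) : ℝ) := by
    intro t c
    have h4 : (x t c).natAbs ≤ htv (x t) :=
      Finset.le_sup (f := fun i => (x t i).natAbs) (Finset.mem_univ c)
    have h5 : ((x t c).natAbs : ℝ) ≤ (htv (x t) : ℝ) := by exact_mod_cast h4
    rwa [Nat.cast_natAbs, Int.cast_abs] at h5
  have hex0 : ∀ t, ∃ c, x t c ≠ 0 := by
    intro t
    by_contra hno
    push Not at hno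
    have h6 : Finset.univ.gcd (x t) = 0 := Finset.gcd_eq_zero_iff.2 fun c _ => hno c
    have h5 := hgcd t
    rw [h6] at h5
    exact zero_ne_one h5
  have hne : Nonempty (Fin n) := ⟨(hex0 0).choose⟩
  have hH1 : ∀ t, (1 : ℝ) ≤ htv (x t) := by
    intro t
    obtain ⟨c, hc⟩ := hex0 t
    have h1 : (1 : ℝ) ≤ |(x t c : ℝ)| := by exact_mod_cast Int.one_le_abs hc
    exact h1.trans (hle t c)
  have hHp : ∀ t, (0 : ℝ) < htv (x t) := fun t => by linarith [hH1 t]
  obtain ⟨L, hLdef⟩ : ∃ L : ℕ → ℝ, L = fun t => Real.log (htv (x t)) := ⟨_, rfl⟩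
  have hLt : ∀ t, L t = Real.log (htv (x t)) := fun t => by rw [hLdef]
  have hL0 : ∀ t, 0 ≤ L t := fun t => by rw [hLt]; exact Real.log_nonneg (hH1 t)
  have hHL : ∀ t, (htv (x t) : ℝ) = Real.exp (L t) := fun t => by
    rw [hLt, Real.exp_log (hHp t)]
  -- the forms do not vanish
  have hform : ∀ t i, eval (x t) (lf (ext Λ i)) ≠ 0 := by
    intro t i h
    refine hZ t (LinearMap.ker (fun' (ext Λ i))) (Or.inr ⟨i, rfl⟩) ?_
    rw [LinearMap.mem_ker, fun'_int, h, Int.cast_zero]
  have hfz : ∀ t j, eval (x t) (f j) ≠ 0 := by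
    intro t j
    rw [hfdef]
    unfold gen
    rw [map_mul, map_prod, eval_C]
    refine mul_ne_zero (hm j) (Finset.prod_ne_zero_iff.2 fun i _ => ?_)
    rw [map_pow]
    have h1 := hform t (Fin.castAdd n i)
    rw [ext_left] at h1
    exact pow_ne_zero _ h1
  have hL : Tendsto L atTop atTop := by
    have h1 : Tendsto (fun t : ℕ => ((t : ℝ) - cu) / (df 0 + 1)) atTop atTop :=
      (tendsto_atTop_add_const_right _ _ tendsto_natCast_atTop_atTop).atTop_div_const
        (by positivity)
    refine tendsto_atTop_mono (fun t => ?_) h1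
    rw [div_le_iff₀ (by positivity)]
    have h1 := hlt t
    have h2 := prox_le f df S hS (x t) (hHp t) 0 (hfz t 0)
    have h3 := hcu S hS (x t) (hHp t)
    rw [← hLt] at h1 h2
    have h4 := hL0 t
    have h5 : 0 ≤ (n + ε) * L t := by positivity
    have h6 : (0 : ℝ) ≤ (df 0 : ℝ) := Nat.cast_nonneg _
    nlinarith
  -- the places
  set b : Fin S.card → ℕ := fun v => (S.equivFin.symm v : ℕ) with hbdef
  have hb : ∀ v, (b v).Prime := fun v => hS _ (S.equivFin.symm v).2
  have hbi : Function.Injective b := fun v w h => S.equivFin.symm.injective (Subtype.ext h)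
  have hSb : ∀ p ∈ S, ∃ v, b v = p := fun p hp => ⟨S.equivFin ⟨p, hp⟩, by simp [hbdef]⟩
  have hbS : ∀ v, b v ∈ S := fun v => (S.equivFin.symm v).2
  obtain ⟨xs, hxsd⟩ : ∃ xs : Fin n → ℕ → ℤ, xs = fun c t => x t c := ⟨_, rfl⟩
  have hxst : ∀ t, (fun c => xs c t) = x t := fun t => by rw [hxsd]
  have hxsc : ∀ c t, xs c t = x t c := fun c t => by rw [hxsd]
  choose av' hav' using fun (t : ℕ) (v : Option (Fin S.card)) =>
    Finite.exists_max fun c => av b v (x t c : ℚ)
  obtain ⟨i0, hi0⟩ := const_of_finite av'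
  have ha : ∀ v, ∀ᶠ t in (UU : Filter ℕ), ∀ c, av b v (xs c t : ℚ) ≤ av b v (xs (i0 v) t : ℚ) := by
    intro v
    filter_upwards [hi0] with t ht c
    rw [← ht, hxsd]
    exact hav' t v c
  -- the size of the largest coordinates
  have hinf : ∀ᶠ t in (UU : Filter ℕ), |(xs (i0 none) t : ℝ)| = (htv fun c => xs c t : ℝ) := by
    filter_upwards [ha none] with t ht
    rw [hxst, hxsc]
    refine le_antisymm (hle t _) ?_
    have h5 : (htv (x t) : ℝ) ≤ ((x t (i0 none)).natAbs : ℝ) := by
      norm_cast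
      refine Finset.sup_le fun i _ => ?_
      have h6 := ht i
      rw [hxsc, hxsc] at h6
      simp only [av] at h6
      push_cast at h6
      have h7 : |x t i| ≤ |x t (i0 none)| := by exact_mod_cast h6
      rw [Int.abs_eq_natAbs, Int.abs_eq_natAbs] at h7
      exact_mod_cast h7
    rwa [Nat.cast_natAbs, Int.cast_abs] at h5
  have hfin : ∀ᶠ t in (UU : Filter ℕ), ∀ v, av b (some v) (xs (i0 (some v)) t : ℚ) = 1 := by
    rw [Filter.eventually_all]
    intro v
    filter_upwards [ha (some v)] with t ht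
    refine le_antisymm (av_int_le_one hb v _) ?_
    obtain ⟨j, h1⟩ := av_gcd_le' hb v (x t)
    rw [hgcd t] at h1
    have h2 : av b (some v) ((1 : ℤ) : ℚ) = 1 := by rw [Int.cast_one, av_one hb]
    rw [h2] at h1
    have h3 := ht j
    rw [hxsc j] at h3
    exact h1.trans h3
  have hsize : ∀ v, ∀ᶠ t in (UU : Filter ℕ),
      av b v (xs (i0 v) t : ℚ) = Real.exp (sg v * L t) := by
    intro v
    cases v with
    | none =>
      filter_upwards [hinf] with t ht
      have e4 : av b none (xs (i0 none) t : ℚ) = |(xs (i0 none) t : ℝ)| := by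
        simp only [av]; push_cast; rfl
      rw [e4, ht, hxst, hHL]
      simp [sg]
    | some v =>
      filter_upwards [hfin] with t ht
      rw [ht v]
      simp [sg]
  have hx0 : ∀ v, ∀ᶠ t in (UU : Filter ℕ), xs (i0 v) t ≠ 0 := by
    intro v
    filter_upwards [hsize v] with t ht h0
    rw [h0, Int.cast_zero, av_zero hb] at ht
    exact absurd ht (Real.exp_pos _).ne
  -- lower bounds for the values of forms
  have hlow : ∀ (v : Option (Fin S.card)) (P : MvPolynomial (Fin n) ℤ) (d : ℕ),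
      P.IsHomogeneous d → (∀ᶠ t in (UU : Filter ℕ), eval (x t) P ≠ 0) →
      0 < lmv b v L (phi xs (i0 v) P) := by
    intro v P d hP hne
    obtain ⟨c, hc1, hc⟩ := eval_le P d hP
    have h1 : ∀ᶠ t in (UU : Filter ℕ), 1 ≤ L t := ev_of_atTop (hL.eventually_ge_atTop 1)
    refine lt_of_lt_of_le (Real.exp_pos (-(Real.log c + 2 * d)))
      (le_lmv hb hL (md_phi hb hL xs (i0 v) v (ha v) P) ?_)
    filter_upwards [hne, hsize v, h1] with t h2 h3 h4
    rw [phi_hom xs (i0 v) P d hP, hxst, av_mul hb, av_pow hb, av_inv hb, h3]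
    have h5 := hc (x t) (htv (x t)) (hHp t).le (hle t)
    have h6 := av_lower hb hbi v (eval (x t) P) h2 _ h5
    have h7 : sg v ≤ 1 := by
      cases v <;> simp [sg]
    have h8 : Real.exp (-(sg v * L t)) ^ d ≥ Real.exp (-(d * L t)) := by
      rw [← Real.exp_nat_mul]
      refine Real.exp_le_exp.2 ?_
      have : sg v * L t ≤ 1 * L t := mul_le_mul_of_nonneg_right h7 (hL0 t)
      have hd : (0 : ℝ) ≤ d := Nat.cast_nonneg d
      nlinarith
    have h9 : Real.exp (-(Real.log c * L t + d * L t)) ≤ (c * (htv (x t) : ℝ) ^ d)⁻¹ := by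
      rw [← Real.exp_log (show 0 < c by linarith), hHL, ← Real.exp_nat_mul, ← Real.exp_add,
        ← Real.exp_neg, Real.exp_log (show 0 < c by linarith)]
      refine Real.exp_le_exp.2 ?_
      have : Real.log c ≤ Real.log c * L t := le_mul_of_one_le_right (Real.log_nonneg hc1) h4
      linarith
    rw [← Real.exp_neg]
    calc Real.exp (-(Real.log c + 2 * d) * L t)
        = Real.exp (-(d * L t)) * Real.exp (-(Real.log c * L t + d * L t)) := by
          rw [← Real.exp_add]
          congr 1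
          ring
      _ ≤ Real.exp (-(sg v * L t)) ^ d * (c * (htv (x t) : ℝ) ^ d)⁻¹ :=
          mul_le_mul h8 h9 (Real.exp_pos _).le (pow_nonneg (Real.exp_pos _).le _)
      _ ≤ _ := mul_le_mul_of_nonneg_left h6 (pow_nonneg (Real.exp_pos _).le _)
  -- the weights
  let G : Option (Fin S.card) → Valuation (MvPolynomial (Fin n) ℤ) NNReal := fun v =>
    gval hb hL v (phi xs (i0 v)) (md_phi hb hL xs (i0 v) v (ha v))
  have hG : ∀ v P, ((G v P : NNReal) : ℝ) = lmv b v L (phi xs (i0 v) P) := fun v P =>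
    gval_coe hb hL v _ _ P
  let γ : Option (Fin S.card) → Fin (q + n) → NNReal := fun v i => G v (lf (ext Λ i))
  have hγ0 : ∀ v i, 0 < γ v i := by
    intro v i
    rw [← NNReal.coe_pos, hG]
    exact hlow v _ 1 (lf_hom _) (Eventually.of_forall fun t => hform t i)
  have hgr : ∀ v, ∃ J : Fin n → Fin (q + n),
      LinearIndependent ℚ (fun j => fun' (ext Λ (J j))) ∧
      ∀ i, fun' (ext Λ i) ∈
        Submodule.span ℚ ((fun j => fun' (ext Λ (J j))) '' {j | γ v (J j) ≤ γ v i}) := by
    intro v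
    have hspan : Submodule.span ℚ (Set.range fun i => fun' (ext Λ i)) = ⊤ := by
      rw [eq_top_iff]
      intro g _
      rw [dual_eq_sum g]
      refine Submodule.sum_mem _ fun j _ => Submodule.smul_mem _ _ ?_
      refine Submodule.subset_span ⟨Fin.natAdd q j, ?_⟩
      show fun' (ext Λ (Fin.natAdd q j)) = _
      rw [ext_right, fun'_single]
    obtain ⟨J, hJ, hJs⟩ := greedy_basis (fun i => fun' (ext Λ i))
      (fun i => -Real.log (γ v i)) hspan
    have hfr : finrank ℚ (Dual ℚ (Fin n → ℚ)) = n := by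
      rw [Subspace.dual_finrank_eq, finrank_fin_fun]
    refine ⟨fun j => J (finCongr hfr.symm j), ?_, fun i => ?_⟩
    · exact hJ.comp _ (finCongr hfr.symm).injective
    · refine Submodule.span_mono ?_ (hJs i)
      rintro _ ⟨j, hj, rfl⟩
      refine ⟨(finCongr hfr.symm).symm j, ?_, ?_⟩
      · show γ v (J ((finCongr hfr.symm) ((finCongr hfr.symm).symm j))) ≤ γ v i
        rw [Equiv.apply_symm_apply]
        have h1 : -Real.log (γ v i) ≤ -Real.log (γ v (J j)) := hj
        have h2 : Real.log (γ v (J j)) ≤ Real.log (γ v i) := by linarith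
        have h3 := (Real.log_le_log_iff (NNReal.coe_pos.2 (hγ0 v _))
          (NNReal.coe_pos.2 (hγ0 v _))).1 h2
        exact_mod_cast h3
      · show fun' (ext Λ (J ((finCongr hfr.symm) ((finCongr hfr.symm).symm j)))) = _
        rw [Equiv.apply_symm_apply]
  choose J hJ hJs using hgr
  choose w hw hwγ hGw hwD using fun v => exists_mono hb hL v xs (i0 v) (ha v) (hx0 v)
    (ext Λ) (γ v) (fun i => hG v _) (hγ0 v) (J v) (hJ v) (hJs v)
  -- the values of the generators
  have hwf : ∀ v j, w v (f j) = G v (f j) := by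
    intro v j
    have hGC : G v (C (m j)) = w v (C (m j)) := by
      rw [(hw v).1 _ (hm j)]
      apply NNReal.coe_injective
      rw [hG]
      have h : phi xs (i0 v) (C (m j)) = fun _ => (m j : ℚ) := by
        funext t
        rw [phi_apply, aeval_C]
        simp
      rw [h, lmv_const hb hL (by exact_mod_cast hm j)]
      rfl
    rw [hfdef]
    unfold gen
    rw [map_mul, map_mul, map_prod, map_prod, hGC]
    congr 1
    refine Finset.prod_congr rfl fun i _ => ?_
    rw [map_pow, map_pow]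
    have h1 := hwγ v (Fin.castAdd n i)
    have h2 : γ v (Fin.castAdd n i) = G v (lf (ext Λ (Fin.castAdd n i))) := rfl
    rw [h2, ext_left] at h1
    rw [h1]
  -- the multiplier ideal
  have hmi : ∀ v k, G v (u k) * ∏ j, γ v (J v j) ≤ ⨆ j, G v (f j) := by
    intro v k
    obtain ⟨ρ, hρ, hρ'⟩ := hmult k (w v) (hw v)
    have h1 : (⨆ j, w v (f j)) = ⨆ j, G v (f j) := by
      refine iSup_congr fun j => hwf v j
    rw [← h1]
    exact (mul_le_mul' (hGw v (u k)) (hwD v ρ hρ)).trans hρ'
  -- a nonvanishing element of the multiplier ideal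
  obtain ⟨k0, hk0⟩ := const_of_finite kk
  have hk0' : ∀ᶠ t in (UU : Filter ℕ), eval (x t) (u k0) ≠ 0 := by
    filter_upwards [hk0] with t ht
    rw [← ht]
    exact hkk t
  have hGu0 : ∀ v, 0 < G v (u k0) := by
    intro v
    rw [← NNReal.coe_pos, hG]
    exact hlow v _ _ (hu k0) hk0'
  have hGf0 : ∀ v j, 0 < G v (f j) := by
    intro v j
    rw [← NNReal.coe_pos, hG]
    exact hlow v _ _ (hf j) (Eventually.of_forall fun t => hfz t j)
  choose jm hjm using fun v => Finite.exists_max fun j => G v (f j)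
  have hNe : Nonempty (Fin r) := ⟨k0⟩
  choose km hkm using fun v => Finite.exists_max fun k => G v (u k)
  -- the refined subspace theorem
  let c : Option (Fin S.card) → Fin (q + n) → ℝ := fun v i => -Real.log (γ v i)
  have hγ1 : ∀ v i, (γ v i : ℝ) ≤ 1 := by
    intro v i
    have h1 : w v (lf (ext Λ i)) ≤ 1 := by
      unfold lf
      refine Valuation.map_sum_le _ fun c' _ => ?_
      rw [map_mul]
      by_cases h0 : ext Λ i c' = 0
      · rw [h0, C_0, map_zero, zero_mul]
        exact bot_le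
      · rw [(hw v).1 _ h0, one_mul]
        exact (hw v).2.1 c'
    rw [hwγ] at h1
    exact_mod_cast h1
  have hsub : ∑ v, ∑ j, c v (J v j) ≤ n := by
    refine ref_seq hb hbi hL xs (fun i => fun' (ext Λ i)) ?_ c ?_ ?_ ?_ J hJ
    · intro W hW hev
      obtain ⟨t, ht⟩ := hev.exists
      refine hZ t W (Or.inl hW) ?_
      have h1 : xv xs t = fun j => (x t j : ℚ) := by
        funext j
        show (xs j t : ℚ) = _
        rw [hxsc]
      rwa [h1] at ht
    · intro v i
      exact neg_nonneg.2 (Real.log_nonpos (NNReal.coe_nonneg _) (hγ1 v i))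
    · intro v j
      show gm _ ∈ _
      rw [mem_SS]
      intro ε' hε'
      filter_upwards [ha v, hsize v] with t h1 h2
      show wv b hb v _ ≤ _
      rw [wv_eq_av]
      refine (h1 j).trans ?_
      rw [h2]
      refine Real.exp_le_exp.2 ?_
      have := hL0 t
      nlinarith
    · intro v i
      show gm _ ∈ _
      rw [mem_SS]
      intro ε' hε'
      have h1 : lmv b v L (phi xs (i0 v) (lf (ext Λ i))) <
          (γ v i : ℝ) * Real.exp ε' := by
        rw [← hG]
        have h2 : (1 : ℝ) < Real.exp ε' := Real.one_lt_exp_iff.2 hε'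
        have h3 : (0 : ℝ) < γ v i := NNReal.coe_pos.2 (hγ0 v i)
        exact lt_mul_of_one_lt_right h3 h2
      have h2 := ev_le_of_lmv_lt hb hL (md_phi hb hL xs (i0 v) v (ha v) _) h1
      filter_upwards [h2, hsize v, hx0 v] with t h3 h4 h5
      show wv b hb v _ ≤ _
      rw [wv_eq_av]
      have h6 : fun' (ext Λ i) (xv xs t) =
          (xs (i0 v) t : ℚ) * phi xs (i0 v) (lf (ext Λ i)) t := by
        have h7 : xv xs t = fun j => (x t j : ℚ) := by
          funext j
          show (xs j t : ℚ) = _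
          rw [hxsc]
        rw [h7, fun'_int, phi_hom xs (i0 v) _ 1 (lf_hom _), hxst, pow_one, ← mul_assoc,
          mul_inv_cancel₀ (by exact_mod_cast h5), one_mul]
      rw [h6, av_mul hb, h4]
      have h7 : ((γ v i : ℝ) * Real.exp ε') ^ L t =
          Real.exp ((Real.log (γ v i) + ε') * L t) := by
        have h8 : (0 : ℝ) < γ v i := NNReal.coe_pos.2 (hγ0 v i)
        rw [← Real.exp_log h8, ← Real.exp_add, ← Real.exp_mul, Real.log_exp]
      rw [h7] at h3
      calc Real.exp (sg v * L t) * av b v (phi xs (i0 v) (lf (ext Λ i)) t) ≤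
          Real.exp (sg v * L t) * Real.exp ((Real.log (γ v i) + ε') * L t) :=
            mul_le_mul_of_nonneg_left h3 (Real.exp_pos _).le
        _ = Real.exp ((ε' - (c v i - sg v)) * L t) := by
            rw [← Real.exp_add]
            congr 1
            show _ = (ε' - (-Real.log (γ v i) - sg v)) * L t
            ring
  -- the limits of the Weil functions
  have hlim : ∀ v, Real.log (G v (u (km v))) - Real.log (G v (f (jm v))) ≤ ∑ j, c v (J v j) := by
    intro v
    have h1 := hmi v (km v)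
    have h2 : (⨆ j, G v (f j)) = G v (f (jm v)) := by
      apply le_antisymm
      · exact ciSup_le' fun j => hjm v j
      · exact le_ciSup (f := fun j => G v (f j)) (Set.finite_range _).bddAbove (jm v)
    rw [h2] at h1
    have h3 : 0 < G v (u (km v)) := lt_of_lt_of_le (hGu0 v) (hkm v k0)
    have h4 : (0 : ℝ) < ∏ j, (γ v (J v j) : ℝ) :=
      Finset.prod_pos fun j _ => NNReal.coe_pos.2 (hγ0 v _)
    have h5 : (G v (u (km v)) : ℝ) * ∏ j, (γ v (J v j) : ℝ) ≤ G v (f (jm v)) := by
      exact_mod_cast h1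
    have h6 := Real.log_le_log (mul_pos (NNReal.coe_pos.2 h3) h4) h5
    rw [Real.log_mul (NNReal.coe_pos.2 h3).ne' h4.ne', Real.log_prod fun j _ =>
      (NNReal.coe_pos.2 (hγ0 v _)).ne'] at h6
    have h7 : ∑ j, c v (J v j) = -∑ j, Real.log (γ v (J v j)) := by
      rw [← Finset.sum_neg_distrib]
    rw [h7]
    linarith
  obtain ⟨D, hD⟩ : ∃ D : ℝ, D = (S.card : ℝ) + 1 := ⟨_, rfl⟩
  have hD0 : 0 < D := by
    rw [hD]
    exact Nat.cast_add_one_pos S.card
  obtain ⟨ε1, hε1⟩ : ∃ ε1 : ℝ, ε1 = ε / (2 * D) := ⟨_, rfl⟩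
  have hε1' : 0 < ε1 := by
    rw [hε1]
    exact div_pos hε (mul_pos two_pos hD0)
  have hup : ∀ v k, ∀ᶠ t in (UU : Filter ℕ), av b v (phi xs (i0 v) (u k) t) ≤
      ((G v (u (km v)) : ℝ) * Real.exp ε1) ^ L t := by
    intro v k
    refine ev_le_of_lmv_lt hb hL (md_phi hb hL xs (i0 v) v (ha v) _) ?_
    rw [← hG]
    have h2 : (1 : ℝ) < Real.exp ε1 := Real.one_lt_exp_iff.2 hε1'
    have h3 : (0 : ℝ) < G v (u (km v)) := NNReal.coe_pos.2 (lt_of_lt_of_le (hGu0 v) (hkm v k0))
    have h4 : (G v (u k) : ℝ) ≤ G v (u (km v)) := by exact_mod_cast hkm v k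
    exact h4.trans_lt (lt_mul_of_one_lt_right h3 h2)
  have hdown : ∀ v, ∀ᶠ t in (UU : Filter ℕ), ((G v (f (jm v)) : ℝ) * Real.exp (-ε1)) ^ L t ≤
      av b v (phi xs (i0 v) (f (jm v)) t) := by
    intro v
    refine ev_ge_of_lt_lmv hb hL (md_phi hb hL xs (i0 v) v (ha v) _) (by positivity) ?_
    rw [← hG]
    have h2 : Real.exp (-ε1) < 1 := by
      rw [Real.exp_lt_one_iff]
      linarith
    have h3 : (0 : ℝ) < G v (f (jm v)) := NNReal.coe_pos.2 (hGf0 v _)
    exact mul_lt_of_lt_one_right h3 h2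
  have hev : ∀ᶠ t in (UU : Filter ℕ),
      (∀ v k, av b v (phi xs (i0 v) (u k) t) ≤ ((G v (u (km v)) : ℝ) * Real.exp ε1) ^ L t) ∧
      (∀ v, ((G v (f (jm v)) : ℝ) * Real.exp (-ε1)) ^ L t ≤
        av b v (phi xs (i0 v) (f (jm v)) t)) ∧
      |(xs (i0 none) t : ℝ)| = (htv fun c => xs c t : ℝ) ∧
      (∀ v, av b (some v) (xs (i0 (some v)) t : ℚ) = 1) ∧
      eval (x t) (u k0) ≠ 0 ∧ ∀ v, xs (i0 v) t ≠ 0 := by
    have e1 : ∀ᶠ t in (UU : Filter ℕ), ∀ v k, av b v (phi xs (i0 v) (u k) t) ≤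
        ((G v (u (km v)) : ℝ) * Real.exp ε1) ^ L t := by
      rw [Filter.eventually_all]
      intro v
      rw [Filter.eventually_all]
      exact hup v
    have e2 : ∀ᶠ t in (UU : Filter ℕ), ∀ v, ((G v (f (jm v)) : ℝ) * Real.exp (-ε1)) ^ L t ≤
        av b v (phi xs (i0 v) (f (jm v)) t) := by
      rw [Filter.eventually_all]
      exact hdown
    have e3 : ∀ᶠ t in (UU : Filter ℕ), ∀ v, xs (i0 v) t ≠ 0 := by
      rw [Filter.eventually_all]
      exact hx0
    exact e1.and (e2.and (hinf.and (hfin.and (hk0'.and e3))))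
  obtain ⟨t, h1, h2, h3, h4, h5, h5'⟩ := hev.exists
  have huniv : (insert none ((Finset.univ.filter fun v => b v ∈ S).image some)) =
      (Finset.univ : Finset (Option (Fin S.card))) := by
    ext v
    simp only [Finset.mem_insert, Finset.mem_image, Finset.mem_filter, Finset.mem_univ,
      true_and, iff_true]
    cases v with
    | none => exact Or.inl rfl
    | some v => exact Or.inr ⟨v, hbS v, rfl⟩
  have e1 := prox_eq hb hbi f df hf S hSb xs t i0 h3 h4
  have e2 := prox_eq hb hbi u du hu S hSb xs t i0 h3 h4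
  rw [hxst, huniv] at e1 e2
  have hA : ∀ v, L t * (Real.log (G v (f (jm v))) - ε1) ≤
      Real.log (⨆ j, av b v (phi xs (i0 v) (f j) t)) := by
    intro v
    have h6 : (0 : ℝ) < G v (f (jm v)) := NNReal.coe_pos.2 (hGf0 v _)
    have h7 : ((G v (f (jm v)) : ℝ) * Real.exp (-ε1)) ^ L t =
        Real.exp (L t * (Real.log (G v (f (jm v))) - ε1)) := by
      rw [← Real.exp_log h6, ← Real.exp_add, ← Real.exp_mul, Real.log_exp]
      congr 1
      ring
    have h8 := h2 v
    rw [h7] at h8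
    have h9 : av b v (phi xs (i0 v) (f (jm v)) t) ≤ ⨆ j, av b v (phi xs (i0 v) (f j) t) :=
      le_ciSup (f := fun j => av b v (phi xs (i0 v) (f j) t)) (Set.finite_range _).bddAbove (jm v)
    have h10 := h8.trans h9
    have h11 : 0 < ⨆ j, av b v (phi xs (i0 v) (f j) t) := lt_of_lt_of_le (Real.exp_pos _) h10
    rwa [← Real.exp_le_exp, Real.exp_log h11]
  have hB : ∀ v, Real.log (⨆ k, av b v (phi xs (i0 v) (u k) t)) ≤
      L t * (Real.log (G v (u (km v))) + ε1) := by
    intro v
    have h6 : (0 : ℝ) < G v (u (km v)) := NNReal.coe_pos.2 (lt_of_lt_of_le (hGu0 v) (hkm v k0))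
    have h7 : ((G v (u (km v)) : ℝ) * Real.exp ε1) ^ L t =
        Real.exp (L t * (Real.log (G v (u (km v))) + ε1)) := by
      rw [← Real.exp_log h6, ← Real.exp_add, ← Real.exp_mul, Real.log_exp]
      congr 1
      ring
    have h8 : ⨆ k, av b v (phi xs (i0 v) (u k) t) ≤
        Real.exp (L t * (Real.log (G v (u (km v))) + ε1)) := by
      rw [← h7]
      exact ciSup_le fun k => h1 v k
    have h9 : 0 < av b v (phi xs (i0 v) (u k0) t) := by
      refine av_pos hb v ?_
      rw [phi_hom xs (i0 v) _ _ (hu k0), hxst]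
      refine mul_ne_zero (pow_ne_zero _ (inv_ne_zero ?_)) (by exact_mod_cast h5)
      exact_mod_cast h5' v
    have h10 : 0 < ⨆ k, av b v (phi xs (i0 v) (u k) t) :=
      lt_of_lt_of_le h9 (le_ciSup (f := fun k => av b v (phi xs (i0 v) (u k) t))
        (Set.finite_range _).bddAbove k0)
    rw [← Real.log_exp (L t * (Real.log (G v (u (km v))) + ε1))]
    exact Real.log_le_log h10 h8
  have hAB : prox f df S (x t) - prox u du S (x t) ≤
      L t * (∑ v, ∑ j, c v (J v j) + 2 * ε1 * (S.card + 1)) := by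
    have h6 : prox f df S (x t) - prox u du S (x t) =
        ∑ v, (Real.log (⨆ k, av b v (phi xs (i0 v) (u k) t)) -
          Real.log (⨆ j, av b v (phi xs (i0 v) (f j) t))) := by
      rw [Finset.sum_sub_distrib, e1, e2]
      ring
    rw [h6]
    calc ∑ v, (Real.log (⨆ k, av b v (phi xs (i0 v) (u k) t)) -
          Real.log (⨆ j, av b v (phi xs (i0 v) (f j) t))) ≤
        ∑ v : Option (Fin S.card), L t * (∑ j, c v (J v j) + 2 * ε1) := by
          refine Finset.sum_le_sum fun v _ => ?_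
          have h7 := hA v
          have h8 := hB v
          have h9 := mul_le_mul_of_nonneg_left (hlim v) (hL0 t)
          nlinarith
      _ = _ := by
          rw [← Finset.mul_sum, Finset.sum_add_distrib, Finset.sum_const, Finset.card_univ,
            Fintype.card_option, Fintype.card_fin, nsmul_eq_mul]
          push_cast
          ring
  have h6 : 2 * ε1 * ((S.card : ℝ) + 1) = ε := by
    rw [← hD, hε1, mul_comm (2 : ℝ), mul_assoc, div_mul_cancel₀ _ (mul_pos two_pos hD0).ne']
  rw [h6] at hAB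
  have h7 := hlt t
  rw [← hLt] at h7
  have h8 : L t * (∑ v, ∑ j, c v (J v j) + ε) ≤ L t * (n + ε) :=
    mul_le_mul_of_nonneg_left (by linarith) (hL0 t)
  have h9 : (0 : ℝ) ≤ t := Nat.cast_nonneg t
  linarith

end

end Pool.Agent.Q13.MA
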