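import Mathlib
import Pool.Agent.Q13.MA.Weil

/-!
# Points nearly extremal for the subspace theorem: rigidity of the valuations
-/

set_option autoImplicit false
set_option linter.unusedSectionVars false
set_option linter.unusedVariables false

namespace Pool.Agent.Q13.MA

open Module Filter Topology Pool.Agent.TH932.Germs Pool.Agent.TH551.SU MvPolynomial
open Pool.Agent.TH551.HA Pool.Agent.Y731.MI Pool.Agent.Y724.Vj

section

variable {s : ℕ} {b : Fin s → ℕ} {L : ℕ → ℝ}

/-- the germ of a combination of integral sequences -/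
noncomputable def gv {ι : Type} [Fintype ι] (X : ι → ℕ → ℤ) (a : ι → ℚ) : GG :=
  gm fun t => ∑ i, a i * (X i t : ℚ)

lemma gv_sum {ι : Type} [Fintype ι] {κ : Type} (X : ι → ℕ → ℤ) (T : Finset κ) (c : κ → ℚ)
    (a : κ → ι → ℚ) : gv X (∑ k ∈ T, c k • a k) = ∑ k ∈ T, gm (fun _ => c k) * gv X (a k) := by
  classical
  induction T using Finset.induction_on with
  | empty =>
    rw [Finset.sum_empty, Finset.sum_empty]
    unfold gv
    rw [← gm_zero]
    congr 1
    funext t
    simp
  | insert k T hk ih =>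
    rw [Finset.sum_insert hk, Finset.sum_insert hk, ← ih]
    unfold gv
    rw [gm_mul, gm_add]
    congr 1
    funext t
    rw [Finset.mul_sum, ← Finset.sum_add_distrib]
    refine Finset.sum_congr rfl fun i _ => ?_
    rw [Pi.add_apply, Pi.smul_apply, smul_eq_mul]
    ring

/-- **the subspace theorem for a generic sequence of vectors** -/
theorem fix_vec (hb : ∀ v, (b v).Prime) (hbi : Function.Injective b)
    (hL : Tendsto L atTop atTop) {ι : Type} [Fintype ι] [DecidableEq ι] (X : ι → ℕ → ℤ)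
    (hX : ∀ a : ι → ℚ, (∀ᶠ t in (UU : Filter ℕ), ∑ i, a i * (X i t : ℚ) = 0) → a = 0)
    (G : Option (Fin s) → ι → ι → ℚ) (hG : ∀ v, LinearIndependent ℚ (G v))
    (w : Option (Fin s) → ι → ℝ)
    (hw : ∀ v i, gv X (G v i) ∈ SS L (Rw (wv b hb v)) (w v i)) : ∑ v, ∑ i, w v i ≤ 0 := by
  refine fixS b hb hbi L hL ι inferInstance (fun v i => gv X (G v i)) w ?_ ?_ hw ?_
  · intro v c hc i
    have h1 : gv X (∑ i, (c i : ℚ) • G v i) = 0 := by
      rw [gv_sum]
      exact hc
    have h2 := hX _ (by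
      rw [← gm_zero] at h1
      exact gm_eq.1 h1)
    have h3 := Fintype.linearIndependent_iff.1 (hG v) (fun i => (c i : ℚ)) h2 i
    exact_mod_cast h3
  · intro v i
    have hspan : Submodule.span ℚ (Set.range (G none)) = ⊤ :=
      (hG none).span_eq_top_of_card_eq_finrank' (by rw [finrank_fintype_fun_eq_card])
    have h1 : G v i ∈ Submodule.span ℚ (Set.range (G none)) := by rw [hspan]; trivial
    obtain ⟨c, hc⟩ := (Submodule.mem_span_range_iff_exists_fun ℚ).1 h1
    refine ⟨((∏ j, (c j).den : ℕ) : ℤ), ?_, fun j => (c j).num *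
      ((∏ k ∈ Finset.univ.erase j, (c k).den : ℕ) : ℤ), ?_⟩
    · have : (∏ j, (c j).den) ≠ 0 := Finset.prod_ne_zero_iff.2 fun j _ => (c j).den_nz
      exact_mod_cast this
    · show _ * gv X (G v i) = _
      rw [← hc, gv_sum, Finset.mul_sum]
      refine Finset.sum_congr rfl fun j _ => ?_
      rw [← mul_assoc, ← gm_int, ← gm_int, gm_mul]
      congr 2
      funext t
      rw [← Finset.mul_prod_erase _ _ (Finset.mem_univ j)]
      push_cast
      have h5 := Rat.num_div_den (c j)
      have h6 : ((c j).den : ℚ) ≠ 0 := by exact_mod_cast (c j).den_nz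
      rw [div_eq_iff h6] at h5
      rw [h5]
      ring
  · intro i
    show Sg L _ (gv X (G none i))
    have h1 : gv X (G none i) = ∑ j, gm (fun _ => G none i j) * gm (fun t => (X j t : ℚ)) := by
      have h2 : ∀ T : Finset ι, ∑ j ∈ T, gm (fun _ => G none i j) * gm (fun t => (X j t : ℚ)) =
          gm fun t => ∑ j ∈ T, G none i j * (X j t : ℚ) := by
        intro T
        induction T using Finset.induction_on with
        | empty => simp [gm_zero]
        | insert k T hk ih =>
          rw [Finset.sum_insert hk, ih, gm_mul, gm_add]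
          congr 1
          funext t
          rw [Finset.sum_insert hk]
      exact (h2 Finset.univ).symm
    rw [h1]
    exact Sg.sum hL _ _ fun j _ => Sg.mul (Sg.KK hL (gm_rat_mem hL _)) (Sg.int hL _)

variable {n : ℕ}

/-- the exponents of degree `d` -/
abbrev Ex (n d : ℕ) : Type := {α // α ∈ Finset.finsuppAntidiag (Finset.univ : Finset (Fin n)) d}

lemma Ex.sum_eq {d : ℕ} (α : Ex n d) : ∑ j, α.1 j = d := by
  have := α.2
  rw [Finset.mem_finsuppAntidiag] at this
  exact this.1

lemma mem_ex {d : ℕ} {α : Fin n →₀ ℕ} (h : ∑ j, α j = d) :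
    α ∈ Finset.finsuppAntidiag (Finset.univ : Finset (Fin n)) d := by
  rw [Finset.mem_finsuppAntidiag]
  exact ⟨h, Finset.subset_univ _⟩

lemma sum_coord (n d : ℕ) (j : Fin n) :
    (n : ℝ) * ∑ α : Ex n d, (α.1 j : ℝ) = d * Fintype.card (Ex n d) := by
  classical
  have hswap : ∀ k : Fin n, ∑ α : Ex n d, (α.1 k : ℝ) = ∑ α : Ex n d, (α.1 j : ℝ) := by
    intro k
    let e : Ex n d ≃ Ex n d :=
      { toFun := fun α => ⟨Finsupp.equivMapDomain (Equiv.swap j k) α.1, mem_ex
          ((Equiv.sum_comp (Equiv.swap j k).symm fun i => α.1 i).trans α.sum_eq)⟩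
        invFun := fun α => ⟨Finsupp.equivMapDomain (Equiv.swap j k) α.1, mem_ex
          ((Equiv.sum_comp (Equiv.swap j k).symm fun i => α.1 i).trans α.sum_eq)⟩
        left_inv := by
          intro α
          apply Subtype.ext
          ext i
          simp [Finsupp.equivMapDomain_apply]
        right_inv := by
          intro α
          apply Subtype.ext
          ext i
          simp [Finsupp.equivMapDomain_apply] }
    rw [← Equiv.sum_comp e]
    refine Finset.sum_congr rfl fun α _ => ?_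
    show ((Finsupp.equivMapDomain (Equiv.swap j k) α.1) k : ℝ) = _
    rw [Finsupp.equivMapDomain_apply, Equiv.symm_swap, Equiv.swap_apply_right]
  have h1 : (n : ℝ) * ∑ α : Ex n d, (α.1 j : ℝ) = ∑ k : Fin n, ∑ α : Ex n d, (α.1 k : ℝ) := by
    rw [Finset.sum_congr rfl fun k _ => hswap k, Finset.sum_const, Finset.card_univ,
      Fintype.card_fin, nsmul_eq_mul]
  rw [h1, Finset.sum_comm]
  have h2 : ∀ α : Ex n d, ∑ k : Fin n, (α.1 k : ℝ) = d := by
    intro α
    exact_mod_cast α.sum_eq
  rw [Finset.sum_congr rfl fun α _ => h2 α, Finset.sum_const, Finset.card_univ, nsmul_eq_mul,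
    mul_comm]

/-- the monomials of degree `d` of a sequence -/
def mX (x : Fin n → ℕ → ℤ) (d : ℕ) (α : Ex n d) (t : ℕ) : ℤ := ∏ j, x j t ^ α.1 j

/-- the coefficients of a form -/
noncomputable def cfv (d : ℕ) (Q : MvPolynomial (Fin n) ℚ) : Ex n d → ℚ := fun α => coeff α.1 Q

lemma hom_supp {R : Type*} [CommSemiring R] {d : ℕ} {Q : MvPolynomial (Fin n) R}
    (hQ : Q.IsHomogeneous d)
    {α : Fin n →₀ ℕ} (h : coeff α Q ≠ 0) : ∑ j, α j = d := by
  have h1 := hQ h
  rw [← h1, Finsupp.weight_apply, Finsupp.sum_fintype]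
  · refine Finset.sum_congr rfl fun j _ => ?_
    simp
  · intro i
    simp

lemma aeval_cfv (x : Fin n → ℕ → ℤ) (d : ℕ) (Q : MvPolynomial (Fin n) ℚ) (hQ : Q.IsHomogeneous d)
    (t : ℕ) : ∑ α : Ex n d, cfv d Q α * (mX x d α t : ℚ) = aeval (fun j => (x j t : ℚ)) Q := by
  classical
  rw [aeval_def, eval₂_eq']
  have h1 : ∑ α : Ex n d, cfv d Q α * (mX x d α t : ℚ) =
      ∑ α ∈ Finset.finsuppAntidiag (Finset.univ : Finset (Fin n)) d,
        coeff α Q * ∏ j, (x j t : ℚ) ^ α j := by
    rw [← Finset.sum_coe_sort (Finset.finsuppAntidiag (Finset.univ : Finset (Fin n)) d)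
      (fun α => coeff α Q * ∏ j, (x j t : ℚ) ^ α j)]
    refine Finset.sum_congr rfl fun α _ => ?_
    unfold cfv mX
    push_cast
    rfl
  rw [h1]
  symm
  refine Finset.sum_subset (fun α hα => mem_ex (hom_supp hQ (mem_support_iff.1 hα))) ?_
  intro α _ hα
  rw [notMem_support_iff.1 hα]
  simp

lemma aeval_mapZ (x : Fin n → ℤ) (Q : MvPolynomial (Fin n) ℤ) :
    aeval (fun j => (x j : ℚ)) (map (Int.castRingHom ℚ) Q : MvPolynomial (Fin n) ℚ) =
      ((eval x Q : ℤ) : ℚ) := by
  rw [← aevalZ, aeval_int]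

/-- generic sequences -/
def Gen (x : Fin n → ℕ → ℤ) : Prop :=
  ∀ (P : MvPolynomial (Fin n) ℤ) (e : ℕ), P.IsHomogeneous e → P ≠ 0 →
    ∀ᶠ t in (UU : Filter ℕ), eval (fun j => x j t) P ≠ 0

lemma gen_mX {x : Fin n → ℕ → ℤ} (hx : Gen x) (d : ℕ) (a : Ex n d → ℚ)
    (ha : ∀ᶠ t in (UU : Filter ℕ), ∑ α, a α * (mX x d α t : ℚ) = 0) : a = 0 := by
  classical
  by_contra hne
  -- clear the denominators
  set D : ℕ := ∏ α, (a α).den with hD
  have hD0 : (D : ℚ) ≠ 0 := by
    have : D ≠ 0 := Finset.prod_ne_zero_iff.2 fun α _ => (a α).den_nz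
    exact_mod_cast this
  have hint : ∀ α, ∃ z : ℤ, (z : ℚ) = D * a α := by
    intro α
    refine ⟨(a α).num * ((∏ k ∈ Finset.univ.erase α, (a k).den : ℕ) : ℤ), ?_⟩
    rw [hD, ← Finset.mul_prod_erase _ _ (Finset.mem_univ α)]
    push_cast
    have h5 := Rat.num_div_den (a α)
    have h6 : ((a α).den : ℚ) ≠ 0 := by exact_mod_cast (a α).den_nz
    rw [div_eq_iff h6] at h5
    rw [h5]
    ring
  choose z hz using hint
  let P : MvPolynomial (Fin n) ℤ := ∑ α : Ex n d, monomial α.1 (z α)
  have hP : P.IsHomogeneous d := by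
    refine IsHomogeneous.sum _ _ _ fun α _ => isHomogeneous_monomial _ ?_
    refine Eq.trans ?_ α.sum_eq
    rw [Finsupp.degree_apply]
    exact Finset.sum_subset (Finset.subset_univ _) fun j _ hj => Finsupp.notMem_support_iff.1 hj
  have hc : ∀ α : Ex n d, coeff α.1 P = z α := by
    intro α
    show coeff α.1 (∑ β : Ex n d, monomial β.1 (z β)) = _
    rw [coeff_sum, Finset.sum_eq_single α]
    · rw [coeff_monomial, if_pos rfl]
    · intro β _ hβ
      rw [coeff_monomial, if_neg fun h => hβ (Subtype.ext h)]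
    · intro h
      exact absurd (Finset.mem_univ α) h
  have hP0 : P ≠ 0 := by
    intro h
    apply hne
    funext α
    have h1 := hc α
    rw [h, coeff_zero] at h1
    have h2 := hz α
    rw [← h1, Int.cast_zero] at h2
    exact (mul_eq_zero.1 h2.symm).resolve_left hD0
  obtain ⟨t, h1, h2⟩ := ((hx P d hP hP0).and ha).exists
  apply h1
  have h3 := aeval_cfv x d (map (Int.castRingHom ℚ) P) (hP.map _) t
  rw [aeval_mapZ (fun j => x j t)] at h3
  have h4 : ∑ α : Ex n d, cfv d (map (Int.castRingHom ℚ) P) α * (mX x d α t : ℚ) = 0 := by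
    have h5 : ∀ α : Ex n d, cfv d (map (Int.castRingHom ℚ) P) α * (mX x d α t : ℚ) =
        D * (a α * (mX x d α t : ℚ)) := by
      intro α
      unfold cfv
      rw [coeff_map, hc, eq_intCast, hz]
      ring
    rw [Finset.sum_congr rfl fun α _ => h5 α, ← Finset.mul_sum, h2, mul_zero]
  rw [h4] at h3
  exact_mod_cast h3.symm

/-- the change of the coordinates over the rational numbers -/
noncomputable def psiQ (B : Matrix (Fin n) (Fin n) ℚ) :
    MvPolynomial (Fin n) ℚ →ₐ[ℚ] MvPolynomial (Fin n) ℚ :=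
  aeval fun i => ∑ j, C (B i j) * X j

lemma psiQ_map (B : Matrix (Fin n) (Fin n) ℚ) (P : MvPolynomial (Fin n) ℤ) :
    psiQ B (map (Int.castRingHom ℚ) P) = psi B P := by
  have h : (psiQ B).toRingHom.comp (map (Int.castRingHom ℚ)) = psi B := by
    apply MvPolynomial.ringHom_ext
    · intro c
      simp [psiQ, psi]
    · intro i
      simp [psiQ, psi]
  exact congrArg (fun f : MvPolynomial (Fin n) ℤ →+* MvPolynomial (Fin n) ℚ => f P) h

/-- linear independence of the coefficient vectors -/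
lemma li_cfv (B : Matrix (Fin n) (Fin n) ℚ) (d : ℕ) (Q : Ex n d → MvPolynomial (Fin n) ℤ)
    (hQ : ∀ α, (Q α).IsHomogeneous d)
    (hli : ∀ κ : Ex n d → ℚ, ∑ α, κ α • psi B (Q α) = 0 → ∀ α, κ α = 0) :
    LinearIndependent ℚ fun α => cfv d (map (Int.castRingHom ℚ) (Q α)) := by
  classical
  rw [Fintype.linearIndependent_iff]
  intro κ hκ
  apply hli κ
  have h1 : ∑ α, κ α • map (Int.castRingHom ℚ) (Q α) = (0 : MvPolynomial (Fin n) ℚ) := by
    apply MvPolynomial.ext
    intro β
    rw [coeff_sum, coeff_zero]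
    by_cases hβ : ∑ j, β j = d
    · have h2 := congrFun hκ ⟨β, mem_ex hβ⟩
      rw [Finset.sum_apply, Pi.zero_apply] at h2
      rw [← h2]
      refine Finset.sum_congr rfl fun α _ => ?_
      rw [coeff_smul]
      rfl
    · refine Finset.sum_eq_zero fun α _ => ?_
      rw [coeff_smul]
      by_contra h3
      have h4 : coeff β (map (Int.castRingHom ℚ) (Q α) : MvPolynomial (Fin n) ℚ) ≠ 0 := by
        intro h5
        rw [h5, smul_zero] at h3
        exact h3 rfl
      exact hβ (hom_supp ((hQ α).map _) h4)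
  have h2 := congrArg (psiQ B) h1
  rw [map_sum, map_zero] at h2
  rw [← h2]
  refine Finset.sum_congr rfl fun α _ => ?_
  rw [map_smul, psiQ_map]

/-- the monomials in the linear forms -/
noncomputable def Ymon (A : Matrix (Fin n) (Fin n) ℤ) (α : Fin n →₀ ℕ) :
    MvPolynomial (Fin n) ℤ := ∏ j, lf (A j) ^ α j

lemma Ymon_hom (A : Matrix (Fin n) (Fin n) ℤ) {d : ℕ} (α : Ex n d) :
    (Ymon A α.1).IsHomogeneous d := by
  have h1 := IsHomogeneous.prod Finset.univ (fun j => lf (A j) ^ α.1 j) (fun j => 1 * α.1 j)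
    fun j _ => (lf_hom (A j)).pow _
  have h2 : ∑ j, 1 * α.1 j = d := by
    have h3 := α.sum_eq
    simpa using h3
  rw [h2] at h1
  exact h1

lemma psi_Ymon (A : Matrix (Fin n) (Fin n) ℤ) (B : Matrix (Fin n) (Fin n) ℚ)
    (hAB : AQ A * B = 1) (α : Fin n →₀ ℕ) : psi B (Ymon A α) = monomial α 1 := by
  unfold Ymon
  rw [map_prod, monomial_eq, C_1, one_mul, Finsupp.prod_fintype]
  · refine Finset.prod_congr rfl fun j _ => ?_
    rw [map_pow, psi_row A B hAB]
  · intro i
    rw [pow_zero]

/-- germs of products -/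
lemma SS_pow (hL : Tendsto L atTop atTop) (hb : ∀ v, (b v).Prime) (v : Option (Fin s)) {g : GG}
    {t : ℝ} (hg : g ∈ SS L (Rw (wv b hb v)) t) (k : ℕ) :
    g ^ k ∈ SS L (Rw (wv b hb v)) (k * t) := by
  have h := (filt_w hL b hb v).pow_mem hg k
  rwa [mul_comm] at h

lemma SS_prod (hL : Tendsto L atTop atTop) (hb : ∀ v, (b v).Prime) (v : Option (Fin s))
    {κ : Type} (T : Finset κ) (g : κ → GG) (c : κ → ℝ)
    (hg : ∀ k ∈ T, g k ∈ SS L (Rw (wv b hb v)) (c k)) :
    ∏ k ∈ T, g k ∈ SS L (Rw (wv b hb v)) (∑ k ∈ T, c k) := by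
  classical
  induction T using Finset.induction_on with
  | empty =>
    rw [Finset.prod_empty, Finset.sum_empty]
    have h := (filt_w hL b hb v).alg_mem 1
    rwa [map_one] at h
  | insert k T hk ih =>
    rw [Finset.prod_insert hk, Finset.sum_insert hk]
    exact (filt_w hL b hb v).mul_mem (hg k (Finset.mem_insert_self _ _))
      (ih fun i hi => hg i (Finset.mem_insert_of_mem hi))

/-- the germ of the values of a polynomial -/
noncomputable def gp (x : Fin n → ℕ → ℤ) (P : MvPolynomial (Fin n) ℤ) : GG :=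
  gm fun t => ((eval (fun j => x j t) P : ℤ) : ℚ)

lemma gp_mul (x : Fin n → ℕ → ℤ) (P Q : MvPolynomial (Fin n) ℤ) :
    gp x (P * Q) = gp x P * gp x Q := by
  unfold gp
  rw [gm_mul]
  congr 1
  funext t
  rw [map_mul]
  push_cast
  rfl

lemma gp_one (x : Fin n → ℕ → ℤ) : gp x 1 = 1 := by
  unfold gp
  rw [← gm_one]
  congr 1
  funext t
  simp

lemma gp_pow (x : Fin n → ℕ → ℤ) (P : MvPolynomial (Fin n) ℤ) (k : ℕ) :
    gp x (P ^ k) = gp x P ^ k := by
  induction k with
  | zero => rw [pow_zero, pow_zero, gp_one]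
  | succ k ih => rw [pow_succ, gp_mul, ih, pow_succ]

lemma gp_prod {κ : Type} (x : Fin n → ℕ → ℤ) (T : Finset κ) (P : κ → MvPolynomial (Fin n) ℤ) :
    gp x (∏ k ∈ T, P k) = ∏ k ∈ T, gp x (P k) := by
  classical
  induction T using Finset.induction_on with
  | empty => rw [Finset.prod_empty, Finset.prod_empty, gp_one]
  | insert k T hk ih => rw [Finset.prod_insert hk, Finset.prod_insert hk, gp_mul, ih]

lemma gv_cfv (x : Fin n → ℕ → ℤ) (d : ℕ) (P : MvPolynomial (Fin n) ℤ) (hP : P.IsHomogeneous d) :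
    gv (mX x d) (cfv d (map (Int.castRingHom ℚ) P)) = gp x P := by
  unfold gv gp
  congr 1
  funext t
  rw [aeval_cfv x d _ (hP.map _) t, aeval_mapZ (fun j => x j t)]

/-- **rigidity**: at the points nearly extremal for the subspace theorem no form is smaller than its
monomials -/
theorem rigid (hb : ∀ v, (b v).Prime) (hbi : Function.Injective b)
    (hL : Tendsto L atTop atTop) (hn : 0 < n) (x : Fin n → ℕ → ℤ) (hx : Gen x)
    (A : Option (Fin s) → Matrix (Fin n) (Fin n) ℤ) (B : Option (Fin s) → Matrix (Fin n) (Fin n) ℚ)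
    (hAB : ∀ v, AQ (A v) * B v = 1) (c : Option (Fin s) → Fin n → ℝ)
    (hc : ∀ v j, gp x (lf (A v j)) ∈ SS L (Rw (wv b hb v)) (c v j - sg v))
    (hsum : (n : ℝ) ≤ ∑ v, ∑ j, c v j) (v0 : Option (Fin s)) (P : MvPolynomial (Fin n) ℤ) (d : ℕ)
    (hP : P.IsHomogeneous d) (α0 : Fin n →₀ ℕ) (hα0 : coeff α0 (psi (B v0) P) ≠ 0)
    (hdα : ∑ j, α0 j = d) (τ : ℝ)
    (hτ : gp x P ∈ SS L (Rw (wv b hb v0)) (τ - d * sg v0)) :
    τ ≤ ∑ j, (α0 j : ℝ) * c v0 j := by
  classical
  let α1 : Ex n d := ⟨α0, mem_ex hdα⟩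
  let Q : Option (Fin s) → Ex n d → MvPolynomial (Fin n) ℤ := fun v α =>
    if v = v0 ∧ α = α1 then P else Ymon (A v) α.1
  have hQ : ∀ v α, (Q v α).IsHomogeneous d := by
    intro v α
    show (if v = v0 ∧ α = α1 then P else Ymon (A v) α.1).IsHomogeneous d
    split_ifs
    · exact hP
    · exact Ymon_hom _ α
  let w : Option (Fin s) → Ex n d → ℝ := fun v α =>
    (∑ j, (α.1 j : ℝ) * c v j - d * sg v) +
      if v = v0 ∧ α = α1 then τ - ∑ j, (α0 j : ℝ) * c v0 j else 0
  have hY : ∀ v (α : Ex n d), gp x (Ymon (A v) α.1) ∈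
      SS L (Rw (wv b hb v)) (∑ j, (α.1 j : ℝ) * c v j - d * sg v) := by
    intro v α
    unfold Ymon
    rw [gp_prod]
    have h1 := SS_prod hL hb v Finset.univ (fun j => gp x (lf (A v j) ^ α.1 j))
      (fun j => (α.1 j : ℝ) * (c v j - sg v)) (fun j _ => by
        rw [gp_pow]
        exact SS_pow hL hb v (hc v j) _)
    have h2 : ∑ j, (α.1 j : ℝ) * (c v j - sg v) = ∑ j, (α.1 j : ℝ) * c v j - d * sg v := by
      have h3 : (∑ j, (α.1 j : ℝ)) = d := by exact_mod_cast α.sum_eq
      rw [← h3, Finset.sum_mul, ← Finset.sum_sub_distrib]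
      refine Finset.sum_congr rfl fun j _ => by ring
    rw [h2] at h1
    exact h1
  have key := fix_vec hb hbi hL (mX x d) (gen_mX hx d)
    (fun v α => cfv d (map (Int.castRingHom ℚ) (Q v α))) (fun v => li_cfv (B v) d (Q v) (hQ v) (by
      intro κ hκ
      -- the value at `α1` first
      have hmon : ∀ α, ¬ (v = v0 ∧ α = α1) → psi (B v) (Q v α) = monomial α.1 1 := by
        intro α hα
        show psi (B v) (if v = v0 ∧ α = α1 then P else Ymon (A v) α.1) = _
        rw [if_neg hα, psi_Ymon _ _ (hAB v)]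
      have hcoef : ∀ α β : Ex n d, ¬ (v = v0 ∧ β = α1) →
          coeff α.1 (psi (B v) (Q v β)) = if β = α then 1 else 0 := by
        intro α β hβ
        rw [hmon β hβ, coeff_monomial]
        by_cases h : β = α
        · rw [if_pos h, if_pos (congrArg Subtype.val h)]
        · rw [if_neg h, if_neg fun h' => h (Subtype.ext h')]
      by_cases hv : v = v0
      · have h1 : κ α1 = 0 := by
          have h2 := congrArg (coeff α1.1) hκ
          rw [coeff_sum, coeff_zero, Finset.sum_eq_single α1] at h2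
          · rw [coeff_smul, smul_eq_mul] at h2
            refine (mul_eq_zero.1 h2).resolve_right ?_
            show coeff α0 (psi (B v) (if v = v0 ∧ α1 = α1 then P else Ymon (A v) α1.1)) ≠ 0
            rw [if_pos ⟨hv, rfl⟩, hv]
            exact hα0
          · intro β _ hβ
            rw [coeff_smul, hcoef α1 β (fun h => hβ h.2), if_neg hβ, smul_zero]
          · intro h
            exact absurd (Finset.mem_univ α1) h
        intro α
        by_cases hα : α = α1
        · rw [hα, h1]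
        · have h2 := congrArg (coeff α.1) hκ
          rw [coeff_sum, coeff_zero, Finset.sum_eq_single α] at h2
          · rw [coeff_smul, hcoef α α (fun h => hα h.2), if_pos rfl, smul_eq_mul, mul_one] at h2
            exact h2
          · intro β _ hβ
            by_cases hβ1 : β = α1
            · rw [hβ1, h1, zero_smul, coeff_zero]
            · rw [coeff_smul, hcoef α β (fun h => hβ1 h.2), if_neg hβ, smul_zero]
          · intro h
            exact absurd (Finset.mem_univ α) h
      · intro α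
        have h2 := congrArg (coeff α.1) hκ
        rw [coeff_sum, coeff_zero, Finset.sum_eq_single α] at h2
        · rw [coeff_smul, hcoef α α (fun h => hv h.1), if_pos rfl, smul_eq_mul, mul_one] at h2
          exact h2
        · intro β _ hβ
          rw [coeff_smul, hcoef α β (fun h => hv h.1), if_neg hβ, smul_zero]
        · intro h
          exact absurd (Finset.mem_univ α) h)) w (by
      intro v α
      rw [gv_cfv x d _ (hQ v α)]
      show gp x (if v = v0 ∧ α = α1 then P else Ymon (A v) α.1) ∈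
        SS L (Rw (wv b hb v)) ((∑ j, (α.1 j : ℝ) * c v j - d * sg v) +
          if v = v0 ∧ α = α1 then τ - ∑ j, (α0 j : ℝ) * c v0 j else 0)
      by_cases h : v = v0 ∧ α = α1
      · rw [if_pos h, if_pos h]
        obtain ⟨h1, h2⟩ := h
        subst h1
        subst h2
        have h3 : (∑ j, (α1.1 j : ℝ) * c v j - d * sg v) +
            (τ - ∑ j, (α0 j : ℝ) * c v j) = τ - d * sg v := by
          show (∑ j, (α0 j : ℝ) * c v j - d * sg v) +
            (τ - ∑ j, (α0 j : ℝ) * c v j) = τ - d * sg v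
          ring
        rw [h3]
        exact hτ
      · rw [if_neg h, if_neg h, add_zero]
        exact hY v α)
  -- the sum
  have h1 : ∑ v, ∑ α, w v α = ∑ v, ∑ α : Ex n d, (∑ j, (α.1 j : ℝ) * c v j - d * sg v) +
      (τ - ∑ j, (α0 j : ℝ) * c v0 j) := by
    have h2 : ∀ v, ∑ α, w v α = ∑ α : Ex n d, (∑ j, (α.1 j : ℝ) * c v j - d * sg v) +
        if v = v0 then τ - ∑ j, (α0 j : ℝ) * c v0 j else 0 := by
      intro v
      show ∑ α : Ex n d, ((∑ j, (α.1 j : ℝ) * c v j - d * sg v) +
        if v = v0 ∧ α = α1 then τ - ∑ j, (α0 j : ℝ) * c v0 j else 0) = _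
      rw [Finset.sum_add_distrib]
      congr 1
      by_cases hv : v = v0
      · rw [if_pos hv, Finset.sum_eq_single α1]
        · rw [if_pos ⟨hv, rfl⟩]
        · intro β _ hβ
          rw [if_neg fun h => hβ h.2]
        · intro h
          exact absurd (Finset.mem_univ α1) h
      · rw [if_neg hv]
        exact Finset.sum_eq_zero fun β _ => if_neg fun h => hv h.1
    rw [Finset.sum_congr rfl fun v _ => h2 v, Finset.sum_add_distrib]
    congr 1
    rw [Finset.sum_ite_eq' Finset.univ v0]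
    simp
  have hn' : (0 : ℝ) < n := by exact_mod_cast hn
  have h2 : (n : ℝ) * ∑ v, ∑ α : Ex n d, (∑ j, (α.1 j : ℝ) * c v j - d * sg v) =
      (d * Fintype.card (Ex n d)) * (∑ v, ∑ j, c v j - n) := by
    have h3 : ∀ v : Option (Fin s), (n : ℝ) * ∑ α : Ex n d, (∑ j, (α.1 j : ℝ) * c v j - d * sg v) =
        (d * Fintype.card (Ex n d)) * (∑ j, c v j) - (d * Fintype.card (Ex n d)) * n * sg v := by
      intro v
      rw [Finset.sum_sub_distrib, Finset.sum_comm, Finset.sum_const, Finset.card_univ,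
        nsmul_eq_mul, mul_sub, Finset.mul_sum, Finset.mul_sum]
      congr 1
      · refine Finset.sum_congr rfl fun j _ => ?_
        rw [← Finset.sum_mul, ← mul_assoc, sum_coord]
      · ring
    rw [Finset.mul_sum, Finset.sum_congr rfl fun v _ => h3 v, Finset.sum_sub_distrib,
      ← Finset.mul_sum, ← Finset.mul_sum, sum_sg]
    ring
  have h4 : 0 ≤ ∑ v, ∑ α : Ex n d, (∑ j, (α.1 j : ℝ) * c v j - d * sg v) := by
    have h5 : 0 ≤ (n : ℝ) * ∑ v, ∑ α : Ex n d, (∑ j, (α.1 j : ℝ) * c v j - d * sg v) := by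
      rw [h2]
      exact mul_nonneg (by positivity) (by linarith)
    exact nonneg_of_mul_nonneg_right h5 hn'
  rw [h1] at key
  linarith

end

end Pool.Agent.Q13.MA
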