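import Mathlib
import Pool.Agent.Q13.MA.Rig
import Pool.Agent.Q13.MA.Main

/-!
# Vojta's inequality with multiplier ideals at the points nearly extremal for the subspace theorem
-/

set_option autoImplicit false
set_option linter.unusedSectionVars false
set_option linter.unusedVariables false

namespace Pool.Agent.Q13.MA

open Module Filter Topology Pool.Agent.TH932.Germs Pool.Agent.TH551.SU MvPolynomial
open Pool.Agent.TH551.HA Pool.Agent.Y731.MI Pool.Agent.Y724.Vj Pool.Agent.Y731.GV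
open Pool.Agent.TH551.SU.Ht Pool.Agent.TH551.SU.CRV

section

variable {n q : ℕ}

lemma psi_hom (B : Matrix (Fin n) (Fin n) ℚ) (P : MvPolynomial (Fin n) ℤ) (d : ℕ)
    (hP : P.IsHomogeneous d) : (psi B P).IsHomogeneous d := by
  have h := hP.eval₂ ((C : ℚ →+* MvPolynomial (Fin n) ℚ).comp (Int.castRingHom ℚ))
    (fun i => ∑ j, C (B i j) * X j) (fun c => isHomogeneous_C _ _) (n := 1) (fun i => by
      refine IsHomogeneous.sum _ _ _ fun j _ => ?_
      have h := (isHomogeneous_C (Fin n) (B i j)).mul (isHomogeneous_X ℚ j)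
      rwa [zero_add] at h)
  rw [one_mul] at h
  exact h

variable {s : ℕ} {b : Fin s → ℕ} {L : ℕ → ℝ}

/-- the monomial valuation in given coordinates -/
theorem mono_props (hb : ∀ v, (b v).Prime) (hL : Tendsto L atTop atTop) (v : Option (Fin s))
    (x : Fin n → ℕ → ℤ) (a : Fin n)
    (ha : ∀ᶠ t in (UU : Filter ℕ), ∀ c, av b v (x c t : ℚ) ≤ av b v (x a t : ℚ))
    (ha0 : ∀ᶠ t in (UU : Filter ℕ), x a t ≠ 0)
    (A : Matrix (Fin n) (Fin n) ℤ) (B : Matrix (Fin n) (Fin n) ℚ) (hAB : AQ A * B = 1)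
    (r : Fin n → NNReal) (hr : ∀ j, 0 < r j)
    (hrγ : ∀ j, (r j : ℝ) = lmv b v L (phi x a (lf (A j)))) :
    IsPl (lval B r hr) ∧
      (∀ P, gval hb hL v (phi x a) (md_phi hb hL x a v ha) P ≤ lval B r hr P) ∧
      ∀ ρ, LogD (lval B r hr) ρ → ∏ j, r j ≤ ρ := by
  classical
  have hy : ∀ j, Md b v L (phi x a (lf (A j))) := fun j => md_phi hb hL x a v ha _
  have hcmp : ∀ P, gval hb hL v (phi x a) (md_phi hb hL x a v ha) P ≤ lval B r hr P := by
    intro P
    have h1 := gval_le_mw hb hL v (fun j => phi x a (lf (A j))) hy r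
      (fun j => (hrγ j).ge) (psi B P)
    refine le_trans (le_of_eq ?_) h1
    apply NNReal.coe_injective
    rw [gval_coe, gval_coe, phiY_psi A B hAB]
  have hC : ∀ c : ℤ, c ≠ 0 → lval B r hr (C c) = 1 := by
    intro c hc
    rw [lval_apply, psi_C]
    exact mw_C r (by exact_mod_cast hc)
  have hgX : ∀ c, gval hb hL v (phi x a) (md_phi hb hL x a v ha) (X c) ≤ 1 := by
    intro c
    rw [← NNReal.coe_le_coe, gval_coe, NNReal.coe_one, ← Real.exp_zero]
    refine lmv_le hb hL ?_
    filter_upwards [ha] with t ht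
    rw [zero_mul, Real.exp_zero, phi_apply, aeval_X, div_eq_mul_inv, av_mul hb, av_inv hb,
      ← div_eq_mul_inv]
    exact div_le_one_of_le₀ (ht c) (av_nonneg hb _ _)
  have hgC : ∀ c : ℤ, c ≠ 0 →
      gval hb hL v (phi x a) (md_phi hb hL x a v ha) (C c) = 1 := by
    intro c hc
    apply NNReal.coe_injective
    rw [gval_coe]
    have h : phi x a (C c) = fun _ => (c : ℚ) := by
      funext t
      rw [phi_apply, aeval_C]
      simp
    rw [h, lmv_const hb hL (by exact_mod_cast hc)]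
    rfl
  have hγ1 : ∀ i, r i ≤ 1 := by
    intro i
    have h1 : r i = gval hb hL v (phi x a) (md_phi hb hL x a v ha) (lf (A i)) := by
      apply NNReal.coe_injective
      rw [gval_coe, hrγ]
    rw [h1]
    unfold lf
    refine Valuation.map_sum_le _ fun c _ => ?_
    rw [map_mul]
    by_cases h0 : A i c = 0
    · rw [h0, C_0, map_zero, zero_mul]
      exact bot_le
    · rw [hgC _ h0, one_mul]
      exact hgX c
  have hwX : ∀ c, lval B r hr (X c) ≤ 1 := by
    intro c
    rw [lval_apply, psi_X, mw_le_iff]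
    intro α hα
    obtain ⟨j, hj⟩ : ∃ j, α = Finsupp.single j 1 := by
      by_contra hno
      push Not at hno
      apply hα
      rw [coeff_sum]
      refine Finset.sum_eq_zero fun j _ => ?_
      rw [coeff_C_mul, coeff_X, if_neg (fun h => hno j h.symm), mul_zero]
    rw [hj, mu_single]
    exact hγ1 _
  refine ⟨⟨hC, hwX, ⟨a, le_antisymm (hwX a) ?_⟩, ?_⟩, hcmp, ?_⟩
  · refine le_trans (le_of_eq ?_) (hcmp (X a))
    symm
    apply NNReal.coe_injective
    rw [gval_coe]
    have h : lmv b v L (phi x a (X a)) = lmv b v L (fun _ => (1 : ℚ)) := by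
      refine lmv_congr ?_
      filter_upwards [ha0] with t ht
      rw [phi_apply, aeval_X]
      exact div_self (by exact_mod_cast ht)
    rw [h, lmv_const hb hL one_ne_zero]
    rfl
  · intro P e _
    rw [lval_apply, mw_eq_zero hr]
    constructor
    · intro h
      exact psi_injective A B hAB (by rw [h, map_zero])
    · intro h
      rw [h, map_zero]
  · intro ρ hρ
    refine le_of_forall_gt_imp_ge_of_dense fun ρ' hρ' => ?_
    obtain ⟨T, e, q', h, p, _, hq', hh, hp, hid⟩ := hρ ρ' hρ'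
    exact disc A B hAB r hr ρ' T q' h p hq' (fun k => (hh k).2) (fun k i => (hp k i).2) hid

lemma lf_ne_zero {a : Fin n → ℤ} (ha : a ≠ 0) : lf a ≠ 0 := by
  classical
  intro h
  apply ha
  funext j
  have h2 : eval (Pi.single j (1 : ℤ)) (lf a) = 0 := by rw [h, map_zero]
  unfold lf at h2
  rw [map_sum, Finset.sum_eq_single j] at h2
  · rw [map_mul, eval_C, eval_X, Pi.single_eq_same, mul_one] at h2
    exact h2
  · intro k _ hk
    rw [map_mul, eval_C, eval_X, Pi.single_eq_of_ne hk, mul_zero]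
  · intro h
    exact absurd (Finset.mem_univ j) h

/-- a generic sequence is not in a subspace -/
lemma gen_lin {x : Fin n → ℕ → ℤ} (hx : Gen x) (a : Fin n → ℚ)
    (ha : ∀ᶠ t in (UU : Filter ℕ), ∑ i, a i * (x i t : ℚ) = 0) : a = 0 := by
  classical
  by_contra hne
  set D : ℕ := ∏ α, (a α).den with hD
  have hD0 : (D : ℚ) ≠ 0 := by
    have : D ≠ 0 := Finset.prod_ne_zero_iff.2 fun α _ => (a α).den_nz
    exact_mod_cast this
  have hint : ∀ α, ∃ z : ℤ, (z : ℚ) = D * a α := by
    intro α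
    refine ⟨(a α).num * ((∏ k ∈ Finset.univ.erase α, (a k).den : ℕ) : ℤ), ?_⟩
    rw [hD, ← Finset.mul_prod_erase _ _ (Finset.mem_univ α)]
    push_cast
    have h5 := Rat.num_div_den (a α)
    have h6 : ((a α).den : ℚ) ≠ 0 := by exact_mod_cast (a α).den_nz
    rw [div_eq_iff h6] at h5
    rw [h5]
    ring
  choose z hz using hint
  have hz0 : z ≠ 0 := by
    intro h
    apply hne
    funext i
    have h2 := hz i
    rw [h, Pi.zero_apply, Int.cast_zero] at h2
    exact (mul_eq_zero.1 h2.symm).resolve_left hD0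
  obtain ⟨t, h1, h2⟩ := ((hx (lf z) 1 (lf_hom z) (lf_ne_zero hz0)).and ha).exists
  apply h1
  have h3 : ((eval (fun j => x j t) (lf z) : ℤ) : ℚ) = 0 := by
    unfold lf
    rw [map_sum]
    push_cast
    have h4 : ∀ i, ((eval (fun j => x j t) (C (z i) * X i) : ℤ) : ℚ) =
        D * (a i * (x i t : ℚ)) := by
      intro i
      rw [map_mul, eval_C, eval_X]
      push_cast
      rw [hz]
      ring
    rw [Finset.sum_congr rfl fun i _ => h4 i, ← Finset.mul_sum, h2, mul_zero]
  exact_mod_cast h3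

/-- how close `x` is to the forms `J` -/
noncomputable def prx (Λ : Fin q → Fin n → ℤ) (S : Finset ℕ) (J0 : Fin n → Fin q)
    (J : ℕ → Fin n → Fin q) (x : Fin n → ℤ) : ℝ :=
  ∑ j, Real.log ((htv x : ℝ) / |((eval x (lf (Λ (J0 j))) : ℤ) : ℝ)|) +
    ∑ p ∈ S, ∑ j, -Real.log ((padicNorm p ((eval x (lf (Λ (J p j))) : ℤ) : ℚ) : ℚ) : ℝ)

/-- **Vojta's inequality with multiplier ideals at the points nearly extremal for the subspace
theorem** -/
theorem exMain (hn : 0 < n) (Λ : Fin q → Fin n → ℤ) (hΛ : ∀ i, Λ i ≠ 0) (a r : ℕ)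
    (f : Fin a → MvPolynomial (Fin n) ℤ) (df : Fin a → ℕ)
    (hf : ∀ j, (f j).IsHomogeneous (df j)) (j0 : Fin a) (hj0 : f j0 ≠ 0)
    (u : Fin r → MvPolynomial (Fin n) ℤ) (du : Fin r → ℕ) (hu : ∀ j, (u j).IsHomogeneous (du j))
    (k0 : Fin r) (hk0 : u k0 ≠ 0)
    (hmult : ∀ j, InMul f (u j)) (S : Finset ℕ) (hS : ∀ p ∈ S, p.Prime) (ε : ℝ)
    (hε : 0 < ε) :
    ∃ (δ : ℝ) (Φ : MvPolynomial (Fin n) ℤ) (C : ℝ), 0 < δ ∧ (∃ e, Φ.IsHomogeneous e) ∧ Φ ≠ 0 ∧
      ∀ x : Fin n → ℤ, Finset.univ.gcd x = 1 → eval x Φ ≠ 0 →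
      ∀ (J0 : Fin n → Fin q) (J : ℕ → Fin n → Fin q),
        LinearIndependent ℚ (fun j => fun i => (Λ (J0 j) i : ℚ)) →
        (∀ p ∈ S, LinearIndependent ℚ (fun j => fun i => (Λ (J p j) i : ℚ))) →
        ((n : ℝ) - δ) * Real.log (htv x) ≤ prx Λ S J0 J x →
        prox f df S x - prox u du S x ≤ (n + ε) * Real.log (htv x) + C := by
  classical
  obtain ⟨cu, hcu0, hcu⟩ := le_prox u du hu
  by_contra hcon
  push Not at hcon
  -- an enumeration of the forms
  let T : Type := {P : MvPolynomial (Fin n) ℤ // (∃ e, P.IsHomogeneous e) ∧ P ≠ 0}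
  have hT : Nonempty T := ⟨⟨1, ⟨0, MvPolynomial.isHomogeneous_one _ _⟩, one_ne_zero⟩⟩
  obtain ⟨gg, hg⟩ := exists_surjective_nat T
  set GG' : ℕ → MvPolynomial (Fin n) ℤ := fun t =>
    (f j0 * u k0 * ∏ i, lf (Λ i)) * ∏ i ∈ Finset.range (t + 1), (gg i).1 with hGG'
  have hlf0 : ∀ i, lf (Λ i) ≠ 0 := fun i => lf_ne_zero (hΛ i)
  have hGh : ∀ t, ∃ e, (GG' t).IsHomogeneous e := by
    intro t
    choose e' he' using fun i => (gg i).2.1
    exact ⟨_, (((hf j0).mul (hu k0)).mul (MvPolynomial.IsHomogeneous.prod _ _ _ fun i _ =>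
      lf_hom (Λ i))).mul (MvPolynomial.IsHomogeneous.prod _ _ _ fun i _ => he' i)⟩
  have hG0 : ∀ t, GG' t ≠ 0 := by
    intro t
    refine mul_ne_zero (mul_ne_zero (mul_ne_zero hj0 hk0)
      (Finset.prod_ne_zero_iff.2 fun i _ => hlf0 i)) ?_
    exact Finset.prod_ne_zero_iff.2 fun i _ => (gg i).2.2
  choose x hgcd hΦ J0 J hJ0 hJ hext hlt using fun t : ℕ =>
    hcon (1 / ((t : ℝ) + 1)) (GG' t) (t : ℝ) (by positivity) (hGh t) (hG0 t)
  have hz : ∀ t, eval (x t) (f j0) ≠ 0 ∧ eval (x t) (u k0) ≠ 0 ∧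
      (∀ i, eval (x t) (lf (Λ i)) ≠ 0) ∧ ∀ i ≤ t, eval (x t) (gg i).1 ≠ 0 := by
    intro t
    have h1 := hΦ t
    simp only [hGG', map_mul, map_prod] at h1
    have h2 := left_ne_zero_of_mul h1
    refine ⟨left_ne_zero_of_mul (left_ne_zero_of_mul h2),
      right_ne_zero_of_mul (left_ne_zero_of_mul h2), fun i => ?_, fun i hi => ?_⟩
    · exact Finset.prod_ne_zero_iff.1 (right_ne_zero_of_mul h2) i (Finset.mem_univ i)
    · exact Finset.prod_ne_zero_iff.1 (right_ne_zero_of_mul h1) i (Finset.mem_range.2 (by omega))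
  -- the heights
  have hle : ∀ t c, |(x t c : ℝ)| ≤ (htv (x t) : ℝ) := by
    intro t c
    have h4 : (x t c).natAbs ≤ htv (x t) :=
      Finset.le_sup (f := fun i => (x t i).natAbs) (Finset.mem_univ c)
    have h5 : ((x t c).natAbs : ℝ) ≤ (htv (x t) : ℝ) := by exact_mod_cast h4
    rwa [Nat.cast_natAbs, Int.cast_abs] at h5
  have hex0 : ∀ t, ∃ c, x t c ≠ 0 := by
    intro t
    by_contra hno
    push Not at hno
    have h6 : Finset.univ.gcd (x t) = 0 := Finset.gcd_eq_zero_iff.2 fun c _ => hno c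
    have h5 := hgcd t
    rw [h6] at h5
    exact zero_ne_one h5
  have hne : Nonempty (Fin n) := ⟨(hex0 0).choose⟩
  have hH1 : ∀ t, (1 : ℝ) ≤ htv (x t) := by
    intro t
    obtain ⟨c, hc⟩ := hex0 t
    have h1 : (1 : ℝ) ≤ |(x t c : ℝ)| := by exact_mod_cast Int.one_le_abs hc
    exact h1.trans (hle t c)
  have hHp : ∀ t, (0 : ℝ) < htv (x t) := fun t => by linarith [hH1 t]
  obtain ⟨L, hLdef⟩ : ∃ L : ℕ → ℝ, L = fun t => Real.log (htv (x t)) := ⟨_, rfl⟩
  have hLt : ∀ t, L t = Real.log (htv (x t)) := fun t => by rw [hLdef]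
  have hL0 : ∀ t, 0 ≤ L t := fun t => by rw [hLt]; exact Real.log_nonneg (hH1 t)
  have hHL : ∀ t, (htv (x t) : ℝ) = Real.exp (L t) := fun t => by
    rw [hLt, Real.exp_log (hHp t)]
  have hL : Tendsto L atTop atTop := by
    have h1 : Tendsto (fun t : ℕ => ((t : ℝ) - cu) / (df j0 + 1)) atTop atTop :=
      (tendsto_atTop_add_const_right _ _ tendsto_natCast_atTop_atTop).atTop_div_const
        (by positivity)
    refine tendsto_atTop_mono (fun t => ?_) h1
    rw [div_le_iff₀ (by positivity)]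
    have h1 := hlt t
    have h2 := prox_le f df S hS (x t) (hHp t) j0 (hz t).1
    have h3 := hcu S hS (x t) (hHp t)
    rw [← hLt] at h1 h2
    have h4 := hL0 t
    have h5 : 0 ≤ (n + ε) * L t := by positivity
    have h6 : (0 : ℝ) ≤ (df j0 : ℝ) := Nat.cast_nonneg _
    nlinarith
  -- the places
  set b : Fin S.card → ℕ := fun v => (S.equivFin.symm v : ℕ) with hbdef
  have hb : ∀ v, (b v).Prime := fun v => hS _ (S.equivFin.symm v).2
  have hbi : Function.Injective b := fun v w h => S.equivFin.symm.injective (Subtype.ext h)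
  have hSb : ∀ p ∈ S, ∃ v, b v = p := fun p hp => ⟨S.equivFin ⟨p, hp⟩, by simp [hbdef]⟩
  have hbS : ∀ v, b v ∈ S := fun v => (S.equivFin.symm v).2
  obtain ⟨xs, hxsd⟩ : ∃ xs : Fin n → ℕ → ℤ, xs = fun c t => x t c := ⟨_, rfl⟩
  have hxst : ∀ t, (fun c => xs c t) = x t := fun t => by rw [hxsd]
  have hxsc : ∀ c t, xs c t = x t c := fun c t => by rw [hxsd]
  have hgen : Gen xs := by
    intro P e hP hP0
    obtain ⟨s0, hs0⟩ := hg ⟨P, ⟨e, hP⟩, hP0⟩
    have h1 : ∀ᶠ t : ℕ in (UU : Filter ℕ), s0 ≤ t := ev_of_atTop (eventually_ge_atTop s0)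
    filter_upwards [h1] with t ht
    rw [hxst]
    have h2 := (hz t).2.2.2 s0 ht
    rwa [hs0] at h2
  choose av' hav' using fun (t : ℕ) (v : Option (Fin S.card)) =>
    Finite.exists_max fun c => av b v (x t c : ℚ)
  obtain ⟨i0, hi0⟩ := const_of_finite av'
  -- the bases are constant
  let Jt : ℕ → Option (Fin S.card) → Fin n → Fin q := fun t v =>
    v.elim (J0 t) (fun v => J t (b v))
  obtain ⟨Jc, hJc⟩ := const_of_finite Jt
  have ha : ∀ v, ∀ᶠ t in (UU : Filter ℕ), ∀ c, av b v (xs c t : ℚ) ≤ av b v (xs (i0 v) t : ℚ) := by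
    intro v
    filter_upwards [hi0] with t ht c
    rw [← ht, hxsd]
    exact hav' t v c
  have hinf : ∀ᶠ t in (UU : Filter ℕ), |(xs (i0 none) t : ℝ)| = (htv fun c => xs c t : ℝ) := by
    filter_upwards [ha none] with t ht
    rw [hxst, hxsc]
    refine le_antisymm (hle t _) ?_
    have h5 : (htv (x t) : ℝ) ≤ ((x t (i0 none)).natAbs : ℝ) := by
      norm_cast
      refine Finset.sup_le fun i _ => ?_
      have h6 := ht i
      rw [hxsc, hxsc] at h6
      simp only [av] at h6
      push_cast at h6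
      have h7 : |x t i| ≤ |x t (i0 none)| := by exact_mod_cast h6
      rw [Int.abs_eq_natAbs, Int.abs_eq_natAbs] at h7
      exact_mod_cast h7
    rwa [Nat.cast_natAbs, Int.cast_abs] at h5
  have hfin : ∀ᶠ t in (UU : Filter ℕ), ∀ v, av b (some v) (xs (i0 (some v)) t : ℚ) = 1 := by
    rw [Filter.eventually_all]
    intro v
    filter_upwards [ha (some v)] with t ht
    refine le_antisymm (av_int_le_one hb v _) ?_
    obtain ⟨j, h1⟩ := av_gcd_le' hb v (x t)
    rw [hgcd t] at h1
    have h2 : av b (some v) ((1 : ℤ) : ℚ) = 1 := by rw [Int.cast_one, av_one hb]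
    rw [h2] at h1
    have h3 := ht j
    rw [hxsc j] at h3
    exact h1.trans h3
  have hsize : ∀ v, ∀ᶠ t in (UU : Filter ℕ),
      av b v (xs (i0 v) t : ℚ) = Real.exp (sg v * L t) := by
    intro v
    cases v with
    | none =>
      filter_upwards [hinf] with t ht
      have e4 : av b none (xs (i0 none) t : ℚ) = |(xs (i0 none) t : ℝ)| := by
        simp only [av]; push_cast; rfl
      rw [e4, ht, hxst, hHL]
      simp [sg]
    | some v =>
      filter_upwards [hfin] with t ht
      rw [ht v]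
      simp [sg]
  have hx0 : ∀ v, ∀ᶠ t in (UU : Filter ℕ), xs (i0 v) t ≠ 0 := by
    intro v
    filter_upwards [hsize v] with t ht h0
    rw [h0, Int.cast_zero, av_zero hb] at ht
    exact absurd ht (Real.exp_pos _).ne
  -- lower bounds for the values of forms
  have hlow : ∀ (v : Option (Fin S.card)) (P : MvPolynomial (Fin n) ℤ) (d : ℕ),
      P.IsHomogeneous d → P ≠ 0 → 0 < lmv b v L (phi xs (i0 v) P) := by
    intro v P d hP hP0
    have hne := hgen P d hP hP0
    obtain ⟨c, hc1, hc⟩ := eval_le P d hP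
    have h1 : ∀ᶠ t in (UU : Filter ℕ), 1 ≤ L t := ev_of_atTop (hL.eventually_ge_atTop 1)
    refine lt_of_lt_of_le (Real.exp_pos (-(Real.log c + 2 * d)))
      (le_lmv hb hL (md_phi hb hL xs (i0 v) v (ha v) P) ?_)
    filter_upwards [hne, hsize v, h1] with t h2 h3 h4
    rw [phi_hom xs (i0 v) P d hP, av_mul hb, av_pow hb, av_inv hb, h3]
    rw [hxst] at h2 ⊢
    have h5 := hc (x t) (htv (x t)) (hHp t).le (hle t)
    have h6 := av_lower hb hbi v (eval (x t) P) h2 _ h5
    have h7 : sg v ≤ 1 := by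
      cases v <;> simp [sg]
    have h8 : Real.exp (-(sg v * L t)) ^ d ≥ Real.exp (-(d * L t)) := by
      rw [← Real.exp_nat_mul]
      refine Real.exp_le_exp.2 ?_
      have : sg v * L t ≤ 1 * L t := mul_le_mul_of_nonneg_right h7 (hL0 t)
      have hd : (0 : ℝ) ≤ d := Nat.cast_nonneg d
      nlinarith
    have h9 : Real.exp (-(Real.log c * L t + d * L t)) ≤ (c * (htv (x t) : ℝ) ^ d)⁻¹ := by
      rw [← Real.exp_log (show 0 < c by linarith), hHL, ← Real.exp_nat_mul, ← Real.exp_add,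
        ← Real.exp_neg, Real.exp_log (show 0 < c by linarith)]
      refine Real.exp_le_exp.2 ?_
      have : Real.log c ≤ Real.log c * L t := le_mul_of_one_le_right (Real.log_nonneg hc1) h4
      linarith
    rw [← Real.exp_neg]
    calc Real.exp (-(Real.log c + 2 * d) * L t)
        = Real.exp (-(d * L t)) * Real.exp (-(Real.log c * L t + d * L t)) := by
          rw [← Real.exp_add]
          congr 1
          ring
      _ ≤ Real.exp (-(sg v * L t)) ^ d * (c * (htv (x t) : ℝ) ^ d)⁻¹ :=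
          mul_le_mul h8 h9 (Real.exp_pos _).le (pow_nonneg (Real.exp_pos _).le _)
      _ ≤ _ := mul_le_mul_of_nonneg_left h6 (pow_nonneg (Real.exp_pos _).le _)
  -- the weights
  let G : Option (Fin S.card) → Valuation (MvPolynomial (Fin n) ℤ) NNReal := fun v =>
    gval hb hL v (phi xs (i0 v)) (md_phi hb hL xs (i0 v) v (ha v))
  have hG : ∀ v P, ((G v P : NNReal) : ℝ) = lmv b v L (phi xs (i0 v) P) := fun v P =>
    gval_coe hb hL v _ _ P
  let A : Option (Fin S.card) → Matrix (Fin n) (Fin n) ℤ := fun v j => Λ (Jc v j)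
  have hAli : ∀ v, LinearIndependent ℚ (AQ (A v)).row := by
    intro v
    obtain ⟨t, ht⟩ := hJc.exists
    have h1 : (AQ (A v)).row = fun j => fun i => (Λ (Jc v j) i : ℚ) := rfl
    rw [h1, ← ht]
    cases v with
    | none => exact hJ0 t
    | some v => exact hJ t (b v) (hbS v)
  have hB : ∀ v, ∃ B, AQ (A v) * B = 1 := fun v => ⟨(AQ (A v))⁻¹, Matrix.mul_nonsing_inv _
    ((Matrix.isUnit_iff_isUnit_det _).1 (Matrix.linearIndependent_rows_iff_isUnit.1 (hAli v)))⟩
  choose B hAB using hB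
  let γ : Option (Fin S.card) → Fin n → NNReal := fun v j => G v (lf (A v j))
  have hγ0 : ∀ v j, 0 < γ v j := by
    intro v j
    rw [← NNReal.coe_pos, hG]
    exact hlow v _ 1 (lf_hom _) (hlf0 _)
  have hprops := fun v => mono_props hb hL v xs (i0 v) (ha v) (hx0 v) (A v) (B v) (hAB v) (γ v)
    (hγ0 v) (fun j => hG v _)
  let c : Option (Fin S.card) → Fin n → ℝ := fun v j => -Real.log (γ v j)
  -- the sizes of the values of the forms
  have hSS : ∀ (v : Option (Fin S.card)) (P : MvPolynomial (Fin n) ℤ) (d : ℕ),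
      P.IsHomogeneous d → P ≠ 0 →
      gp xs P ∈ SS L (Rw (wv b hb v)) (-Real.log (G v P) - d * sg v) := by
    intro v P d hP hP0
    have h0 : (0 : ℝ) < G v P := by
      rw [hG]
      exact hlow v P d hP hP0
    show gm _ ∈ _
    rw [mem_SS]
    intro ε' hε'
    have h1 : lmv b v L (phi xs (i0 v) P) < (G v P : ℝ) * Real.exp ε' := by
      rw [← hG]
      exact lt_mul_of_one_lt_right h0 (Real.one_lt_exp_iff.2 hε')
    have h2 := ev_le_of_lmv_lt hb hL (md_phi hb hL xs (i0 v) v (ha v) _) h1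
    filter_upwards [h2, hsize v, hx0 v] with t h3 h4 h5
    show wv b hb v _ ≤ _
    rw [wv_eq_av]
    have h6 : ((eval (fun j => xs j t) P : ℤ) : ℚ) =
        (xs (i0 v) t : ℚ) ^ d * phi xs (i0 v) P t := by
      rw [phi_hom xs (i0 v) _ d hP, ← mul_assoc, ← mul_pow,
        mul_inv_cancel₀ (by exact_mod_cast h5), one_pow, one_mul]
    rw [h6, av_mul hb, av_pow hb, h4]
    have h7 : ((G v P : ℝ) * Real.exp ε') ^ L t =
        Real.exp ((Real.log (G v P) + ε') * L t) := by
      rw [← Real.exp_log h0, ← Real.exp_add, ← Real.exp_mul, Real.log_exp]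
    rw [h7] at h3
    calc Real.exp (sg v * L t) ^ d * av b v (phi xs (i0 v) P t) ≤
        Real.exp (sg v * L t) ^ d * Real.exp ((Real.log (G v P) + ε') * L t) :=
          mul_le_mul_of_nonneg_left h3 (pow_nonneg (Real.exp_pos _).le _)
      _ = Real.exp ((ε' - (-Real.log (G v P) - d * sg v)) * L t) := by
          rw [← Real.exp_nat_mul, ← Real.exp_add]
          congr 1
          ring
  have hc : ∀ v j, gp xs (lf (A v j)) ∈ SS L (Rw (wv b hb v)) (c v j - sg v) := by
    intro v j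
    have h1 := hSS v _ 1 (lf_hom (A v j)) (hlf0 _)
    rw [Nat.cast_one, one_mul] at h1
    exact h1
  -- the points are extremal
  have hsum : (n : ℝ) ≤ ∑ v, ∑ j, c v j := by
    have htend : Tendsto (fun t => ∑ v, ∑ j,
        -Real.log (av b v (phi xs (i0 v) (lf (A v j)) t) ^ (1 / L t))) (UU : Filter ℕ)
        (𝓝 (∑ v, ∑ j, c v j)) := by
      refine tendsto_finsetSum _ fun v _ => tendsto_finsetSum _ fun j _ => ?_
      refine Tendsto.neg (Tendsto.log ?_ ?_)
      · show Tendsto _ _ (𝓝 ((γ v j : NNReal) : ℝ))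
        rw [show ((γ v j : NNReal) : ℝ) = _ from hG v _]
        exact lmv_tendsto hb hL (md_phi hb hL xs (i0 v) v (ha v) _)
      · exact (NNReal.coe_pos.2 (hγ0 v j)).ne'
    have hd : Tendsto (fun t : ℕ => (n : ℝ) - 1 / ((t : ℝ) + 1)) (UU : Filter ℕ) (𝓝 (n - 0)) :=
      (tendsto_const_nhds.sub tendsto_one_div_add_atTop_nhds_zero_nat).mono_left
        Nat.hyperfilter_le_atTop
    rw [sub_zero] at hd
    refine le_of_tendsto_of_tendsto hd htend ?_
    filter_upwards [hJc, hinf, hfin, ev_pos hL, eventually_all.2 hx0] with t h1 h2 h3 h4 h5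
    have h6 := hext t
    rw [← hLt] at h6
    have h7 : prx Λ S (J0 t) (J t) (x t) =
        ∑ v, ∑ j, -Real.log (av b v (phi xs (i0 v) (lf (A v j)) t)) := by
      rw [Fintype.sum_option]
      unfold prx
      congr 1
      · refine Finset.sum_congr rfl fun j _ => ?_
        have e1 : A none j = Λ (J0 t j) := by
          show Λ (Jc none j) = _
          rw [← h1]
          rfl
        rw [e1, phi_hom xs (i0 none) _ 1 (lf_hom _), pow_one, av_mul hb, av_inv hb, hxst]
        have e2 : av b none (xs (i0 none) t : ℚ) = htv (x t) := by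
          have e4 : av b none (xs (i0 none) t : ℚ) = |(xs (i0 none) t : ℝ)| := by
            simp only [av]; push_cast; rfl
          rw [e4, h2, hxst]
        have e3 : av b none ((eval (x t) (lf (Λ (J0 t j))) : ℤ) : ℚ) =
            |((eval (x t) (lf (Λ (J0 t j))) : ℤ) : ℝ)| := by
          simp only [av]; push_cast; rfl
        rw [e2, e3, ← Real.log_inv, mul_inv, inv_inv, div_eq_mul_inv]
      · have e4 : ∑ p ∈ S, ∑ j, -Real.log ((padicNorm p
            ((eval (x t) (lf (Λ (J t p j))) : ℤ) : ℚ) : ℚ) : ℝ) =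
            ∑ v : Fin S.card, ∑ j, -Real.log ((padicNorm (b v)
              ((eval (x t) (lf (Λ (J t (b v) j))) : ℤ) : ℚ) : ℚ) : ℝ) := by
          rw [← Finset.sum_coe_sort S]
          symm
          refine Fintype.sum_equiv S.equivFin.symm _ _ fun v => ?_
          rfl
        rw [e4]
        refine Finset.sum_congr rfl fun v _ => Finset.sum_congr rfl fun j _ => ?_
        have e1 : A (some v) j = Λ (J t (b v) j) := by
          show Λ (Jc (some v) j) = _
          rw [← h1]
          rfl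
        rw [e1, phi_hom xs (i0 (some v)) _ 1 (lf_hom _), pow_one, av_mul hb, av_inv hb, hxst,
          h3 v, inv_one, one_mul]
        rfl
    have h8 : ∑ v, ∑ j, -Real.log (av b v (phi xs (i0 v) (lf (A v j)) t) ^ (1 / L t)) =
        (1 / L t) * ∑ v, ∑ j, -Real.log (av b v (phi xs (i0 v) (lf (A v j)) t)) := by
      rw [Finset.mul_sum]
      refine Finset.sum_congr rfl fun v _ => ?_
      rw [Finset.mul_sum]
      refine Finset.sum_congr rfl fun j _ => ?_
      rw [Real.log_rpow]
      · ring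
      · refine av_pos hb v ?_
        rw [phi_hom xs (i0 v) _ 1 (lf_hom _), hxst]
        refine mul_ne_zero (pow_ne_zero _ (inv_ne_zero (by exact_mod_cast h5 v))) ?_
        have := (hz t).2.2.1 (Jc v j)
        exact_mod_cast this
    rw [h8, ← h7, one_div_mul_eq_div, le_div_iff₀ h4]
    exact h6
  -- rigidity
  have hrig : ∀ (v : Option (Fin S.card)) (P : MvPolynomial (Fin n) ℤ) (d : ℕ),
      P.IsHomogeneous d → lval (B v) (γ v) (hγ0 v) P ≤ G v P := by
    intro v P d hP
    by_cases hP0 : P = 0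
    · rw [hP0, map_zero]
      exact bot_le
    rw [lval_apply, mw_le_iff]
    intro α hα
    have hG0' : (0 : ℝ) < G v P := by
      rw [hG]
      exact hlow v P d hP hP0
    have h1 := rigid hb hbi hL hn xs hgen A B hAB c hc hsum v P d hP α hα
      (hom_supp (psi_hom (B v) P d hP) hα) (-Real.log (G v P)) (hSS v P d hP hP0)
    rw [← NNReal.coe_le_coe]
    have h2 : ((mu (γ v) α : NNReal) : ℝ) = Real.exp (-∑ j, (α j : ℝ) * c v j) := by
      unfold mu
      push_cast
      rw [← Finset.sum_neg_distrib, Real.exp_sum]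
      refine Finset.prod_congr rfl fun j _ => ?_
      show _ = Real.exp (-((α j : ℝ) * -Real.log (γ v j)))
      rw [mul_neg, neg_neg, Real.exp_nat_mul, Real.exp_log (NNReal.coe_pos.2 (hγ0 v j))]
    rw [h2, ← Real.exp_log hG0']
    exact Real.exp_le_exp.2 (by linarith)
  -- the multiplier ideal
  have hmi : ∀ v k, G v (u k) * ∏ j, γ v j ≤ ⨆ j, G v (f j) := by
    intro v k
    obtain ⟨ρ, hρ, hρ'⟩ := hmult k _ (hprops v).1
    refine (mul_le_mul' ((hprops v).2.1 (u k)) ((hprops v).2.2 ρ hρ)).trans (hρ'.trans ?_)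
    exact ciSup_mono (Set.finite_range _).bddAbove fun j => hrig v (f j) (df j) (hf j)
  have hGu0 : ∀ v, 0 < G v (u k0) := by
    intro v
    rw [← NNReal.coe_pos, hG]
    exact hlow v _ _ (hu k0) hk0
  have hGf0 : ∀ v, 0 < G v (f j0) := by
    intro v
    rw [← NNReal.coe_pos, hG]
    exact hlow v _ _ (hf j0) hj0
  have hNf : Nonempty (Fin a) := ⟨j0⟩
  choose jm hjm using fun v => Finite.exists_max fun j => G v (f j)
  have hNe : Nonempty (Fin r) := ⟨k0⟩
  choose km hkm using fun v => Finite.exists_max fun k => G v (u k)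
  -- the subspace theorem
  have hsub : ∑ v, ∑ j, c v j ≤ n := by
    have h1 := fix_vec hb hbi hL xs (gen_lin hgen)
      (fun v => (AQ (A v)).row) hAli (fun v j => c v j - sg v) (by
        intro v j
        have h2 := hc v j
        have h3 : gp xs (lf (A v j)) = gv xs ((AQ (A v)).row j) := by
          unfold gp gv
          congr 1
          funext t
          unfold lf
          rw [map_sum]
          push_cast
          refine Finset.sum_congr rfl fun i _ => ?_
          rw [map_mul, eval_C, eval_X]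
          push_cast
          rfl
        rwa [h3] at h2)
    have h2 : ∑ v, ∑ j, (c v j - sg v) = ∑ v, ∑ j, c v j - n := by
      have h3 : ∀ v : Option (Fin S.card), ∑ j, (c v j - sg v) = ∑ j, c v j - n * sg v := by
        intro v
        rw [Finset.sum_sub_distrib, Finset.sum_const, Finset.card_univ, Fintype.card_fin,
          nsmul_eq_mul]
      rw [Finset.sum_congr rfl fun v _ => h3 v, Finset.sum_sub_distrib, ← Finset.mul_sum, sum_sg,
        mul_one]
    rw [h2] at h1
    linarith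
  -- the limits of the Weil functions
  have hlim : ∀ v, Real.log (G v (u (km v))) - Real.log (G v (f (jm v))) ≤ ∑ j, c v j := by
    intro v
    have h1 := hmi v (km v)
    have h2 : (⨆ j, G v (f j)) = G v (f (jm v)) := by
      apply le_antisymm
      · exact ciSup_le' fun j => hjm v j
      · exact le_ciSup (f := fun j => G v (f j)) (Set.finite_range _).bddAbove (jm v)
    rw [h2] at h1
    have h3 : 0 < G v (u (km v)) := lt_of_lt_of_le (hGu0 v) (hkm v k0)
    have h4 : (0 : ℝ) < ∏ j, (γ v j : ℝ) :=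
      Finset.prod_pos fun j _ => NNReal.coe_pos.2 (hγ0 v _)
    have h5 : (G v (u (km v)) : ℝ) * ∏ j, (γ v j : ℝ) ≤ G v (f (jm v)) := by
      exact_mod_cast h1
    have h6 := Real.log_le_log (mul_pos (NNReal.coe_pos.2 h3) h4) h5
    rw [Real.log_mul (NNReal.coe_pos.2 h3).ne' h4.ne', Real.log_prod fun j _ =>
      (NNReal.coe_pos.2 (hγ0 v _)).ne'] at h6
    have h7 : ∑ j, c v j = -∑ j, Real.log (γ v j) := by
      rw [← Finset.sum_neg_distrib]
    rw [h7]
    linarith
  obtain ⟨D, hD⟩ : ∃ D : ℝ, D = (S.card : ℝ) + 1 := ⟨_, rfl⟩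
  have hD0 : 0 < D := by
    rw [hD]
    exact Nat.cast_add_one_pos S.card
  obtain ⟨ε1, hε1⟩ : ∃ ε1 : ℝ, ε1 = ε / (2 * D) := ⟨_, rfl⟩
  have hε1' : 0 < ε1 := by
    rw [hε1]
    exact div_pos hε (mul_pos two_pos hD0)
  have hup : ∀ v k, ∀ᶠ t in (UU : Filter ℕ), av b v (phi xs (i0 v) (u k) t) ≤
      ((G v (u (km v)) : ℝ) * Real.exp ε1) ^ L t := by
    intro v k
    refine ev_le_of_lmv_lt hb hL (md_phi hb hL xs (i0 v) v (ha v) _) ?_
    rw [← hG]
    have h2 : (1 : ℝ) < Real.exp ε1 := Real.one_lt_exp_iff.2 hε1'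
    have h3 : (0 : ℝ) < G v (u (km v)) := NNReal.coe_pos.2 (lt_of_lt_of_le (hGu0 v) (hkm v k0))
    have h4 : (G v (u k) : ℝ) ≤ G v (u (km v)) := by exact_mod_cast hkm v k
    exact h4.trans_lt (lt_mul_of_one_lt_right h3 h2)
  have hGfm : ∀ v, (0 : ℝ) < G v (f (jm v)) := fun v =>
    NNReal.coe_pos.2 (lt_of_lt_of_le (hGf0 v) (hjm v j0))
  have hdown : ∀ v, ∀ᶠ t in (UU : Filter ℕ), ((G v (f (jm v)) : ℝ) * Real.exp (-ε1)) ^ L t ≤
      av b v (phi xs (i0 v) (f (jm v)) t) := by
    intro v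
    refine ev_ge_of_lt_lmv hb hL (md_phi hb hL xs (i0 v) v (ha v) _) (by positivity) ?_
    rw [← hG]
    have h2 : Real.exp (-ε1) < 1 := by
      rw [Real.exp_lt_one_iff]
      linarith
    exact mul_lt_of_lt_one_right (hGfm v) h2
  have hev : ∀ᶠ t in (UU : Filter ℕ),
      (∀ v k, av b v (phi xs (i0 v) (u k) t) ≤ ((G v (u (km v)) : ℝ) * Real.exp ε1) ^ L t) ∧
      (∀ v, ((G v (f (jm v)) : ℝ) * Real.exp (-ε1)) ^ L t ≤
        av b v (phi xs (i0 v) (f (jm v)) t)) ∧
      |(xs (i0 none) t : ℝ)| = (htv fun c => xs c t : ℝ) ∧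
      (∀ v, av b (some v) (xs (i0 (some v)) t : ℚ) = 1) ∧ ∀ v, xs (i0 v) t ≠ 0 := by
    have e1 : ∀ᶠ t in (UU : Filter ℕ), ∀ v k, av b v (phi xs (i0 v) (u k) t) ≤
        ((G v (u (km v)) : ℝ) * Real.exp ε1) ^ L t := by
      rw [Filter.eventually_all]
      intro v
      rw [Filter.eventually_all]
      exact hup v
    have e2 : ∀ᶠ t in (UU : Filter ℕ), ∀ v, ((G v (f (jm v)) : ℝ) * Real.exp (-ε1)) ^ L t ≤
        av b v (phi xs (i0 v) (f (jm v)) t) := by
      rw [Filter.eventually_all]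
      exact hdown
    have e3 : ∀ᶠ t in (UU : Filter ℕ), ∀ v, xs (i0 v) t ≠ 0 := by
      rw [Filter.eventually_all]
      exact hx0
    exact e1.and (e2.and (hinf.and (hfin.and e3)))
  obtain ⟨t, h1, h2, h3, h4, h5'⟩ := hev.exists
  have h5 : eval (x t) (u k0) ≠ 0 := (hz t).2.1
  have huniv : (insert none ((Finset.univ.filter fun v => b v ∈ S).image some)) =
      (Finset.univ : Finset (Option (Fin S.card))) := by
    ext v
    simp only [Finset.mem_insert, Finset.mem_image, Finset.mem_filter, Finset.mem_univ,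
      true_and, iff_true]
    cases v with
    | none => exact Or.inl rfl
    | some v => exact Or.inr ⟨v, hbS v, rfl⟩
  have e1 := prox_eq hb hbi f df hf S hSb xs t i0 h3 h4
  have e2 := prox_eq hb hbi u du hu S hSb xs t i0 h3 h4
  rw [hxst, huniv] at e1 e2
  have hA : ∀ v, L t * (Real.log (G v (f (jm v))) - ε1) ≤
      Real.log (⨆ j, av b v (phi xs (i0 v) (f j) t)) := by
    intro v
    have h6 := hGfm v
    have h7 : ((G v (f (jm v)) : ℝ) * Real.exp (-ε1)) ^ L t =
        Real.exp (L t * (Real.log (G v (f (jm v))) - ε1)) := by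
      rw [← Real.exp_log h6, ← Real.exp_add, ← Real.exp_mul, Real.log_exp]
      congr 1
      ring
    have h8 := h2 v
    rw [h7] at h8
    have h9 : av b v (phi xs (i0 v) (f (jm v)) t) ≤ ⨆ j, av b v (phi xs (i0 v) (f j) t) :=
      le_ciSup (f := fun j => av b v (phi xs (i0 v) (f j) t)) (Set.finite_range _).bddAbove (jm v)
    have h10 := h8.trans h9
    have h11 : 0 < ⨆ j, av b v (phi xs (i0 v) (f j) t) := lt_of_lt_of_le (Real.exp_pos _) h10
    rwa [← Real.exp_le_exp, Real.exp_log h11]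
  have hBB : ∀ v, Real.log (⨆ k, av b v (phi xs (i0 v) (u k) t)) ≤
      L t * (Real.log (G v (u (km v))) + ε1) := by
    intro v
    have h6 : (0 : ℝ) < G v (u (km v)) := NNReal.coe_pos.2 (lt_of_lt_of_le (hGu0 v) (hkm v k0))
    have h7 : ((G v (u (km v)) : ℝ) * Real.exp ε1) ^ L t =
        Real.exp (L t * (Real.log (G v (u (km v))) + ε1)) := by
      rw [← Real.exp_log h6, ← Real.exp_add, ← Real.exp_mul, Real.log_exp]
      congr 1
      ring
    have h8 : ⨆ k, av b v (phi xs (i0 v) (u k) t) ≤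
        Real.exp (L t * (Real.log (G v (u (km v))) + ε1)) := by
      rw [← h7]
      exact ciSup_le fun k => h1 v k
    have h9 : 0 < av b v (phi xs (i0 v) (u k0) t) := by
      refine av_pos hb v ?_
      rw [phi_hom xs (i0 v) _ _ (hu k0), hxst]
      refine mul_ne_zero (pow_ne_zero _ (inv_ne_zero ?_)) (by exact_mod_cast h5)
      exact_mod_cast h5' v
    have h10 : 0 < ⨆ k, av b v (phi xs (i0 v) (u k) t) :=
      lt_of_lt_of_le h9 (le_ciSup (f := fun k => av b v (phi xs (i0 v) (u k) t))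
        (Set.finite_range _).bddAbove k0)
    rw [← Real.log_exp (L t * (Real.log (G v (u (km v))) + ε1))]
    exact Real.log_le_log h10 h8
  have hABt : prox f df S (x t) - prox u du S (x t) ≤
      L t * (∑ v, ∑ j, c v j + 2 * ε1 * (S.card + 1)) := by
    have h6 : prox f df S (x t) - prox u du S (x t) =
        ∑ v, (Real.log (⨆ k, av b v (phi xs (i0 v) (u k) t)) -
          Real.log (⨆ j, av b v (phi xs (i0 v) (f j) t))) := by
      rw [Finset.sum_sub_distrib, e1, e2]
      ring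
    rw [h6]
    calc ∑ v, (Real.log (⨆ k, av b v (phi xs (i0 v) (u k) t)) -
          Real.log (⨆ j, av b v (phi xs (i0 v) (f j) t))) ≤
        ∑ v : Option (Fin S.card), L t * (∑ j, c v j + 2 * ε1) := by
          refine Finset.sum_le_sum fun v _ => ?_
          have h7 := hA v
          have h8 := hBB v
          have h9 := mul_le_mul_of_nonneg_left (hlim v) (hL0 t)
          nlinarith
      _ = _ := by
          rw [← Finset.mul_sum, Finset.sum_add_distrib, Finset.sum_const, Finset.card_univ,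
            Fintype.card_option, Fintype.card_fin, nsmul_eq_mul]
          push_cast
          ring
  have h6 : 2 * ε1 * ((S.card : ℝ) + 1) = ε := by
    rw [← hD, hε1, mul_comm (2 : ℝ), mul_assoc, div_mul_cancel₀ _ (mul_pos two_pos hD0).ne']
  rw [h6] at hABt
  have h7 := hlt t
  rw [← hLt] at h7
  have h8 : L t * (∑ v, ∑ j, c v j + ε) ≤ L t * (n + ε) :=
    mul_le_mul_of_nonneg_left (by linarith) (hL0 t)
  have h9 : (0 : ℝ) ≤ t := Nat.cast_nonneg t
  linarith

end

end Pool.Agent.Q13.MA
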